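import Pool.Agent.H6.QP.PDefs

/-! # Module A1: odd crossing parity implies that the segments meet -/

set_option autoImplicit false

namespace QP

theorem a1_btw_symm (a c d : ℝ × ℝ) : Btw a c d ↔ Btw a d c := by
  unfold Btw
  tauto

theorem a1_ht_left (a a' : ℝ × ℝ) : ht a a' a.1 = a.2 := by
  unfold ht
  ring

theorem a1_ht_right (a a' : ℝ × ℝ) (h : a.1 ≠ a'.1) : ht a a' a'.1 = a'.2 := by
  unfold ht
  have h1 : a'.1 - a.1 ≠ 0 := sub_ne_zero.2 h.symm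
  field_simp
  ring

theorem a1_ht_symm (c d : ℝ × ℝ) (h : c.1 ≠ d.1) (x : ℝ) : ht c d x = ht d c x := by
  unfold ht
  have h1 : d.1 - c.1 ≠ 0 := sub_ne_zero.2 h.symm
  have h2 : c.1 - d.1 ≠ 0 := sub_ne_zero.2 h
  have h3 : (c.2 - d.2) / (c.1 - d.1) = (d.2 - c.2) / (d.1 - c.1) := by
    rw [div_eq_div_iff h2 h1]
    ring
  rw [h3]
  have h4 : (d.1 - c.1) * ((d.2 - c.2) / (d.1 - c.1)) = d.2 - c.2 := by
    field_simp
  linear_combination h4

theorem a1_uu_symm (a c d : ℝ × ℝ) (h : c.1 ≠ d.1) : uu a c d = uu a d c := by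
  have h1 : (Btw a c d ∧ a.2 < ht c d a.1) ↔ (Btw a d c ∧ a.2 < ht d c a.1) := by
    rw [a1_btw_symm a c d, a1_ht_symm c d h]
  unfold uu
  classical
  exact if_congr h1 rfl rfl

theorem a1_ll_symm (a c d : ℝ × ℝ) (h : c.1 ≠ d.1) : ll a c d = ll a d c := by
  have h1 : (Btw a c d ∧ ht c d a.1 < a.2) ↔ (Btw a d c ∧ ht d c a.1 < a.2) := by
    rw [a1_btw_symm a c d, a1_ht_symm c d h]
  unfold ll
  classical
  exact if_congr h1 rfl rfl

theorem a1_uu_not (a c d : ℝ × ℝ) (h : ¬ Btw a c d) : uu a c d = 0 := by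
  unfold uu
  rw [if_neg]
  exact fun h' => h h'.1

theorem a1_ll_not (a c d : ℝ × ℝ) (h : ¬ Btw a c d) : ll a c d = 0 := by
  unfold ll
  rw [if_neg]
  exact fun h' => h h'.1

open Classical in
theorem a1_uu_of (a c d : ℝ × ℝ) (h : Btw a c d) :
    uu a c d = if a.2 < ht c d a.1 then 1 else 0 := by
  unfold uu
  exact if_congr (by simp only [h, true_and]) rfl rfl

open Classical in
theorem a1_ll_of (a c d : ℝ × ℝ) (h : Btw a c d) :
    ll a c d = if ht c d a.1 < a.2 then 1 else 0 := by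
  unfold ll
  exact if_congr (by simp only [h, true_and]) rfl rfl

theorem a1_mem_segment (a a' : ℝ × ℝ) (h : a.1 < a'.1) (x : ℝ) (h1 : a.1 ≤ x) (h2 : x ≤ a'.1) :
    (x, ht a a' x) ∈ segment ℝ a a' := by
  have h3 : 0 < a'.1 - a.1 := sub_pos.2 h
  rw [segment_eq_image]
  refine ⟨(x - a.1) / (a'.1 - a.1), ⟨div_nonneg (sub_nonneg.2 h1) h3.le, ?_⟩, ?_⟩
  · rw [div_le_one h3]
    linarith
  · have h4 : a'.1 - a.1 ≠ 0 := h3.ne'
    apply Prod.ext
    · simp only [Prod.fst_add, Prod.smul_fst, smul_eq_mul]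
      field_simp
      ring
    · simp only [Prod.snd_add, Prod.smul_snd, smul_eq_mul]
      unfold ht
      field_simp
      ring

theorem a1_cont (a a' c c' : ℝ × ℝ) : Continuous fun x => ht a a' x - ht c c' x := by
  unfold ht
  fun_prop

theorem a1_meet (a a' c c' : ℝ × ℝ) (ha : a.1 < a'.1) (hc : c.1 < c'.1) (p q : ℝ) (hpq : p ≤ q)
    (h1 : a.1 ≤ p) (h2 : c.1 ≤ p) (h3 : q ≤ a'.1) (h4 : q ≤ c'.1)
    (h : (ht a a' p ≤ ht c c' p ∧ ht c c' q ≤ ht a a' q) ∨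
      (ht c c' p ≤ ht a a' p ∧ ht a a' q ≤ ht c c' q)) :
    (segment ℝ a a' ∩ segment ℝ c c').Nonempty := by
  have hx : ∃ x ∈ Set.Icc p q, ht a a' x - ht c c' x = 0 := by
    rcases h with ⟨h5, h6⟩ | ⟨h5, h6⟩
    · exact intermediate_value_Icc hpq (a1_cont a a' c c').continuousOn
        ⟨by linarith, by linarith⟩
    · exact intermediate_value_Icc' hpq (a1_cont a a' c c').continuousOn
        ⟨by linarith, by linarith⟩
  obtain ⟨x, ⟨hx1, hx2⟩, hx3⟩ := hx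
  refine ⟨(x, ht a a' x), a1_mem_segment a a' ha x (by linarith) (by linarith), ?_⟩
  have h7 : ht a a' x = ht c c' x := by linarith
  rw [h7]
  exact a1_mem_segment c c' hc x (by linarith) (by linarith)

open Classical in
theorem a1_ite (P Q : Prop) (h : (if P then (1 : ZMod 2) else 0) + (if Q then 1 else 0) = 1) :
    (P ∧ ¬ Q) ∨ (¬ P ∧ Q) := by
  by_cases hP : P
  · by_cases hQ : Q
    · rw [if_pos hP, if_pos hQ] at h
      exact absurd h (by decide)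
    · exact Or.inl ⟨hP, hQ⟩
  · by_cases hQ : Q
    · exact Or.inr ⟨hP, hQ⟩
    · rw [if_neg hP, if_neg hQ] at h
      exact absurd h (by decide)

theorem a1_core (a a' c c' : ℝ × ℝ) (ha : a.1 < a'.1) (hc : c.1 < c'.1)
    (h1 : a.1 ≠ c.1) (h2 : a.1 ≠ c'.1) (h3 : a'.1 ≠ c.1) (h4 : a'.1 ≠ c'.1)
    (h : xx a a' c c' = 1) :
    (segment ℝ a a' ∩ segment ℝ c c').Nonempty := by
  have ea : ht a a' a.1 = a.2 := a1_ht_left a a'
  have ea' : ht a a' a'.1 = a'.2 := a1_ht_right a a' ha.ne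
  have ec : ht c c' c.1 = c.2 := a1_ht_left c c'
  have ec' : ht c c' c'.1 = c'.2 := a1_ht_right c c' hc.ne
  unfold xx at h
  rcases lt_or_gt_of_ne h3 with k3 | k3
  · rw [a1_uu_not a c c' (by rintro (⟨h, h'⟩ | ⟨h, h'⟩) <;> linarith),
      a1_uu_not a' c c' (by rintro (⟨h, h'⟩ | ⟨h, h'⟩) <;> linarith),
      a1_ll_not c a a' (by rintro (⟨h, h'⟩ | ⟨h, h'⟩) <;> linarith),
      a1_ll_not c' a a' (by rintro (⟨h, h'⟩ | ⟨h, h'⟩) <;> linarith)] at h
    exact absurd h (by decide)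
  rcases lt_or_gt_of_ne h2 with k2 | k2
  swap
  · rw [a1_uu_not a c c' (by rintro (⟨h, h'⟩ | ⟨h, h'⟩) <;> linarith),
      a1_uu_not a' c c' (by rintro (⟨h, h'⟩ | ⟨h, h'⟩) <;> linarith),
      a1_ll_not c a a' (by rintro (⟨h, h'⟩ | ⟨h, h'⟩) <;> linarith),
      a1_ll_not c' a a' (by rintro (⟨h, h'⟩ | ⟨h, h'⟩) <;> linarith)] at h
    exact absurd h (by decide)
  rcases lt_or_gt_of_ne h1 with k1 | k1
  · rcases lt_or_gt_of_ne h4 with k4 | k4
    · rw [a1_uu_not a c c' (by rintro (⟨h, h'⟩ | ⟨h, h'⟩) <;> linarith),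
        a1_uu_of a' c c' (Or.inl ⟨k3, k4⟩),
        a1_ll_of c a a' (Or.inl ⟨k1, k3⟩),
        a1_ll_not c' a a' (by rintro (⟨h, h'⟩ | ⟨h, h'⟩) <;> linarith), zero_add, add_zero] at h
      refine a1_meet a a' c c' ha hc c.1 a'.1 k3.le k1.le le_rfl le_rfl k4.le ?_
      rw [ea', ec]
      rcases a1_ite _ _ h with ⟨h5, h6⟩ | ⟨h5, h6⟩
      · exact Or.inr ⟨not_lt.1 h6, h5.le⟩
      · exact Or.inl ⟨h6.le, not_lt.1 h5⟩
    · rw [a1_uu_not a c c' (by rintro (⟨h, h'⟩ | ⟨h, h'⟩) <;> linarith),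
        a1_uu_not a' c c' (by rintro (⟨h, h'⟩ | ⟨h, h'⟩) <;> linarith),
        a1_ll_of c a a' (Or.inl ⟨k1, k3⟩),
        a1_ll_of c' a a' (Or.inl ⟨k2, k4⟩), zero_add, zero_add] at h
      refine a1_meet a a' c c' ha hc c.1 c'.1 hc.le k1.le le_rfl k4.le le_rfl ?_
      rw [ec', ec]
      rcases a1_ite _ _ h with ⟨h5, h6⟩ | ⟨h5, h6⟩
      · exact Or.inl ⟨h5.le, not_lt.1 h6⟩
      · exact Or.inr ⟨not_lt.1 h5, h6.le⟩
  · rcases lt_or_gt_of_ne h4 with k4 | k4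
    · rw [a1_uu_of a c c' (Or.inl ⟨k1, k2⟩),
        a1_uu_of a' c c' (Or.inl ⟨k3, k4⟩),
        a1_ll_not c a a' (by rintro (⟨h, h'⟩ | ⟨h, h'⟩) <;> linarith),
        a1_ll_not c' a a' (by rintro (⟨h, h'⟩ | ⟨h, h'⟩) <;> linarith), add_zero, add_zero] at h
      refine a1_meet a a' c c' ha hc a.1 a'.1 ha.le le_rfl k1.le le_rfl k4.le ?_
      rw [ea, ea']
      rcases a1_ite _ _ h with ⟨h5, h6⟩ | ⟨h5, h6⟩
      · exact Or.inl ⟨h5.le, not_lt.1 h6⟩
      · exact Or.inr ⟨not_lt.1 h5, h6.le⟩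
    · rw [a1_uu_of a c c' (Or.inl ⟨k1, k2⟩),
        a1_uu_not a' c c' (by rintro (⟨h, h'⟩ | ⟨h, h'⟩) <;> linarith),
        a1_ll_not c a a' (by rintro (⟨h, h'⟩ | ⟨h, h'⟩) <;> linarith),
        a1_ll_of c' a a' (Or.inl ⟨k2, k4⟩), add_zero, add_zero] at h
      refine a1_meet a a' c c' ha hc a.1 c'.1 k2.le le_rfl k1.le k4.le le_rfl ?_
      rw [ea, ec']
      rcases a1_ite _ _ h with ⟨h5, h6⟩ | ⟨h5, h6⟩
      · exact Or.inl ⟨h5.le, not_lt.1 h6⟩
      · exact Or.inr ⟨not_lt.1 h5, h6.le⟩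

/-- Generic segments with `xx = 1` meet.  WLOG (symmetry of `xx` and of `segment` under exchanging `a, a'` resp. `c, c'`)
`a.1 < a'.1` and `c.1 < c'.1`.  Go through the possible orders of the four abscissas: the number of
indices `a, a' ∈ (c.1, c'.1)`, `c, c' ∈ (a.1, a'.1)` is `0` or `2`; `xx = 1` implies that it is `2` and that at
exactly one of these two abscissas the line `a a'` is below the line `c c'`.  At a point between them the two
affine functions `ht a a'` and `ht c c'` agree (intermediate value theorem or an explicit convex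
combination). -/
theorem xx_one (a a' c c' : ℝ × ℝ) (ha : a.1 ≠ a'.1) (hc : c.1 ≠ c'.1)
    (h1 : a.1 ≠ c.1) (h2 : a.1 ≠ c'.1) (h3 : a'.1 ≠ c.1) (h4 : a'.1 ≠ c'.1)
    (g1 : a.2 ≠ ht c c' a.1) (g2 : a'.2 ≠ ht c c' a'.1)
    (g3 : c.2 ≠ ht a a' c.1) (g4 : c'.2 ≠ ht a a' c'.1) (h : xx a a' c c' = 1) :
    (segment ℝ a a' ∩ segment ℝ c c').Nonempty := by
  have s1 : xx a a' c c' = xx a' a c c' := by
    unfold xx
    rw [a1_ll_symm c a a' ha, a1_ll_symm c' a a' ha]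
    ring
  have s2 : ∀ b b' : ℝ × ℝ, xx b b' c c' = xx b b' c' c := by
    intro b b'
    unfold xx
    rw [a1_uu_symm b c c' hc, a1_uu_symm b' c c' hc]
    ring
  rcases lt_or_gt_of_ne ha with k | k
  · rcases lt_or_gt_of_ne hc with l | l
    · exact a1_core a a' c c' k l h1 h2 h3 h4 h
    · rw [segment_symm ℝ c c']
      exact a1_core a a' c' c k l h2 h1 h4 h3 (by rw [← s2]; exact h)
  · rcases lt_or_gt_of_ne hc with l | l
    · rw [segment_symm ℝ a a']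
      exact a1_core a' a c c' k l h3 h4 h1 h2 (by rw [← s1]; exact h)
    · rw [segment_symm ℝ a a', segment_symm ℝ c c']
      exact a1_core a' a c' c k l h4 h3 h2 h1 (by rw [← s2, ← s1]; exact h)

end QP
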