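import Pool.Agent.H6.QP.PDefs

/-! # Module A2: telescoping formulas -/

set_option autoImplicit false

namespace QP

theorem a2_two : (2 : ZMod 2) = 0 := by decide

/-- `∑_{m<n} (f m + f (m+1)) = f 0 + f n` in `ZMod 2`. -/
theorem tele (n : ℕ) (f : ℕ → ZMod 2) :
    ∑ m ∈ Finset.range n, (f m + f (m + 1)) = f 0 + f n := by
  induction n with
  | zero =>
    rw [Finset.sum_range_zero]
    linear_combination -(f 0) * a2_two
  | succ n ih =>
    rw [Finset.sum_range_succ, ih]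
    linear_combination (f n) * a2_two

theorem px_eq (n : ℕ) (a b : ℕ → ℝ × ℝ) :
    px n a b = usum n (a 0) b + usum n (a n) b + lsum n (b 0) a + lsum n (b n) a := by
  unfold px xx usum lsum
  have h1 : ∑ m ∈ Finset.range n, ∑ m' ∈ Finset.range n,
      (uu (a m) (b m') (b (m' + 1)) + uu (a (m + 1)) (b m') (b (m' + 1))) =
      ∑ m' ∈ Finset.range n, (uu (a 0) (b m') (b (m' + 1)) + uu (a n) (b m') (b (m' + 1))) := by
    rw [Finset.sum_comm]
    exact Finset.sum_congr rfl fun m' _ => tele n (fun m => uu (a m) (b m') (b (m' + 1)))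
  have h2 : ∑ m ∈ Finset.range n, ∑ m' ∈ Finset.range n,
      (ll (b m') (a m) (a (m + 1)) + ll (b (m' + 1)) (a m) (a (m + 1))) =
      ∑ m ∈ Finset.range n, (ll (b 0) (a m) (a (m + 1)) + ll (b n) (a m) (a (m + 1))) :=
    Finset.sum_congr rfl fun m _ => tele n (fun m' => ll (b m') (a m) (a (m + 1)))
  have h3 : ∑ m ∈ Finset.range n, ∑ m' ∈ Finset.range n,
      (uu (a m) (b m') (b (m' + 1)) + uu (a (m + 1)) (b m') (b (m' + 1)) +
        ll (b m') (a m) (a (m + 1)) + ll (b (m' + 1)) (a m) (a (m + 1))) =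
      (∑ m ∈ Finset.range n, ∑ m' ∈ Finset.range n,
        (uu (a m) (b m') (b (m' + 1)) + uu (a (m + 1)) (b m') (b (m' + 1)))) +
      ∑ m ∈ Finset.range n, ∑ m' ∈ Finset.range n,
        (ll (b m') (a m) (a (m + 1)) + ll (b (m' + 1)) (a m) (a (m + 1))) := by
    rw [← Finset.sum_add_distrib]
    refine Finset.sum_congr rfl fun m _ => ?_
    rw [← Finset.sum_add_distrib]
    exact Finset.sum_congr rfl fun m' _ => by ring
  rw [h3, h1, h2, Finset.sum_add_distrib, Finset.sum_add_distrib]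
  ring

open Classical in
theorem a2_uu_ll (p c d : ℝ × ℝ) (hc : c.1 ≠ p.1) (hd : d.1 ≠ p.1) (h : p.2 ≠ ht c d p.1) :
    uu p c d + ll p c d = (if c.1 < p.1 then (1 : ZMod 2) else 0) + if d.1 < p.1 then 1 else 0 := by
  have h1 : uu p c d + ll p c d = if Btw p c d then 1 else 0 := by
    unfold uu ll
    by_cases hB : Btw p c d
    · rcases lt_or_gt_of_ne h with h' | h'
      · rw [if_pos ⟨hB, h'⟩, if_neg (fun hh => absurd hh.2 (not_lt.mpr h'.le)), if_pos hB, add_zero]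
      · rw [if_neg (fun hh => absurd hh.2 (not_lt.mpr h'.le)), if_pos ⟨hB, h'⟩, if_pos hB, zero_add]
    · rw [if_neg (fun hh => hB hh.1), if_neg (fun hh => hB hh.1), if_neg hB, add_zero]
  rw [h1]
  unfold Btw
  rcases lt_or_gt_of_ne hc with hc' | hc' <;> rcases lt_or_gt_of_ne hd with hd' | hd'
  · rw [if_neg (by rintro (⟨_, h⟩ | ⟨_, h⟩) <;> linarith), if_pos hc', if_pos hd']
    decide
  · rw [if_pos (Or.inl ⟨hc', hd'⟩), if_pos hc', if_neg (not_lt.mpr hd'.le), add_zero]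
  · rw [if_pos (Or.inr ⟨hd', hc'⟩), if_neg (not_lt.mpr hc'.le), if_pos hd', zero_add]
  · rw [if_neg (by rintro (⟨h, _⟩ | ⟨h, _⟩) <;> linarith), if_neg (not_lt.mpr hc'.le),
      if_neg (not_lt.mpr hd'.le), add_zero]

open Classical in
/-- `uu p c d + ll p c d = [c.1 < p.1] + [d.1 < p.1]` for generic `p`. -/
theorem usum_add_lsum (n : ℕ) (p : ℝ × ℝ) (b : ℕ → ℝ × ℝ) (h1 : ∀ m, m ≤ n → (b m).1 ≠ p.1)
    (h2 : ∀ m, m < n → p.2 ≠ ht (b m) (b (m + 1)) p.1) :
    usum n p b + lsum n p b = if Btw p (b 0) (b n) then 1 else 0 := by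
  unfold usum lsum
  rw [← Finset.sum_add_distrib]
  have h3 : ∑ m ∈ Finset.range n, (uu p (b m) (b (m + 1)) + ll p (b m) (b (m + 1))) =
      ∑ m ∈ Finset.range n, ((if (b m).1 < p.1 then (1 : ZMod 2) else 0) +
        if (b (m + 1)).1 < p.1 then 1 else 0) := by
    refine Finset.sum_congr rfl fun m hm => ?_
    have hm := Finset.mem_range.mp hm
    exact a2_uu_ll p _ _ (h1 m (by omega)) (h1 (m + 1) (by omega)) (h2 m hm)
  rw [h3, tele n (fun m => if (b m).1 < p.1 then (1 : ZMod 2) else 0)]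
  have h0 := h1 0 (Nat.zero_le _)
  have hn := h1 n le_rfl
  unfold Btw
  rcases lt_or_gt_of_ne h0 with hc' | hc' <;> rcases lt_or_gt_of_ne hn with hd' | hd'
  · rw [if_pos hc', if_pos hd', if_neg (by rintro (⟨_, h⟩ | ⟨_, h⟩) <;> linarith)]
    decide
  · rw [if_pos hc', if_neg (not_lt.mpr hd'.le), if_pos (Or.inl ⟨hc', hd'⟩), add_zero]
  · rw [if_neg (not_lt.mpr hc'.le), if_pos hd', if_pos (Or.inr ⟨hd', hc'⟩), zero_add]
  · rw [if_neg (not_lt.mpr hc'.le), if_neg (not_lt.mpr hd'.le),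
      if_neg (by rintro (⟨h, _⟩ | ⟨h, _⟩) <;> linarith), add_zero]

end QP
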