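import Pool.Agent.H6.QP.A1
import Pool.Agent.H6.QP.A2

/-! # Module A3: polygonal drawings of `K_5` -/

set_option autoImplicit false

namespace QP

theorem a3_zmod2 (x : ZMod 2) (h : x ≠ 1) : x = 0 := by
  revert h
  revert x
  decide

/-- The pure counting statement. -/
theorem a3_count (U : Fin 5 → Fin 5 → Fin 5 → ZMod 2)
    (key : ∀ i j k l : Fin 5, i < j → k < l → i ≠ k → i ≠ l → j ≠ k → j ≠ l →
      U i k l + U j k l + U k i j + U l i j + (if i < k ∧ k < j then 1 else 0) +
        (if i < l ∧ l < j then 1 else 0) = 0) : False := by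
  have two : (2 : ZMod 2) = 0 := by decide
  have a1 := key 0 2 1 3 (by decide) (by decide) (by decide) (by decide) (by decide) (by decide)
  have a2 := key 0 3 1 2 (by decide) (by decide) (by decide) (by decide) (by decide) (by decide)
  have a3 := key 0 1 2 3 (by decide) (by decide) (by decide) (by decide) (by decide) (by decide)
  have b1 := key 0 2 1 4 (by decide) (by decide) (by decide) (by decide) (by decide) (by decide)
  have b2 := key 0 4 1 2 (by decide) (by decide) (by decide) (by decide) (by decide) (by decide)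
  have b3 := key 0 1 2 4 (by decide) (by decide) (by decide) (by decide) (by decide) (by decide)
  have c1 := key 0 3 1 4 (by decide) (by decide) (by decide) (by decide) (by decide) (by decide)
  have c2 := key 0 4 1 3 (by decide) (by decide) (by decide) (by decide) (by decide) (by decide)
  have c3 := key 0 1 3 4 (by decide) (by decide) (by decide) (by decide) (by decide) (by decide)
  have d1 := key 0 3 2 4 (by decide) (by decide) (by decide) (by decide) (by decide) (by decide)
  have d2 := key 0 4 2 3 (by decide) (by decide) (by decide) (by decide) (by decide) (by decide)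
  have d3 := key 0 2 3 4 (by decide) (by decide) (by decide) (by decide) (by decide) (by decide)
  have e1 := key 1 3 2 4 (by decide) (by decide) (by decide) (by decide) (by decide) (by decide)
  have e2 := key 1 4 2 3 (by decide) (by decide) (by decide) (by decide) (by decide) (by decide)
  have e3 := key 1 2 3 4 (by decide) (by decide) (by decide) (by decide) (by decide) (by decide)
  have f1 : (if (0 : Fin 5) < 1 ∧ (1 : Fin 5) < 2 then (1 : ZMod 2) else 0) = 1 := by decide
  rw [if_pos (by decide), if_neg (by decide)] at a1 b1 c1 d1 e1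
  rw [if_pos (by decide), if_pos (by decide)] at a2 b2 c2 d2 e2
  rw [if_neg (by decide), if_neg (by decide)] at a3 b3 c3 d3 e3
  have h : (1 : ZMod 2) = 0 := by
    linear_combination (a1 + a2 + a3 + b1 + b2 + b3 + c1 + c2 + c3 + d1 + d2 + d3 + e1 + e2 + e3) -
      ((U 0 1 2 + U 0 1 3 + U 0 1 4 + U 0 2 3 + U 0 2 4 + U 0 3 4) +
       (U 1 0 2 + U 1 0 3 + U 1 0 4 + U 1 2 3 + U 1 2 4 + U 1 3 4) +
       (U 2 0 1 + U 2 0 3 + U 2 0 4 + U 2 1 3 + U 2 1 4 + U 2 3 4) +
       (U 3 0 1 + U 3 0 2 + U 3 0 4 + U 3 1 2 + U 3 1 4 + U 3 2 4) +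
       (U 4 0 1 + U 4 0 2 + U 4 0 3 + U 4 1 2 + U 4 1 3 + U 4 2 3) + 7) * two
  exact absurd h (by decide)

/-- The total parity over all 15 pairs of independent edges is 1.  For `w < x < y < z` in `Fin 5`:
`px(wy,xz) + px(wz,xy) + px(wx,yz)`, by `px_eq` and `usum_add_lsum` (to eliminate `lsum`), is the sum of the 12 terms `usum(p; e)`,
`e` an edge in `{w,x,y,z}` and `p` one of the two remaining vertices, plus `1` (`Btw (P p) (P e.1) (P e.2)` is decided by the
order of the indices).  Each `(p, e)` occurs in exactly two of the five 4-subsets, so the total is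
`5 = 1`.  Hence some `px n (q i j) (q k l) ≠ 0`, some `xx = 1`, and `xx_one` applies. -/
theorem poly_sorted (P : Fin 5 → ℝ × ℝ) (hP : StrictMono (fun i => (P i).1)) (n : ℕ)
    (q : Fin 5 → Fin 5 → ℕ → ℝ × ℝ)
    (h0 : ∀ i j, i < j → q i j 0 = P i) (hn : ∀ i j, i < j → q i j n = P j)
    (g0 : ∀ i j, i < j → ∀ m, m < n → (q i j m).1 ≠ (q i j (m + 1)).1)
    (g1 : ∀ i j k l, i < j → k < l → i ≠ k → i ≠ l → j ≠ k → j ≠ l → ∀ m, m ≤ n → ∀ m', m' ≤ n →
      (q i j m).1 ≠ (q k l m').1)
    (g2 : ∀ i j k l, i < j → k < l → i ≠ k → i ≠ l → j ≠ k → j ≠ l → ∀ m, m ≤ n → ∀ m', m' < n →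
      (q i j m).2 ≠ ht (q k l m') (q k l (m' + 1)) (q i j m).1) :
    ∃ i j k l, i < j ∧ k < l ∧ i ≠ k ∧ i ≠ l ∧ j ≠ k ∧ j ≠ l ∧ ∃ m, m < n ∧ ∃ m', m' < n ∧
      (segment ℝ (q i j m) (q i j (m + 1)) ∩ segment ℝ (q k l m') (q k l (m' + 1))).Nonempty := by
  classical
  by_contra hcon
  push Not at hcon
  -- all parities vanish
  have hpx : ∀ i j k l : Fin 5, i < j → k < l → i ≠ k → i ≠ l → j ≠ k → j ≠ l →
      px n (q i j) (q k l) = 0 := by
    intro i j k l hij hkl hik hil hjk hjl
    refine Finset.sum_eq_zero fun m hm => Finset.sum_eq_zero fun m' hm' => ?_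
    have hm := Finset.mem_range.mp hm
    have hm' := Finset.mem_range.mp hm'
    apply a3_zmod2
    intro h
    have := xx_one (q i j m) (q i j (m + 1)) (q k l m') (q k l (m' + 1))
      (g0 i j hij m hm) (g0 k l hkl m' hm')
      (g1 i j k l hij hkl hik hil hjk hjl m (by omega) m' (by omega))
      (g1 i j k l hij hkl hik hil hjk hjl m (by omega) (m' + 1) (by omega))
      (g1 i j k l hij hkl hik hil hjk hjl (m + 1) (by omega) m' (by omega))
      (g1 i j k l hij hkl hik hil hjk hjl (m + 1) (by omega) (m' + 1) (by omega))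
      (g2 i j k l hij hkl hik hil hjk hjl m (by omega) m' (by omega))
      (g2 i j k l hij hkl hik hil hjk hjl (m + 1) (by omega) m' (by omega))
      (g2 k l i j hkl hij hik.symm hjk.symm hil.symm hjl.symm m' (by omega) m (by omega))
      (g2 k l i j hkl hij hik.symm hjk.symm hil.symm hjl.symm (m' + 1) (by omega) m (by omega)) h
    rw [hcon i j k l hij hkl hik hil hjk hjl m hm m' hm'] at this
    exact Set.not_nonempty_empty this
  -- eliminate `lsum`
  have hB : ∀ k i j : Fin 5, i < j → k ≠ i → k ≠ j →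
      (if Btw (P k) (P i) (P j) then (1 : ZMod 2) else 0) = if i < k ∧ k < j then 1 else 0 := by
    intro k i j hij hki hkj
    have hiff : Btw (P k) (P i) (P j) ↔ (i < k ∧ k < j) := by
      unfold Btw
      have h1 : (P i).1 < (P k).1 ↔ i < k := hP.lt_iff_lt
      have h2 : (P k).1 < (P j).1 ↔ k < j := hP.lt_iff_lt
      have h3 : (P j).1 < (P k).1 ↔ j < k := hP.lt_iff_lt
      have h4 : (P k).1 < (P i).1 ↔ k < i := hP.lt_iff_lt
      rw [h1, h2, h3, h4]
      constructor
      · rintro (h | h)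
        · exact h
        · exact absurd (h.1.trans h.2) (not_lt.mpr hij.le)
      · intro h
        exact Or.inl h
    by_cases h : Btw (P k) (P i) (P j)
    · rw [if_pos h, if_pos (hiff.mp h)]
    · rw [if_neg h, if_neg (fun h' => h (hiff.mpr h'))]
  -- a vertex independent of the edge `i j` lies on a path independent of the path `i j`
  have hUL : ∀ k i j l : Fin 5, i < j → k ≠ i → k ≠ j → l ≠ i → l ≠ j → k ≠ l →
      lsum n (P k) (q i j) = usum n (P k) (q i j) + if i < k ∧ k < j then 1 else 0 := by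
    intro k i j l hij hki hkj hli hlj hkl
    -- `P k` is the vertex number `0` or `n` of the path between `k` and `l`
    obtain ⟨k', l', mm, hk'l', hmm, hpk, c1, c2, c3, c4⟩ : ∃ (k' l' : Fin 5) (mm : ℕ), k' < l' ∧
        mm ≤ n ∧ q k' l' mm = P k ∧ k' ≠ i ∧ k' ≠ j ∧ l' ≠ i ∧ l' ≠ j := by
      rcases lt_or_gt_of_ne hkl with h | h
      · exact ⟨k, l, 0, h, Nat.zero_le _, h0 k l h, hki, hkj, hli, hlj⟩
      · exact ⟨l, k, n, h, le_rfl, hn l k h, hli, hlj, hki, hkj⟩
    have h1 : ∀ m, m ≤ n → (q i j m).1 ≠ (P k).1 := by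
      intro m hm
      rw [← hpk]
      exact g1 i j k' l' hij hk'l' c1.symm c3.symm c2.symm c4.symm m hm mm hmm
    have h2 : ∀ m, m < n → (P k).2 ≠ ht (q i j m) (q i j (m + 1)) (P k).1 := by
      intro m hm
      rw [← hpk]
      exact g2 k' l' i j hk'l' hij c1 c2 c3 c4 mm hmm m hm
    have h3 := usum_add_lsum n (P k) (q i j) h1 h2
    rw [h0 i j hij, hn i j hij, hB k i j hij hki hkj] at h3
    have two : (2 : ZMod 2) = 0 := by decide
    linear_combination h3 - usum n (P k) (q i j) * two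
  apply a3_count (fun p i j => usum n (P p) (q i j))
  intro i j k l hij hkl hik hil hjk hjl
  have h1 := hpx i j k l hij hkl hik hil hjk hjl
  rw [px_eq, h0 i j hij, hn i j hij, h0 k l hkl, hn k l hkl,
    hUL k i j l hij hik.symm hjk.symm hil.symm hjl.symm hkl.ne,
    hUL l i j k hij hil.symm hjl.symm hik.symm hjk.symm hkl.ne'] at h1
  linear_combination h1

/-- Sort the abscissas (`Tuple.sort`) and apply `poly_sorted` to `q (σ i) (σ j)`. -/
theorem poly_K5 (P : Fin 5 → ℝ × ℝ) (hP : Function.Injective (fun i => (P i).1)) (n : ℕ)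
    (q : Fin 5 → Fin 5 → ℕ → ℝ × ℝ)
    (h0 : ∀ i j, i ≠ j → q i j 0 = P i) (hn : ∀ i j, i ≠ j → q i j n = P j)
    (g0 : ∀ i j, i ≠ j → ∀ m, m < n → (q i j m).1 ≠ (q i j (m + 1)).1)
    (g1 : ∀ i j k l, i ≠ j → k ≠ l → i ≠ k → i ≠ l → j ≠ k → j ≠ l → ∀ m, m ≤ n → ∀ m', m' ≤ n →
      (q i j m).1 ≠ (q k l m').1)
    (g2 : ∀ i j k l, i ≠ j → k ≠ l → i ≠ k → i ≠ l → j ≠ k → j ≠ l → ∀ m, m ≤ n → ∀ m', m' < n →
      (q i j m).2 ≠ ht (q k l m') (q k l (m' + 1)) (q i j m).1) :
    ∃ i j k l, i ≠ j ∧ k ≠ l ∧ i ≠ k ∧ i ≠ l ∧ j ≠ k ∧ j ≠ l ∧ ∃ m, m < n ∧ ∃ m', m' < n ∧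
      (segment ℝ (q i j m) (q i j (m + 1)) ∩ segment ℝ (q k l m') (q k l (m' + 1))).Nonempty := by
  set σ : Equiv.Perm (Fin 5) := Tuple.sort (fun i => (P i).1) with hσ
  have hmono : Monotone ((fun i => (P i).1) ∘ σ) := Tuple.monotone_sort _
  have hstrict : StrictMono (fun i => ((P ∘ σ) i).1) :=
    hmono.strictMono_of_injective (hP.comp σ.injective)
  have hne : ∀ a b : Fin 5, a ≠ b → σ a ≠ σ b := fun a b h h' => h (σ.injective h')
  obtain ⟨i, j, k, l, hij, hkl, hik, hil, hjk, hjl, m, hm, m', hm', h⟩ :=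
    poly_sorted (P ∘ σ) hstrict n (fun i j => q (σ i) (σ j))
      (fun i j hij => h0 _ _ (hne i j hij.ne)) (fun i j hij => hn _ _ (hne i j hij.ne))
      (fun i j hij m hm => g0 _ _ (hne i j hij.ne) m hm)
      (fun i j k l hij hkl hik hil hjk hjl m hm m' hm' => g1 _ _ _ _ (hne i j hij.ne)
        (hne k l hkl.ne) (hne i k hik) (hne i l hil) (hne j k hjk) (hne j l hjl) m hm m' hm')
      (fun i j k l hij hkl hik hil hjk hjl m hm m' hm' => g2 _ _ _ _ (hne i j hij.ne)
        (hne k l hkl.ne) (hne i k hik) (hne i l hil) (hne j k hjk) (hne j l hjl) m hm m' hm')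
  exact ⟨σ i, σ j, σ k, σ l, hne i j hij.ne, hne k l hkl.ne, hne i k hik, hne i l hil,
    hne j k hjk, hne j l hjl, m, hm, m', hm', h⟩

end QP
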