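import Pool.Agent.H6.QP.PDefs

/-! # Module A4: general position -/

set_option autoImplicit false

namespace QP

theorem a4_quad (c0 c1 c2 : ℝ) (h : c2 ≠ 0) :
    {s : ℝ | c0 + c1 * s + c2 * s ^ 2 = 0}.Finite := by
  have hp : (Polynomial.C c2 * Polynomial.X ^ 2 + Polynomial.C c1 * Polynomial.X +
      Polynomial.C c0 : Polynomial ℝ) ≠ 0 := by
    intro h0
    have h1 := congrArg (fun p => Polynomial.coeff p 2) h0
    simp at h1
    exact h h1
  refine (Polynomial.finite_setOfPred_isRoot hp).subset ?_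
  intro s hs
  have hs' : c0 + c1 * s + c2 * s ^ 2 = 0 := hs
  show Polynomial.eval s _ = 0
  simp only [Polynomial.eval_add, Polynomial.eval_mul, Polynomial.eval_C, Polynomial.eval_pow,
    Polynomial.eval_X]
  linarith

theorem a4_lin (c0 c1 : ℝ) (h : c1 ≠ 0) : {s : ℝ | c0 + c1 * s = 0}.Finite := by
  refine (Set.finite_singleton (-c0 / c1)).subset ?_
  intro s hs
  have hs' : c0 + c1 * s = 0 := hs
  show s = -c0 / c1
  field_simp
  linarith

/-- Move `q i` to `q i + (s a_i, s a_i^2)` with distinct reals `a_i` and small generic `s > 0`.  The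
abscissas are distinct for all but finitely many `s`, and the determinant
`(q_j.1 - q_i.1)(q_k.2 - q_i.2) - (q_k.1 - q_i.1)(q_j.2 - q_i.2)` of the moved points is a polynomial in `s` of
degree 2 with the leading coefficient `(a_j - a_i)(a_k - a_i)(a_k - a_j) ≠ 0`, so it is nonzero for all but finitely many `s`; with distinct abscissas
`(q i).2 = ht (q j) (q k) (q i).1` would make it zero. -/
theorem exists_generic {ι : Type} [Finite ι] (q : ι → ℝ × ℝ) (ε : ℝ) (hε : 0 < ε) :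
    ∃ q' : ι → ℝ × ℝ, (∀ i, dist (q' i) (q i) < ε) ∧ (∀ i j, i ≠ j → (q' i).1 ≠ (q' j).1) ∧
      ∀ i j k, i ≠ j → i ≠ k → j ≠ k → (q' i).2 ≠ ht (q' j) (q' k) (q' i).1 := by
  obtain ⟨n, ⟨e⟩⟩ := Finite.exists_equiv_fin ι
  obtain ⟨a, ha, ha0, han⟩ : ∃ a : ι → ℝ, (∀ i j, i ≠ j → a i ≠ a j) ∧ (∀ i, 0 ≤ a i) ∧
      ∀ i, a i ≤ n := by
    refine ⟨fun i => ((e i : ℕ) : ℝ), fun i j hij h => ?_, fun i => Nat.cast_nonneg _,
      fun i => Nat.cast_le.2 (e i).2.le⟩
    exact hij (e.injective (Fin.ext (Nat.cast_injective h)))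
  set δ : ℝ := ε / (1 + n + n ^ 2) with hδ
  have hn0 : (0 : ℝ) ≤ n := Nat.cast_nonneg n
  have hpos : (0 : ℝ) < 1 + n + n ^ 2 := by positivity
  have hδ0 : 0 < δ := div_pos hε hpos
  have hbad1 : {s : ℝ | ∃ i j, i ≠ j ∧ (q i).1 + s * a i = (q j).1 + s * a j}.Finite := by
    have h1 : {s : ℝ | ∃ i j, i ≠ j ∧ (q i).1 + s * a i = (q j).1 + s * a j} ⊆
        ⋃ i, ⋃ j, {s : ℝ | i ≠ j ∧ (q i).1 + s * a i = (q j).1 + s * a j} := by
      rintro s ⟨i, j, h⟩
      exact Set.mem_iUnion.2 ⟨i, Set.mem_iUnion.2 ⟨j, h⟩⟩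
    refine (Set.finite_iUnion fun i => Set.finite_iUnion fun j => ?_).subset h1
    by_cases hij : i = j
    · refine Set.finite_empty.subset ?_
      rintro s ⟨h, _⟩
      exact absurd hij h
    · refine (a4_lin ((q i).1 - (q j).1) (a i - a j) (sub_ne_zero.2 (ha i j hij))).subset ?_
      rintro s ⟨_, h⟩
      show (q i).1 - (q j).1 + (a i - a j) * s = 0
      linarith
  have hbad2 : {s : ℝ | ∃ i j k, i ≠ j ∧ i ≠ k ∧ j ≠ k ∧
      (((q j).1 + s * a j) - ((q i).1 + s * a i)) * (((q k).2 + s * a k ^ 2) - ((q i).2 + s * a i ^ 2)) -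
      (((q k).1 + s * a k) - ((q i).1 + s * a i)) *
        (((q j).2 + s * a j ^ 2) - ((q i).2 + s * a i ^ 2)) = 0}.Finite := by
    have h1 : {s : ℝ | ∃ i j k, i ≠ j ∧ i ≠ k ∧ j ≠ k ∧
      (((q j).1 + s * a j) - ((q i).1 + s * a i)) * (((q k).2 + s * a k ^ 2) - ((q i).2 + s * a i ^ 2)) -
      (((q k).1 + s * a k) - ((q i).1 + s * a i)) *
        (((q j).2 + s * a j ^ 2) - ((q i).2 + s * a i ^ 2)) = 0} ⊆
        ⋃ i, ⋃ j, ⋃ k, {s : ℝ | i ≠ j ∧ i ≠ k ∧ j ≠ k ∧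
      (((q j).1 + s * a j) - ((q i).1 + s * a i)) * (((q k).2 + s * a k ^ 2) - ((q i).2 + s * a i ^ 2)) -
      (((q k).1 + s * a k) - ((q i).1 + s * a i)) *
        (((q j).2 + s * a j ^ 2) - ((q i).2 + s * a i ^ 2)) = 0} := by
      rintro s ⟨i, j, k, h⟩
      exact Set.mem_iUnion.2 ⟨i, Set.mem_iUnion.2 ⟨j, Set.mem_iUnion.2 ⟨k, h⟩⟩⟩
    refine (Set.finite_iUnion fun i => Set.finite_iUnion fun j => Set.finite_iUnion fun k =>
      ?_).subset h1
    by_cases hij : i = j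
    · refine Set.finite_empty.subset ?_
      rintro s ⟨h, _⟩
      exact absurd hij h
    by_cases hik : i = k
    · refine Set.finite_empty.subset ?_
      rintro s ⟨_, h, _⟩
      exact absurd hik h
    by_cases hjk : j = k
    · refine Set.finite_empty.subset ?_
      rintro s ⟨_, _, h, _⟩
      exact absurd hjk h
    have hc2 : (a j - a i) * (a k - a i) * (a k - a j) ≠ 0 :=
      mul_ne_zero (mul_ne_zero (sub_ne_zero.2 (ha j i (Ne.symm hij)))
        (sub_ne_zero.2 (ha k i (Ne.symm hik)))) (sub_ne_zero.2 (ha k j (Ne.symm hjk)))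
    refine (a4_quad (((q j).1 - (q i).1) * ((q k).2 - (q i).2) -
      ((q k).1 - (q i).1) * ((q j).2 - (q i).2))
      (((q j).1 - (q i).1) * (a k ^ 2 - a i ^ 2) + (a j - a i) * ((q k).2 - (q i).2) -
        ((q k).1 - (q i).1) * (a j ^ 2 - a i ^ 2) - (a k - a i) * ((q j).2 - (q i).2)) _
      hc2).subset ?_
    rintro s ⟨_, _, _, h⟩
    refine Eq.trans ?_ h
    ring
  obtain ⟨s, ⟨hs0, hsδ⟩, hsb⟩ := ((Set.Ioo_infinite hδ0).sdiff (hbad1.union hbad2)).nonempty
  have hb1 : ∀ i j, i ≠ j → (q i).1 + s * a i ≠ (q j).1 + s * a j := fun i j hij h =>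
    hsb (Or.inl ⟨i, j, hij, h⟩)
  refine ⟨fun i => ((q i).1 + s * a i, (q i).2 + s * a i ^ 2), fun i => ?_, fun i j hij => ?_,
    fun i j k hij hik hjk => ?_⟩
  · have hai : a i ^ 2 ≤ (n : ℝ) ^ 2 := pow_le_pow_left₀ (ha0 i) (han i) 2
    have hsε : s * (1 + n + n ^ 2) < ε := by
      have := mul_lt_mul_of_pos_right hsδ hpos
      rwa [hδ, div_mul_cancel₀ _ hpos.ne'] at this
    rw [Prod.dist_eq]
    refine max_lt ?_ ?_
    · rw [Real.dist_eq]
      show |(q i).1 + s * a i - (q i).1| < ε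
      rw [add_sub_cancel_left, abs_of_nonneg (mul_nonneg hs0.le (ha0 i))]
      refine lt_of_le_of_lt (mul_le_mul_of_nonneg_left ?_ hs0.le) hsε
      nlinarith [han i, sq_nonneg (n : ℝ)]
    · rw [Real.dist_eq]
      show |(q i).2 + s * a i ^ 2 - (q i).2| < ε
      rw [add_sub_cancel_left, abs_of_nonneg (mul_nonneg hs0.le (sq_nonneg _))]
      refine lt_of_le_of_lt (mul_le_mul_of_nonneg_left ?_ hs0.le) hsε
      nlinarith [han i, sq_nonneg (n : ℝ)]
  · exact hb1 i j hij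
  · intro h
    apply hsb
    refine Or.inr ⟨i, j, k, hij, hik, hjk, ?_⟩
    have hd : ((q k).1 + s * a k) - ((q j).1 + s * a j) ≠ 0 := sub_ne_zero.2 (hb1 k j (Ne.symm hjk))
    have h' : (q i).2 + s * a i ^ 2 = ((q j).2 + s * a j ^ 2) +
        (((q i).1 + s * a i) - ((q j).1 + s * a j)) *
        ((((q k).2 + s * a k ^ 2) - ((q j).2 + s * a j ^ 2)) /
          (((q k).1 + s * a k) - ((q j).1 + s * a j))) := h
    have h'' : ((q i).2 + s * a i ^ 2 - ((q j).2 + s * a j ^ 2)) *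
        (((q k).1 + s * a k) - ((q j).1 + s * a j)) =
        (((q i).1 + s * a i) - ((q j).1 + s * a j)) *
        (((q k).2 + s * a k ^ 2) - ((q j).2 + s * a j ^ 2)) := by
      rw [h']
      field_simp
      ring
    linear_combination h''

end QP
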