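import Pool.Agent.H6.QP.A3
import Pool.Agent.H6.QP.A4

/-! # Module A5: `K_5` for continuous paths -/

set_option autoImplicit false

namespace QP

open Filter Topology

theorem a5_pair (f g : ℝ → ℝ × ℝ) (hf : ContinuousOn f (Set.Icc 0 1))
    (hg : ContinuousOn g (Set.Icc 0 1)) (hd : f '' Set.Icc 0 1 ∩ g '' Set.Icc 0 1 = ∅) :
    ∀ᶠ δ in 𝓝[>] (0 : ℝ), ∀ s ∈ Set.Icc (0 : ℝ) 1, ∀ t ∈ Set.Icc (0 : ℝ) 1,
      δ ≤ dist (f s) (g t) := by
  have hK : IsCompact (Set.Icc (0 : ℝ) 1 ×ˢ Set.Icc (0 : ℝ) 1) := isCompact_Icc.prod isCompact_Icc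
  have hne : (Set.Icc (0 : ℝ) 1 ×ˢ Set.Icc (0 : ℝ) 1).Nonempty := ⟨(0, 0), by simp⟩
  have hcont : ContinuousOn (fun p : ℝ × ℝ => dist (f p.1) (g p.2))
      (Set.Icc (0 : ℝ) 1 ×ˢ Set.Icc (0 : ℝ) 1) := by
    have e1 : ContinuousOn (fun p : ℝ × ℝ => f p.1) (Set.Icc (0 : ℝ) 1 ×ˢ Set.Icc (0 : ℝ) 1) :=
      hf.comp continuousOn_fst (fun p hp => hp.1)
    have e2 : ContinuousOn (fun p : ℝ × ℝ => g p.2) (Set.Icc (0 : ℝ) 1 ×ˢ Set.Icc (0 : ℝ) 1) :=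
      hg.comp continuousOn_snd (fun p hp => hp.2)
    exact continuous_dist.comp_continuousOn (e1.prodMk e2)
  obtain ⟨⟨s0, t0⟩, ⟨hs0, ht0⟩, hmin⟩ := hK.exists_isMinOn hne hcont
  have hpos : 0 < dist (f s0) (g t0) := by
    rw [dist_pos]
    intro h
    have : f s0 ∈ f '' Set.Icc 0 1 ∩ g '' Set.Icc 0 1 := ⟨⟨s0, hs0, rfl⟩, ⟨t0, ht0, h.symm⟩⟩
    rw [hd] at this
    exact this
  filter_upwards [Ioc_mem_nhdsGT hpos] with δ hδ s hs t ht
  exact hδ.2.trans (hmin (Set.mk_mem_prod hs ht))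

/-- A common distance bound and a common modulus of continuity: if all independent pairs are
disjoint there are `δ > 0` and `n ≥ 1` with `δ ≤ dist x y` for points on independent paths and `dist (γ i j s) (γ i j t) < δ / 8` for
`s, t ∈ [0,1]`, `|s - t| ≤ 1 / n`. -/
theorem exists_delta (γ : Fin 5 → Fin 5 → ℝ → ℝ × ℝ)
    (hc : ∀ i j, i ≠ j → ContinuousOn (γ i j) (Set.Icc 0 1))
    (hd : ∀ i j k l, i ≠ j → k ≠ l → i ≠ k → i ≠ l → j ≠ k → j ≠ l →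
      γ i j '' Set.Icc 0 1 ∩ γ k l '' Set.Icc 0 1 = ∅) :
    ∃ δ : ℝ, 0 < δ ∧ ∃ n : ℕ, 1 ≤ n ∧
      (∀ i j k l, i ≠ j → k ≠ l → i ≠ k → i ≠ l → j ≠ k → j ≠ l → ∀ s ∈ Set.Icc (0 : ℝ) 1,
        ∀ t ∈ Set.Icc (0 : ℝ) 1, δ ≤ dist (γ i j s) (γ k l t)) ∧
      (∀ i j, i ≠ j → ∀ s ∈ Set.Icc (0 : ℝ) 1, ∀ t ∈ Set.Icc (0 : ℝ) 1, |s - t| ≤ 1 / n →
        dist (γ i j s) (γ i j t) < δ / 8) := by
  have h1 : ∀ᶠ δ in 𝓝[>] (0 : ℝ), ∀ i j k l, i ≠ j → k ≠ l → i ≠ k → i ≠ l → j ≠ k → j ≠ l →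
      ∀ s ∈ Set.Icc (0 : ℝ) 1, ∀ t ∈ Set.Icc (0 : ℝ) 1, δ ≤ dist (γ i j s) (γ k l t) := by
    rw [eventually_all]; intro i
    rw [eventually_all]; intro j
    rw [eventually_all]; intro k
    rw [eventually_all]; intro l
    by_cases h : i ≠ j ∧ k ≠ l ∧ i ≠ k ∧ i ≠ l ∧ j ≠ k ∧ j ≠ l
    · obtain ⟨a, b, c, d, e, f⟩ := h
      filter_upwards [a5_pair (γ i j) (γ k l) (hc i j a) (hc k l b) (hd i j k l a b c d e f)]
        with δ hδ _ _ _ _ _ _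
      exact hδ
    · exact Eventually.of_forall fun δ a b c d e f => absurd ⟨a, b, c, d, e, f⟩ h
  obtain ⟨δ, hδ, hδ0⟩ := (h1.and self_mem_nhdsWithin).exists
  have hδ0 : 0 < δ := hδ0
  have h2 : ∀ᶠ n : ℕ in atTop, ∀ i j, i ≠ j → ∀ s ∈ Set.Icc (0 : ℝ) 1, ∀ t ∈ Set.Icc (0 : ℝ) 1,
      |s - t| ≤ 1 / n → dist (γ i j s) (γ i j t) < δ / 8 := by
    rw [eventually_all]; intro i
    rw [eventually_all]; intro j
    by_cases h : i ≠ j
    · have huc := isCompact_Icc.uniformContinuousOn_of_continuous (hc i j h)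
      rw [Metric.uniformContinuousOn_iff] at huc
      obtain ⟨η, hη, hη2⟩ := huc (δ / 8) (by linarith)
      have h3 : ∀ᶠ n : ℕ in atTop, (1 : ℝ) / n < η :=
        tendsto_one_div_atTop_nhds_zero_nat.eventually (eventually_lt_nhds hη)
      filter_upwards [h3] with n hn _ s hs t ht hst
      refine hη2 s hs t ht ?_
      rw [Real.dist_eq]
      exact hst.trans_lt hn
    · exact Eventually.of_forall fun _ a => absurd a h
  obtain ⟨n, hn, hn1⟩ := (h2.and (eventually_ge_atTop 1)).exists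
  exact ⟨δ, hδ0, n, hn1, hδ, hn⟩

/-- the index of a node of a path -/
def a5node (n : ℕ) (i j : Fin 5) (m : ℕ) : Fin 5 ⊕ Fin 5 × Fin 5 × Fin (n + 1) :=
  if m = 0 then Sum.inl i else if h : m < n then Sum.inr (i, j, ⟨m, by omega⟩) else Sum.inl j

theorem a5node_zero (n : ℕ) (i j : Fin 5) : a5node n i j 0 = Sum.inl i := by
  simp [a5node]

theorem a5node_n (n : ℕ) (hn : 1 ≤ n) (i j : Fin 5) : a5node n i j n = Sum.inl j := by
  have : n ≠ 0 := by omega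
  simp [a5node, this]

theorem a5node_mid (n : ℕ) (i j : Fin 5) (m : ℕ) (h0 : m ≠ 0) (h : m < n) :
    a5node n i j m = Sum.inr (i, j, ⟨m, by omega⟩) := by
  simp [a5node, h0, h]

theorem a5node_cases (n : ℕ) (hn : 1 ≤ n) (i j : Fin 5) (m : ℕ) (hm : m ≤ n) :
    (m = 0 ∧ a5node n i j m = Sum.inl i) ∨ (m = n ∧ a5node n i j m = Sum.inl j) ∨
      (m ≠ 0 ∧ m < n ∧ ∃ h : m < n + 1, a5node n i j m = Sum.inr (i, j, ⟨m, h⟩)) := by
  rcases Nat.eq_zero_or_pos m with h | h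
  · left; exact ⟨h, by rw [h, a5node_zero]⟩
  · rcases hm.lt_or_eq with h' | h'
    · right; right
      exact ⟨h.ne', h', by omega, a5node_mid n i j m h.ne' h'⟩
    · right; left
      exact ⟨h', by rw [h', a5node_n n hn]⟩

theorem a5node_ne (n : ℕ) (hn : 1 ≤ n) (i j k l : Fin 5) (m m' : ℕ) (hm : m ≤ n) (hm' : m' ≤ n)
    (h1 : i ≠ k) (h2 : i ≠ l) (h3 : j ≠ k) (h4 : j ≠ l) : a5node n i j m ≠ a5node n k l m' := by
  rcases a5node_cases n hn i j m hm with ⟨-, h⟩ | ⟨-, h⟩ | ⟨-, -, _, h⟩ <;>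
  rcases a5node_cases n hn k l m' hm' with ⟨-, h'⟩ | ⟨-, h'⟩ | ⟨-, -, _, h'⟩ <;>
  rw [h, h'] <;> simp [h1, h2, h3, h4]

theorem a5node_succ (n : ℕ) (hn : 1 ≤ n) (i j : Fin 5) (hij : i ≠ j) (m : ℕ) (hm : m < n) :
    a5node n i j m ≠ a5node n i j (m + 1) := by
  rcases a5node_cases n hn i j m hm.le with ⟨e, h⟩ | ⟨e, h⟩ | ⟨-, -, _, h⟩ <;>
  rcases a5node_cases n hn i j (m + 1) hm with ⟨e', h'⟩ | ⟨e', h'⟩ | ⟨-, -, _, h'⟩ <;>
  rw [h, h'] <;> simp [hij] <;> omega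

/-- Otherwise take `exists_delta`, move the points `P i` and `γ i j (m / n)` (`0 < m < n`), indexed
by `Fin 5 ⊕ Fin 5 × Fin 5 × Fin (n+1)`, by less than `δ / 8` into general position (`exists_generic`), `q i j 0 = P' i`, `q i j n = P' j`, and apply `poly_K5`:
a common point of the segments `q i j m, q i j (m+1)` and `q k l m', q k l (m'+1)` is at distance at most `δ / 4` from
`γ i j (m / n)` and from `γ k l (m' / n)` (closed balls are convex). -/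
theorem K5_paths (P : Fin 5 → ℝ × ℝ) (γ : Fin 5 → Fin 5 → ℝ → ℝ × ℝ)
    (hc : ∀ i j, i ≠ j → ContinuousOn (γ i j) (Set.Icc 0 1))
    (h0 : ∀ i j, i ≠ j → γ i j 0 = P i) (h1 : ∀ i j, i ≠ j → γ i j 1 = P j) :
    ∃ i j k l, i ≠ j ∧ k ≠ l ∧ i ≠ k ∧ i ≠ l ∧ j ≠ k ∧ j ≠ l ∧
      (γ i j '' Set.Icc 0 1 ∩ γ k l '' Set.Icc 0 1).Nonempty := by
  by_contra hcon
  have hd : ∀ i j k l, i ≠ j → k ≠ l → i ≠ k → i ≠ l → j ≠ k → j ≠ l →
      γ i j '' Set.Icc 0 1 ∩ γ k l '' Set.Icc 0 1 = ∅ := by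
    intro i j k l a b c d e f
    by_contra h
    exact hcon ⟨i, j, k, l, a, b, c, d, e, f, Set.nonempty_iff_ne_empty.2 h⟩
  obtain ⟨δ, hδ, n, hn, hdist, huc⟩ := exists_delta γ hc hd
  have hn0 : (0 : ℝ) < n := by exact_mod_cast hn
  let q0 : Fin 5 ⊕ Fin 5 × Fin 5 × Fin (n + 1) → ℝ × ℝ :=
    Sum.elim P fun x => γ x.1 x.2.1 ((x.2.2 : ℕ) / n)
  obtain ⟨q', hq1, hq2, hq3⟩ := exists_generic q0 (δ / 8) (by linarith)
  have hq0 : ∀ i j, i ≠ j → ∀ m ≤ n, q0 (a5node n i j m) = γ i j (m / n) := by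
    intro i j hij m hm
    rcases a5node_cases n hn i j m hm with ⟨e, h⟩ | ⟨e, h⟩ | ⟨-, -, _, h⟩
    · rw [h, e]
      simp [q0, h0 i j hij]
    · rw [h, e, div_self hn0.ne']
      simp [q0, h1 i j hij]
    · rw [h]
      simp [q0]
  have hqd : ∀ i j, i ≠ j → ∀ m ≤ n, dist (q' (a5node n i j m)) (γ i j (m / n)) < δ / 8 := by
    intro i j hij m hm
    rw [← hq0 i j hij m hm]
    exact hq1 _
  have hmem : ∀ m ≤ n, (m : ℝ) / n ∈ Set.Icc (0 : ℝ) 1 := by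
    intro m hm
    refine ⟨by positivity, ?_⟩
    rw [div_le_one hn0]
    exact_mod_cast hm
  have hseg : ∀ i j, i ≠ j → ∀ m < n,
      ∀ p ∈ segment ℝ (q' (a5node n i j m)) (q' (a5node n i j (m + 1))),
        dist p (γ i j (m / n)) < δ / 4 := by
    intro i j hij m hm p hp
    have e1 : q' (a5node n i j m) ∈ Metric.ball (γ i j (m / n)) (δ / 4) := by
      rw [Metric.mem_ball]
      linarith [hqd i j hij m hm.le]
    have e2 : q' (a5node n i j (m + 1)) ∈ Metric.ball (γ i j (m / n)) (δ / 4) := by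
      rw [Metric.mem_ball]
      have e3 := hqd i j hij (m + 1) hm
      have e4 := huc i j hij (((m + 1 : ℕ) : ℝ) / n) (hmem (m + 1) hm) (m / n) (hmem m hm.le) (by
        rw [← sub_div, abs_div, Nat.abs_cast]
        push_cast
        rw [add_sub_cancel_left, abs_one])
      calc dist (q' (a5node n i j (m + 1))) (γ i j (m / n)) ≤
          dist (q' (a5node n i j (m + 1))) (γ i j (((m + 1 : ℕ) : ℝ) / n)) +
            dist (γ i j (((m + 1 : ℕ) : ℝ) / n)) (γ i j (m / n)) := dist_triangle _ _ _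
        _ < δ / 4 := by linarith
    exact (convex_ball (γ i j (m / n)) (δ / 4)).segment_subset e1 e2 hp
  obtain ⟨i, j, k, l, a, b, c, d, e, f, m, hm, m', hm', p, hp1, hp2⟩ :=
    poly_K5 (fun i => q' (Sum.inl i)) (fun i j hij => by
      by_contra h
      exact hq2 (Sum.inl i) (Sum.inl j) (fun h' => h (Sum.inl_injective h')) hij) n
      (fun i j m => q' (a5node n i j m))
      (fun i j _ => by simp only [a5node_zero]) (fun i j _ => by simp only [a5node_n n hn])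
      (fun i j hij m hm => hq2 _ _ (a5node_succ n hn i j hij m hm))
      (fun i j k l _ _ c d e f m hm m' hm' => hq2 _ _ (a5node_ne n hn i j k l m m' hm hm' c d e f))
      (fun i j k l _ b c d e f m hm m' hm' => hq3 _ _ _
        (a5node_ne n hn i j k l m m' hm hm'.le c d e f)
        (a5node_ne n hn i j k l m (m' + 1) hm hm' c d e f) (a5node_succ n hn k l b m' hm'))
  have r1 := hseg i j a m hm p hp1
  have r2 := hseg k l b m' hm' p hp2
  have r3 := hdist i j k l a b c d e f (m / n) (hmem m hm.le) (m' / n) (hmem m' hm'.le)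
  have r4 : dist (γ i j (m / n)) (γ k l (m' / n)) ≤
      dist p (γ i j (m / n)) + dist p (γ k l (m' / n)) := dist_triangle_left _ _ _
  linarith

end QP
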