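import Pool.Agent.H6.QP.Mod

/-! # Module C1: transitivity of the minor relation -/

set_option autoImplicit false

namespace QP

theorem Reach.mono {V : Type} {G G' : SimpleGraph V} {B B' : Set V} {u v : V}
    (h : Reach G B u v) (hG : G ≤ G') (hB : B ⊆ B') : Reach G' B' u v :=
  Relation.ReflTransGen.mono (fun _ _ hab => ⟨hG hab.1, hB hab.2.1, hB hab.2.2⟩) _ _ h

theorem Reach.symm {V : Type} {G : SimpleGraph V} {B : Set V} {u v : V}
    (h : Reach G B u v) : Reach G B v u := by
  unfold Reach at h ⊢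
  induction h with
  | refl => exact Relation.ReflTransGen.refl
  | tail _ hbc ih => exact Relation.ReflTransGen.head ⟨hbc.1.symm, hbc.2.2, hbc.2.1⟩ ih

theorem Reach.trans {V : Type} {G : SimpleGraph V} {B : Set V} {u v w : V}
    (h : Reach G B u v) (h' : Reach G B v w) : Reach G B u w :=
  Relation.ReflTransGen.trans h h'

/-- The bags `⋃ w ∈ C u, B w`. -/
theorem IsModel.trans {U W V : Type} {K : SimpleGraph U} {H : SimpleGraph W} {G : SimpleGraph V}
    {C : U → Set W} {B : W → Set V} (h1 : IsModel K H C) (h2 : IsModel H G B) :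
    IsModel K G (fun u => ⋃ w ∈ C u, B w) := by
  obtain ⟨n1, d1, r1, e1⟩ := h1
  obtain ⟨n2, d2, r2, e2⟩ := h2
  have hsub : ∀ u, ∀ w ∈ C u, B w ⊆ ⋃ w ∈ C u, B w := fun u w hw =>
    Set.subset_biUnion_of_mem hw
  refine ⟨fun u => ?_, fun u u' huu => ?_, fun u x hx y hy => ?_, fun u u' hK => ?_⟩
  · obtain ⟨w, hw⟩ := n1 u
    obtain ⟨x, hx⟩ := n2 w
    exact ⟨x, hsub u w hw hx⟩
  · rw [Set.disjoint_left]
    intro x hx hx'
    simp only [Set.mem_iUnion, exists_prop] at hx hx'
    obtain ⟨w, hw, hxw⟩ := hx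
    obtain ⟨w', hw', hxw'⟩ := hx'
    have hww : w ≠ w' := by
      intro h
      rw [← h] at hw'
      exact Set.disjoint_left.1 (d1 u u' huu) hw hw'
    exact Set.disjoint_left.1 (d2 w w' hww) hxw hxw'
  · simp only [Set.mem_iUnion, exists_prop] at hx hy
    obtain ⟨w, hw, hxw⟩ := hx
    obtain ⟨w', hw', hyw'⟩ := hy
    have key : ∀ c, Reach H (C u) w c → c ∈ C u → ∀ z ∈ B c,
        Reach G (⋃ w ∈ C u, B w) x z := by
      intro c hc
      unfold Reach at hc
      induction hc with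
      | refl =>
        intro hcu z hz
        exact (r2 w x hxw z hz).mono le_rfl (hsub u w hw)
      | @tail b c _ hbc ih =>
        intro hcu z hz
        obtain ⟨p, hp, q, hq, hpq⟩ := e2 b c hbc.1
        have h3 := ih hbc.2.1 p hp
        have h4 : Reach G (⋃ w ∈ C u, B w) p q :=
          Relation.ReflTransGen.single ⟨hpq, hsub u b hbc.2.1 hp, hsub u c hbc.2.2 hq⟩
        have h5 : Reach G (⋃ w ∈ C u, B w) q z :=
          (r2 c q hq z hz).mono le_rfl (hsub u c hbc.2.2)
        exact (h3.trans h4).trans h5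
    exact key w' (r1 u w hw w' hw') hw' y hyw'
  · obtain ⟨w, hw, w', hw', hH⟩ := e1 u u' hK
    obtain ⟨x, hx, y, hy, hG⟩ := e2 w w' hH
    exact ⟨x, hsub u w hw hx, y, hsub u' w' hw' hy, hG⟩

theorem isModel_id {V : Type} (G : SimpleGraph V) : IsModel G G (fun v => {v}) := by
  refine ⟨fun w => Set.singleton_nonempty w, fun w w' h => ?_, fun w u hu v hv => ?_,
    fun w w' h => ⟨w, rfl, w', rfl, h⟩⟩
  · exact Set.disjoint_singleton.2 h
  · have h1 : u = w := hu
    have h2 : v = w := hv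
    rw [h1, h2]
    exact Relation.ReflTransGen.refl

theorem IsModel.mono {W V : Type} {H : SimpleGraph W} {G G' : SimpleGraph V} {B : W → Set V}
    (h : IsModel H G B) (hG : G ≤ G') : IsModel H G' B := by
  refine ⟨h.1, h.2.1, fun w u hu v hv => (h.2.2.1 w u hu v hv).mono hG subset_rfl,
    fun w w' hH => ?_⟩
  obtain ⟨u, hu, v, hv, huv⟩ := h.2.2.2 w w' hH
  exact ⟨u, hu, v, hv, hG huv⟩

theorem KMinor.of_model {W V : Type} {H : SimpleGraph W} {G : SimpleGraph V} {B : W → Set V}
    {r : ℕ} (h : KMinor r H) (hB : IsModel H G B) : KMinor r G := by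
  obtain ⟨C, hC⟩ := h
  exact ⟨_, hC.trans hB⟩

/-- An induced subgraph is a minor (bags `{w.1}`). -/
theorem isModel_induce {V : Type} (G : SimpleGraph V) (s : Set V) :
    IsModel (G.induce s) G (fun w => {w.1}) := by
  refine ⟨fun w => Set.singleton_nonempty _, fun w w' h => ?_, fun w u hu v hv => ?_,
    fun w w' h => ⟨w.1, rfl, w'.1, rfl, h⟩⟩
  · exact Set.disjoint_singleton.2 (fun h' => h (Subtype.ext h'))
  · have h1 : u = w.1 := hu
    have h2 : v = w.1 := hv
    rw [h1, h2]
    exact Relation.ReflTransGen.refl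

end QP
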