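import Pool.Agent.H6.QP.Defs
import Pool.Agent.H6.QP.C1
import Pool.Agent.H6.QP.A5

/-! # Module A6: a `K_5` minor in a topological graph forces two disjoint edges to cross -/

set_option autoImplicit false

namespace QP

/-- The points of the drawing of the part of `H` inside `B`. -/
def Region {V : Type} {G : SimpleGraph V} (D : Drawing G) (H : SimpleGraph V) (B : Set V) :
    Set (ℝ × ℝ) :=
  (D.pos '' B) ∪ ⋃ e ∈ {e | e ∈ H.edgeSet ∧ ∀ v ∈ e, v ∈ B}, D.curve e '' Set.Icc 0 1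

theorem a6_edge {V : Type} {G : SimpleGraph V} (D : Drawing G) {H : SimpleGraph V}
    (hH : H ≤ G) (B : Set V) {u v : V} (hu : u ∈ B) (hv : v ∈ B) (h : H.Adj u v) :
    JoinedIn (Region D H B) (D.pos u) (D.pos v) := by
  have heH : s(u, v) ∈ H.edgeSet := h
  have heG : s(u, v) ∈ G.edgeSet := SimpleGraph.edgeSet_mono hH heH
  have hsub : D.curve s(u, v) '' Set.Icc 0 1 ⊆ Region D H B := by
    intro x hx
    refine Or.inr (Set.mem_biUnion (x := s(u, v)) ?_ hx)
    refine ⟨heH, fun w hw => ?_⟩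
    rcases Sym2.mem_iff.1 hw with rfl | rfl
    · exact hu
    · exact hv
  obtain ⟨a, b, hab, h0, h1⟩ := D.ends _ heG
  have hj : JoinedIn (Region D H B) (D.pos a) (D.pos b) :=
    JoinedIn.ofLine (f := D.curve s(u, v)) (D.cont _ heG) h0 h1 hsub
  rcases Sym2.eq_iff.1 hab with ⟨rfl, rfl⟩ | ⟨rfl, rfl⟩
  · exact hj
  · exact hj.symm

/-- Induction over `Reach`; one edge gives a path in the region. -/
theorem joined_of_reach {V : Type} {G : SimpleGraph V} (D : Drawing G) {H : SimpleGraph V}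
    (hH : H ≤ G) (B : Set V) {u v : V} (hu : u ∈ B) (h : Reach H B u v) :
    JoinedIn (Region D H B) (D.pos u) (D.pos v) := by
  unfold Reach at h
  induction h with
  | refl => exact JoinedIn.refl (Or.inl ⟨u, hu, rfl⟩)
  | tail _ hbc ih => exact ih.trans (a6_edge D hH B hbc.2.1 hbc.2.2 hbc.1)

theorem a6_region {V : Type} {G : SimpleGraph V} (D : Drawing G) {H : SimpleGraph V}
    (hH : H ≤ G) (B : Set V) {x : ℝ × ℝ} (hx : x ∈ Region D H B) :
    (∃ v ∈ B, x = D.pos v) ∨ ∃ e ∈ H.edgeSet, (∀ v ∈ e, v ∈ B) ∧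
      ∃ t ∈ Set.Ioo (0 : ℝ) 1, D.curve e t = x := by
  rcases hx with ⟨v, hv, rfl⟩ | hx
  · exact Or.inl ⟨v, hv, rfl⟩
  · rw [Set.mem_iUnion₂] at hx
    obtain ⟨e, ⟨he, heB⟩, t, ht, rfl⟩ := hx
    obtain ⟨a, b, hab, h0, h1⟩ := D.ends e (SimpleGraph.edgeSet_mono hH he)
    rcases eq_or_lt_of_le ht.1 with h2 | h2
    · left
      refine ⟨a, heB a (by rw [hab]; exact Sym2.mem_mk_left a b), ?_⟩
      rw [← h2, h0]
    · rcases eq_or_lt_of_le ht.2 with h3 | h3
      · left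
        refine ⟨b, heB b (by rw [hab]; exact Sym2.mem_mk_right a b), ?_⟩
        rw [h3, h1]
      · exact Or.inr ⟨e, he, heB, t, ⟨h2, h3⟩, rfl⟩

/-- `B_i` the bags, `b_i ∈ B_i`; `b_i` and `b_j` are joined in the region of `B_i ∪ B_j`.
`K5_paths` gives `i, j, k, l` distinct and a common point of the regions of `B_i ∪ B_j` and `B_k ∪ B_l`; by `avoid`, `ends`
and injectivity of `pos` it is an interior point of two vertex-disjoint edges. -/
theorem Drawing.cross_of_KMinor {V : Type} {G : SimpleGraph V} (D : Drawing G)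
    (H : SimpleGraph V) (hH : H ≤ G) (h : KMinor 5 H) :
    ∃ e ∈ H.edgeSet, ∃ f ∈ H.edgeSet, VDisj e f ∧ D.Cross e f := by
  obtain ⟨B, hne, hdisj, hconn, hadj⟩ := h
  choose b hb using hne
  have hj : ∀ i j : Fin 5, i ≠ j → JoinedIn (Region D H (B i ∪ B j)) (D.pos (b i)) (D.pos (b j)) := by
    intro i j hij
    obtain ⟨u, hu, v, hv, huv⟩ := hadj i j hij
    have h1 : Reach H (B i ∪ B j) (b i) u :=
      (hconn i (b i) (hb i) u hu).mono le_rfl Set.subset_union_left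
    have h2 : Reach H (B i ∪ B j) v (b j) :=
      (hconn j v hv (b j) (hb j)).mono le_rfl Set.subset_union_right
    have h3 : Reach H (B i ∪ B j) u v :=
      Relation.ReflTransGen.single ⟨huv, Or.inl hu, Or.inr hv⟩
    exact joined_of_reach D hH _ (Or.inl (hb i)) ((h1.trans h3).trans h2)
  have hp : ∀ i j : Fin 5, ∃ p : ℝ → ℝ × ℝ, i ≠ j → ContinuousOn p (Set.Icc 0 1) ∧
      p 0 = D.pos (b i) ∧ p 1 = D.pos (b j) ∧ p '' Set.Icc 0 1 ⊆ Region D H (B i ∪ B j) := by
    intro i j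
    by_cases hij : i = j
    · exact ⟨fun _ => 0, fun h => absurd hij h⟩
    · obtain ⟨γ, hγ⟩ := hj i j hij
      refine ⟨γ.extend, fun _ => ⟨γ.continuous_extend.continuousOn, γ.extend_zero, γ.extend_one, ?_⟩⟩
      rintro _ ⟨t, ht, rfl⟩
      rw [γ.extend_apply ht]
      exact hγ _
  choose p hp using hp
  obtain ⟨i, j, k, l, hij, hkl, hik, hil, hjk, hjl, x, hx1, hx2⟩ :=
    K5_paths (fun i => D.pos (b i)) p (fun i j h => (hp i j h).1) (fun i j h => (hp i j h).2.1)
      (fun i j h => (hp i j h).2.2.1)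
  have hx1' := a6_region D hH _ ((hp i j hij).2.2.2 hx1)
  have hx2' := a6_region D hH _ ((hp k l hkl).2.2.2 hx2)
  have hBB : ∀ v, v ∈ B i ∪ B j → v ∈ B k ∪ B l → False := by
    intro v hv hv'
    rcases hv with hv | hv <;> rcases hv' with hv' | hv'
    · exact Set.disjoint_left.1 (hdisj i k hik) hv hv'
    · exact Set.disjoint_left.1 (hdisj i l hil) hv hv'
    · exact Set.disjoint_left.1 (hdisj j k hjk) hv hv'
    · exact Set.disjoint_left.1 (hdisj j l hjl) hv hv'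
  rcases hx1' with ⟨v, hv, hxv⟩ | ⟨e, he, heB, t, ht, hxe⟩
  · rcases hx2' with ⟨w, hw, hxw⟩ | ⟨f, hf, hfB, s, hs, hxf⟩
    · have : v = w := D.pos_inj (hxv.symm.trans hxw)
      subst this
      exact absurd hw (fun hw => hBB v hv hw)
    · exact absurd (hxf.trans hxv) (D.avoid f (SimpleGraph.edgeSet_mono hH hf) s hs v)
  · rcases hx2' with ⟨w, hw, hxw⟩ | ⟨f, hf, hfB, s, hs, hxf⟩
    · exact absurd (hxe.trans hxw) (D.avoid e (SimpleGraph.edgeSet_mono hH he) t ht w)
    · have hvd : VDisj e f := fun v hv => hBB v (heB v hv.1) (hfB v hv.2)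
      refine ⟨e, he, f, hf, hvd, ?_, x, ⟨t, ht, hxe⟩, ⟨s, hs, hxf⟩⟩
      rintro rfl
      induction e using Sym2.ind with
      | _ a c => exact hvd a ⟨Sym2.mem_mk_left a c, Sym2.mem_mk_left a c⟩

end QP
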