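import Pool.Agent.H6.QP.LDefs

/-! # Module B1: elementary properties of the layout and of shears -/

set_option autoImplicit false

namespace QP
open Polynomial

variable {V : Type}

theorem shear_injective (P R : ℝ[X]) : Function.Injective (shear P R) := by
  intro z w h
  have h2 : z.2 + P.eval z.1 = w.2 + P.eval w.1 := congrArg Prod.snd h
  have h1 : z.1 + R.eval (z.2 + P.eval z.1) = w.1 + R.eval (w.2 + P.eval w.1) :=
    congrArg Prod.fst h
  rw [h2] at h1
  have h3 : z.1 = w.1 := add_right_cancel h1
  rw [h3] at h2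
  exact Prod.ext h3 (add_right_cancel h2)

theorem continuous_shear (P R : ℝ[X]) : Continuous (shear P R) := by
  unfold shear
  have h1 : Continuous fun z : ℝ × ℝ => z.2 + P.eval z.1 :=
    continuous_snd.add (P.continuous.comp continuous_fst)
  exact (continuous_fst.add (R.continuous.comp h1)).prodMk h1

/-- the natural number version of `lx` -/
def b1_lx (n : ℕ) (idx : V → ℕ) (par : V → Option V) (v : V) : ℕ :=
  match par v with
  | none => (n + 1) * idx v
  | some u => (n + 1) * idx u + idx v + 1

theorem b1_lx_eq (n : ℕ) (idx : V → ℕ) (par : V → Option V) (v : V) :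
    lx n idx par v = (b1_lx n idx par v : ℝ) := by
  unfold lx b1_lx
  rcases hv : par v with _ | u <;> simp

theorem b1_none (n : ℕ) (idx : V → ℕ) (par : V → Option V) (v : V) (h : par v = none) :
    b1_lx n idx par v = (n + 1) * idx v := by
  unfold b1_lx
  rw [h]

theorem b1_some (n : ℕ) (idx : V → ℕ) (par : V → Option V) (v u : V) (h : par v = some u) :
    b1_lx n idx par v = (n + 1) * idx u + idx v + 1 := by
  unfold b1_lx
  rw [h]

theorem b1_ly_none (par : V → Option V) (v : V) (h : par v = none) : ly par v = 0 := by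
  unfold ly
  rw [h]

theorem b1_ly_some (par : V → Option V) (v u : V) (h : par v = some u) : ly par v = 1 := by
  unfold ly
  rw [h]

theorem lx_injective (n : ℕ) (idx : V → ℕ) (hidx : Function.Injective idx)
    (hn : ∀ v, idx v < n) (par : V → Option V) : Function.Injective (lx n idx par) := by
  intro v w h
  rw [b1_lx_eq, b1_lx_eq] at h
  have h1 : b1_lx n idx par v = b1_lx n idx par w := Nat.cast_injective h
  apply hidx
  have hv := hn v
  have hw := hn w
  have hm : b1_lx n idx par v % (n + 1) = b1_lx n idx par w % (n + 1) := by rw [h1]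
  rcases hpv : par v with _ | u <;> rcases hpw : par w with _ | u'
  · rw [b1_none n idx par v hpv, b1_none n idx par w hpw] at h1
    exact Nat.eq_of_mul_eq_mul_left (Nat.succ_pos n) h1
  · rw [b1_none n idx par v hpv, b1_some n idx par w u' hpw, add_assoc, Nat.mul_mod_right,
      Nat.mul_add_mod, Nat.mod_eq_of_lt (by omega)] at hm
    omega
  · rw [b1_none n idx par w hpw, b1_some n idx par v u hpv, add_assoc, Nat.mul_mod_right,
      Nat.mul_add_mod, Nat.mod_eq_of_lt (by omega)] at hm
    omega
  · rw [b1_some n idx par v u hpv, b1_some n idx par w u' hpw, add_assoc, add_assoc,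
      Nat.mul_add_mod, Nat.mul_add_mod, Nat.mod_eq_of_lt (by omega),
      Nat.mod_eq_of_lt (by omega)] at hm
    omega

theorem lx_int (n : ℕ) (idx : V → ℕ) (par : V → Option V) (v : V) :
    ∃ k : ℕ, lx n idx par v = k :=
  ⟨_, b1_lx_eq n idx par v⟩

/-- For a leaf `v` of the center `u` : `lx v - lx u = idx v + 1`, between `1` and `n`. -/
theorem lx_sub (n : ℕ) (idx : V → ℕ) (par : V → Option V) (v u : V) (h : par v = some u)
    (hu : par u = none) : lx n idx par v - lx n idx par u = idx v + 1 := by
  rw [b1_lx_eq, b1_lx_eq, b1_some n idx par v u h, b1_none n idx par u hu]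
  push_cast
  ring

theorem seg_zero (n : ℕ) (idx : V → ℕ) (par : V → Option V) (v u : V) (hu : par u = none) :
    seg n idx par v u 0 = (lx n idx par u, ly par u) := by
  unfold seg
  rw [b1_ly_none par u hu, zero_mul, add_zero]

theorem seg_one (n : ℕ) (idx : V → ℕ) (par : V → Option V) (v u : V) (h : par v = some u) :
    seg n idx par v u 1 = (lx n idx par v, ly par v) := by
  unfold seg
  rw [b1_ly_some par v u h, one_mul, add_sub_cancel]

theorem seg_ne_vertex (n : ℕ) (idx : V → ℕ) (par : V → Option V) (v u w : V) (t : ℝ)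
    (ht : t ∈ Set.Ioo (0 : ℝ) 1) : seg n idx par v u t ≠ (lx n idx par w, ly par w) := by
  intro h
  have h2 : t = ly par w := congrArg Prod.snd h
  rcases hpw : par w with _ | u'
  · rw [b1_ly_none par w hpw] at h2
    exact ht.1.ne' h2
  · rw [b1_ly_some par w u' hpw] at h2
    exact ht.2.ne h2

/-- Segments of two different leaves do not meet except at a common center. -/
theorem seg_ne_seg (n : ℕ) (idx : V → ℕ) (hidx : Function.Injective idx)
    (hn : ∀ v, idx v < n) (par : V → Option V) (hstar : ∀ v u, par v = some u → par u = none)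
    (v u v' u' : V) (h : par v = some u) (h' : par v' = some u') (hv : v ≠ v') (t t' : ℝ)
    (ht : t ∈ Set.Ioo (0 : ℝ) 1) (ht' : t' ∈ Set.Icc (0 : ℝ) 1) :
    seg n idx par v u t ≠ seg n idx par v' u' t' := by
  intro hs
  have h2 : t = t' := congrArg Prod.snd hs
  have h1 : lx n idx par u + t * (lx n idx par v - lx n idx par u) =
      lx n idx par u' + t' * (lx n idx par v' - lx n idx par u') := congrArg Prod.fst hs
  rw [← h2, lx_sub n idx par v u h (hstar v u h), lx_sub n idx par v' u' h' (hstar v' u' h'),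
    b1_lx_eq, b1_lx_eq, b1_none n idx par u (hstar v u h),
    b1_none n idx par u' (hstar v' u' h')] at h1
  push_cast at h1
  have hv1 : (idx v : ℝ) + 1 ≤ n := by exact_mod_cast hn v
  have hv2 : (idx v' : ℝ) + 1 ≤ n := by exact_mod_cast hn v'
  have hp1 : (0 : ℝ) ≤ idx v := Nat.cast_nonneg _
  have hp2 : (0 : ℝ) ≤ idx v' := Nat.cast_nonneg _
  have hb1 : t * ((idx v : ℝ) + 1) < n := by
    nlinarith [ht.1, ht.2]
  have hb2 : t * ((idx v' : ℝ) + 1) < n := by
    nlinarith [ht.1, ht.2]
  have hb3 : 0 < t * ((idx v : ℝ) + 1) := mul_pos ht.1 (by linarith)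
  have hb4 : 0 < t * ((idx v' : ℝ) + 1) := mul_pos ht.1 (by linarith)
  rcases lt_trichotomy (idx u) (idx u') with hlt | heq | hgt
  · have h3 : (idx u : ℝ) + 1 ≤ idx u' := by exact_mod_cast hlt
    have h4 : ((n : ℝ) + 1) * (idx u + 1) ≤ ((n : ℝ) + 1) * idx u' :=
      mul_le_mul_of_nonneg_left h3 (by positivity)
    linarith
  · rw [heq] at h1
    have h3 : t * ((idx v : ℝ) + 1) = t * ((idx v' : ℝ) + 1) := add_left_cancel h1
    have h4 : (idx v : ℝ) + 1 = idx v' + 1 := mul_left_cancel₀ ht.1.ne' h3
    have h5 : (idx v : ℝ) = idx v' := by linarith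
    exact hv (hidx (Nat.cast_injective h5))
  · have h3 : (idx u' : ℝ) + 1 ≤ idx u := by exact_mod_cast hgt
    have h4 : ((n : ℝ) + 1) * (idx u' + 1) ≤ ((n : ℝ) + 1) * idx u :=
      mul_le_mul_of_nonneg_left h3 (by positivity)
    linarith

/-- If `P (lx v) = idx v - ly v` and `R (idx v) = - lx v` then the vertex `v` of the layout is moved
to `(0, idx v)`. -/
theorem shear_vertex (n : ℕ) (idx : V → ℕ) (par : V → Option V) (P R : ℝ[X]) (v : V)
    (hP : P.eval (lx n idx par v) = idx v - ly par v) (hR : R.eval (idx v : ℝ) = - lx n idx par v) :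
    shear P R (lx n idx par v, ly par v) = (0, (idx v : ℝ)) := by
  have h2 : ly par v + P.eval (lx n idx par v) = (idx v : ℝ) := by
    rw [hP]
    ring
  show (lx n idx par v + R.eval (ly par v + P.eval (lx n idx par v)),
    ly par v + P.eval (lx n idx par v)) = (0, (idx v : ℝ))
  rw [h2, hR, add_neg_cancel]

end QP
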