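import Pool.Agent.H6.QP.LDefs

/-! # Module B2: interpolation with a free parameter; good functions -/

set_option autoImplicit false

namespace QP
open Polynomial

variable {V : Type}

theorem node_eval_eq_zero [Fintype V] (a : V → ℝ) (x : ℝ) :
    (node a).eval x = 0 ↔ ∃ v, x = a v := by
  simp only [node, eval_prod, Finset.prod_eq_zero_iff, Finset.mem_univ, true_and, eval_sub,
    eval_X, eval_C, sub_eq_zero]

/-- Lagrange interpolation. -/
theorem exists_interp [Fintype V] (a b : V → ℝ) (ha : Function.Injective a) :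
    ∃ P : ℝ[X], P.degree < (Fintype.card V : ℕ) ∧ ∀ v, P.eval (a v) = b v := by
  classical
  refine ⟨Lagrange.interpolate Finset.univ a b, ?_, fun v => ?_⟩
  · have := Lagrange.degree_interpolate_lt (s := (Finset.univ : Finset V)) (v := a) b ha.injOn
    simpa using this
  · exact Lagrange.eval_interpolate_at_node b ha.injOn (Finset.mem_univ v)

theorem b2_node_monic [Fintype V] (a : V → ℝ) : (node a).Monic :=
  monic_prod_of_monic _ _ fun v _ => monic_X_sub_C (a v)

theorem b2_node_natDegree [Fintype V] (a : V → ℝ) : (node a).natDegree = Fintype.card V := by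
  rw [node, natDegree_prod_of_monic _ _ fun v _ => monic_X_sub_C (a v)]
  simp

theorem natDegree_interp [Fintype V] (a : V → ℝ) (P : ℝ[X]) (hP : P.degree < (Fintype.card V : ℕ))
    (l : ℝ) (hl : l ≠ 0) : (P + C l * node a).natDegree = Fintype.card V := by
  have h1 : (C l * node a).degree = (Fintype.card V : ℕ) := by
    rw [degree_C_mul hl, degree_eq_natDegree (b2_node_monic a).ne_zero, b2_node_natDegree]
  have h2 : (P + C l * node a).degree = (Fintype.card V : ℕ) := by
    rw [degree_add_eq_right_of_degree_lt (by rw [h1]; exact hP), h1]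
  exact natDegree_eq_of_degree_eq_some h2

theorem b2_finite_roots (Q : ℝ[X]) (hQ : Q ≠ 0) : {x : ℝ | Q.eval x = 0}.Finite := by
  refine (Q.roots.toFinset.finite_toSet).subset fun x hx => ?_
  simp only [Finset.mem_coe, Multiset.mem_toFinset, mem_roots hQ]
  exact hx

/-- a polynomial of degree at least two, times a nonzero constant, plus a polynomial of degree at
most one, is not zero -/
theorem b2_ne_zero (P L : ℝ[X]) (hP : 2 ≤ P.natDegree) (hL : L.natDegree ≤ 1) (D : ℝ)
    (hD : D ≠ 0) : L + C D * P ≠ 0 := by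
  intro h
  have h1 : (L + C D * P).natDegree = P.natDegree := by
    rw [natDegree_add_eq_right_of_natDegree_lt]
    · exact natDegree_C_mul hD
    · rw [natDegree_C_mul hD]; omega
  rw [h] at h1
  simp at h1
  omega

/-- For fixed `z`, `D ≠ 0` and `P` of degree at least 2 there are finitely many `x` with
`x = x0 + (z - P x) D`. -/
theorem finite_line (P : ℝ[X]) (hP : 2 ≤ P.natDegree) (x0 D z : ℝ) (hD : D ≠ 0) :
    {x : ℝ | x = x0 + (z - P.eval x) * D}.Finite := by
  have hne : (X - C (x0 + z * D)) + C D * P ≠ 0 :=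
    b2_ne_zero P _ hP (by rw [natDegree_X_sub_C]) D hD
  refine (b2_finite_roots _ hne).subset fun x hx => ?_
  simp only [Set.mem_ofPred_eq] at hx ⊢
  simp only [eval_add, eval_sub, eval_X, eval_C, eval_mul]
  linarith [hx]

/-- The polynomial function vanishing on the image of the line `x = x0 + y D`: for every fixed
`y` it is a polynomial in `x` of degree `P.natDegree ≥ 2`. -/
theorem goodF_line (P R : ℝ[X]) (hP : 2 ≤ P.natDegree) (x0 D : ℝ) (hD : D ≠ 0) :
    ∃ F : ℝ × ℝ → ℝ, GoodF F ∧ ∀ t : ℝ, F (shear P R (x0 + t * D, t)) = 0 := by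
  refine ⟨fun z => (z.1 - R.eval z.2) - x0 - (z.2 - P.eval (z.1 - R.eval z.2)) * D,
    ⟨fun A B => ⟨(A - R.comp B) - C x0 - (B - P.comp (A - R.comp B)) * C D, fun t => ?_⟩,
      fun y => ?_⟩, fun t => ?_⟩
  · simp [eval_comp]
  · have hfin := finite_line P hP x0 D y hD
    refine (hfin.preimage (f := fun x => x - R.eval y)
      (fun x _ x' _ h => by simpa using h)).subset fun x hx => ?_
    simp only [Set.mem_ofPred_eq, Set.mem_preimage] at hx ⊢
    linarith
  · simp [shear]

/-- A good function which does not vanish at one point of the curve `t ↦ shear P R (x0 + t D, t)` has finitely many zeros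
on it. -/
theorem GoodF.finite_zeros {F : ℝ × ℝ → ℝ} (hF : GoodF F) (P R : ℝ[X]) (x0 D t0 : ℝ)
    (h : F (shear P R (x0 + t0 * D, t0)) ≠ 0) :
    {t : ℝ | F (shear P R (x0 + t * D, t)) = 0}.Finite := by
  set S : ℝ[X] := C x0 + X * C D with hS
  set B : ℝ[X] := X + P.comp S with hB
  set A : ℝ[X] := S + R.comp B with hA
  obtain ⟨Q, hQ⟩ := hF.1 A B
  have key : ∀ t : ℝ, F (shear P R (x0 + t * D, t)) = Q.eval t := by
    intro t
    rw [← hQ t]
    congr 1
    have e1 : S.eval t = x0 + t * D := by simp [hS]; ring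
    have e2 : B.eval t = t + P.eval (x0 + t * D) := by rw [hB, eval_add, eval_comp, e1, eval_X]
    have e3 : A.eval t = x0 + t * D + R.eval (t + P.eval (x0 + t * D)) := by
      rw [hA, eval_add, eval_comp, e1, e2]
    rw [e2, e3]
    rfl
  have hQ0 : Q ≠ 0 := by
    rintro rfl
    exact h (by rw [key]; simp)
  refine (b2_finite_roots Q hQ0).subset fun t ht => ?_
  simp only [Set.mem_ofPred_eq] at ht ⊢
  rw [← key, ht]

end QP
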