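import Pool.Agent.H6.QP.B1
import Pool.Agent.H6.QP.B2

/-! # Module B3: the bad parameters are finite in number

`P = P0 + l * node lx`, `R = R0 + m * node idx`, `P0 (lx v) = idx v - ly v`, `R0 (idx v) = - lx v`. -/

set_option autoImplicit false

namespace QP
open Polynomial

variable {V : Type} [Fintype V]

omit [Fintype V] in
theorem B3_ly_int (par : V → Option V) (v : V) : ∃ k : ℤ, ly par v = k := by
  unfold ly
  cases par v with
  | none => exact ⟨0, by simp⟩
  | some u => exact ⟨1, by simp⟩

/-- `z = (z1, idx w)`, not a vertex.  If the curve of the leaf `v` passes through `z` at the parameter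
`t ∈ (0,1)` and `x = lx u + t (lx v - lx u)` then `x = z1 - R (idx w) = z1 + lx w` does not depend on `m`, and `P x = idx w - t`.
If `node lx` vanishes at `x`, `x = lx w'`, then `P x = idx w' - ly w'` is an integer, contradiction.
Otherwise `l` is determined (`t` is determined by `x`). -/
theorem bad_l_point (n : ℕ) (idx : V → ℕ) (hidx : Function.Injective idx) (hn : ∀ v, idx v < n)
    (par : V → Option V) (hstar : ∀ v u, par v = some u → par u = none) (P0 R0 : ℝ[X])
    (hP : ∀ v, P0.eval (lx n idx par v) = idx v - ly par v)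
    (hR : ∀ v, R0.eval (idx v : ℝ) = - lx n idx par v) (z : ℝ × ℝ) (w : V) (hw : z.2 = idx w)
    (hz : z ≠ (0, (idx w : ℝ))) (v u : V) (h : par v = some u) :
    {l : ℝ | ∃ t ∈ Set.Ioo (0 : ℝ) 1, ∃ m : ℝ,
      shear (P0 + C l * node (lx n idx par)) (R0 + C m * node (fun v => (idx v : ℝ)))
        (seg n idx par v u t) = z}.Finite := by
  have hu := hstar v u h
  have hD := lx_sub n idx par v u h hu
  have hDpos : (0 : ℝ) < lx n idx par v - lx n idx par u := by
    rw [hD]
    positivity
  set D : ℝ := lx n idx par v - lx n idx par u with hDdef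
  set x0 : ℝ := z.1 + lx n idx par w with hx0
  set t0 : ℝ := (x0 - lx n idx par u) / D with ht0
  refine (Set.finite_singleton ((idx w - t0 - P0.eval x0) / (node (lx n idx par)).eval x0)).subset ?_
  rintro l ⟨t, ht, m, hs⟩
  have h1 := congrArg Prod.fst hs
  have h2 := congrArg Prod.snd hs
  simp only [shear, seg, ← hDdef] at h1 h2
  rw [h2, hw] at h1
  have hnode : (node (fun v => (idx v : ℝ))).eval (idx w : ℝ) = 0 :=
    (node_eval_eq_zero _ _).2 ⟨w, rfl⟩
  rw [eval_add, eval_mul, eval_C, hnode, mul_zero, add_zero, hR] at h1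
  have hx : lx n idx par u + t * D = x0 := by
    rw [hx0]
    linarith
  rw [hx, hw, eval_add, eval_mul, eval_C] at h2
  have htt : t = t0 := by
    rw [ht0, ← hx]
    field_simp
    ring
  by_cases hN : (node (lx n idx par)).eval x0 = 0
  · exfalso
    obtain ⟨w', hw'⟩ := (node_eval_eq_zero _ _).1 hN
    rw [hN, mul_zero, add_zero, hw', hP] at h2
    obtain ⟨k, hk⟩ := B3_ly_int par w'
    rw [hk] at h2
    have h3 : t = (((idx w : ℤ) - (idx w' : ℤ) + k : ℤ) : ℝ) := by
      push_cast
      linarith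
    have h4 := ht.1
    have h5 := ht.2
    rw [h3] at h4 h5
    have h6 : (0 : ℤ) < (idx w : ℤ) - (idx w' : ℤ) + k := by exact_mod_cast h4
    have h7 : (idx w : ℤ) - (idx w' : ℤ) + k < 1 := by exact_mod_cast h5
    omega
  · rw [Set.mem_singleton_iff, eq_div_iff hN, ← htt]
    linarith

/-- `z.2` is not one of the `idx w`: `x = z.1 - R z.2` is an injective affine function of `m`, and
`x` is a solution of `x = lx u + (z.2 - P x) (lx v - lx u)` (`finite_line`). -/
theorem bad_m_point (n : ℕ) (idx : V → ℕ) (hidx : Function.Injective idx) (hn : ∀ v, idx v < n)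
    (par : V → Option V) (hstar : ∀ v u, par v = some u → par u = none) (P R0 : ℝ[X])
    (hP : 2 ≤ P.natDegree) (z : ℝ × ℝ) (hz : ∀ w, z.2 ≠ idx w) (v u : V) (h : par v = some u) :
    {m : ℝ | ∃ t ∈ Set.Ioo (0 : ℝ) 1,
      shear P (R0 + C m * node (fun v => (idx v : ℝ))) (seg n idx par v u t) = z}.Finite := by
  have hu := hstar v u h
  have hD := lx_sub n idx par v u h hu
  have hDpos : (0 : ℝ) < lx n idx par v - lx n idx par u := by
    rw [hD]
    positivity
  set D : ℝ := lx n idx par v - lx n idx par u with hDdef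
  have hN : (node (fun v => (idx v : ℝ))).eval z.2 ≠ 0 := by
    intro h0
    obtain ⟨w, hw⟩ := (node_eval_eq_zero _ _).1 h0
    exact hz w hw
  refine ((finite_line P hP (lx n idx par u) D z.2 hDpos.ne').image
    (fun x => (z.1 - x - R0.eval z.2) / (node (fun v => (idx v : ℝ))).eval z.2)).subset ?_
  rintro m ⟨t, ht, hs⟩
  have h1 := congrArg Prod.fst hs
  have h2 := congrArg Prod.snd hs
  simp only [shear, seg, ← hDdef] at h1 h2
  rw [h2, eval_add, eval_mul, eval_C] at h1
  refine ⟨lx n idx par u + t * D, ?_, ?_⟩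
  · show lx n idx par u + t * D = lx n idx par u + (z.2 - P.eval (lx n idx par u + t * D)) * D
    rw [← h2]
    ring
  · show (z.1 - (lx n idx par u + t * D) - R0.eval z.2) /
      (node (fun v => (idx v : ℝ))).eval z.2 = m
    rw [div_eq_iff hN]
    linarith

/-- At the parameter `t0 = 1/(n+1)` the abscissa `lx u + t0 (idx v + 1)` is not an integer, so not a zero of
`node lx`, and the ordinate is an injective affine function of `l`. -/
theorem bad_l_curve (n : ℕ) (idx : V → ℕ) (hidx : Function.Injective idx) (hn : ∀ v, idx v < n)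
    (par : V → Option V) (hstar : ∀ v u, par v = some u → par u = none) (P0 : ℝ[X])
    (v u : V) (h : par v = some u) :
    {l : ℝ | ∃ w : V, (1 / ((n : ℝ) + 1)) + (P0 + C l * node (lx n idx par)).eval
      (seg n idx par v u (1 / ((n : ℝ) + 1))).1 = idx w}.Finite := by
  have hu := hstar v u h
  have hD := lx_sub n idx par v u h hu
  set x0 : ℝ := (seg n idx par v u (1 / ((n : ℝ) + 1))).1 with hx0
  have hx : x0 = lx n idx par u + (1 / ((n : ℝ) + 1)) * (idx v + 1) := by
    rw [hx0]
    simp only [seg]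
    rw [hD]
  have hN : (node (lx n idx par)).eval x0 ≠ 0 := by
    intro h0
    obtain ⟨w, hw⟩ := (node_eval_eq_zero _ _).1 h0
    obtain ⟨a, ha⟩ := lx_int n idx par u
    obtain ⟨b, hb⟩ := lx_int n idx par w
    rw [hx, ha, hb] at hw
    have hn1 : (0 : ℝ) < (n : ℝ) + 1 := by positivity
    have h1 : (idx v : ℝ) + 1 = ((b : ℝ) - a) * ((n : ℝ) + 1) := by
      have h2 : (1 / ((n : ℝ) + 1)) * (idx v + 1) = (b : ℝ) - a := by linarith
      rw [← h2]
      field_simp
    have h3 : (idx v : ℤ) + 1 = ((b : ℤ) - a) * ((n : ℤ) + 1) := by exact_mod_cast h1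
    have h4 : (idx v : ℤ) < n := by exact_mod_cast hn v
    have h5 : (0 : ℤ) ≤ idx v := Int.natCast_nonneg _
    have h6 : (0 : ℤ) < (b : ℤ) - a := by
      by_contra hcon
      push Not at hcon
      have : ((b : ℤ) - a) * ((n : ℤ) + 1) ≤ 0 :=
        mul_nonpos_of_nonpos_of_nonneg hcon (by positivity)
      omega
    have h7 : ((n : ℤ) + 1) ≤ ((b : ℤ) - a) * ((n : ℤ) + 1) := by
      have h8 : (1 : ℤ) ≤ (b : ℤ) - a := h6
      nlinarith
    omega
  refine (Set.finite_range (fun w : V =>
    ((idx w : ℝ) - 1 / ((n : ℝ) + 1) - P0.eval x0) / (node (lx n idx par)).eval x0)).subset ?_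
  rintro l ⟨w, hw⟩
  refine ⟨w, ?_⟩
  rw [eval_add, eval_mul, eval_C] at hw
  show ((idx w : ℝ) - 1 / ((n : ℝ) + 1) - P0.eval x0) / (node (lx n idx par)).eval x0 = l
  rw [div_eq_iff hN]
  linarith

/-- If the ordinate at `t0` is none of the `idx w` then the abscissa of the image point is an injective affine
function of `m`, and `F` has finitely many zeros on the horizontal line. -/
theorem bad_m_curve (n : ℕ) (idx : V → ℕ) (hidx : Function.Injective idx)
    (par : V → Option V) (P R0 : ℝ[X]) (v u : V) (F : ℝ × ℝ → ℝ) (hF : GoodF F)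
    (hy : ∀ w : V, (1 / ((n : ℝ) + 1)) + P.eval (seg n idx par v u (1 / ((n : ℝ) + 1))).1 ≠ idx w) :
    {m : ℝ | F (shear P (R0 + C m * node (fun v => (idx v : ℝ)))
      (seg n idx par v u (1 / ((n : ℝ) + 1)))) = 0}.Finite := by
  set x0 : ℝ := (seg n idx par v u (1 / ((n : ℝ) + 1))).1 with hx0
  set y0 : ℝ := (1 / ((n : ℝ) + 1)) + P.eval x0 with hy0
  have hN : (node (fun v => (idx v : ℝ))).eval y0 ≠ 0 := by
    intro h0
    obtain ⟨w, hw⟩ := (node_eval_eq_zero _ _).1 h0
    exact hy w hw
  refine ((hF.2 y0).preimage (f := fun m : ℝ =>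
    x0 + (R0.eval y0 + m * (node (fun v => (idx v : ℝ))).eval y0)) ?_).subset ?_
  · intro a _ b _ hab
    have h1 : a * (node (fun v => (idx v : ℝ))).eval y0 =
        b * (node (fun v => (idx v : ℝ))).eval y0 := by
      have h2 : x0 + (R0.eval y0 + a * (node (fun v => (idx v : ℝ))).eval y0) =
        x0 + (R0.eval y0 + b * (node (fun v => (idx v : ℝ))).eval y0) := hab
      linarith
    exact mul_right_cancel₀ hN h1
  · intro m hm
    have h1 : shear P (R0 + C m * node (fun v => (idx v : ℝ)))
        (seg n idx par v u (1 / ((n : ℝ) + 1))) =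
        (x0 + (R0.eval y0 + m * (node (fun v => (idx v : ℝ))).eval y0), y0) := by
      have h2 : seg n idx par v u (1 / ((n : ℝ) + 1)) = (x0, 1 / ((n : ℝ) + 1)) := rfl
      rw [h2]
      simp only [shear]
      rw [← hy0, eval_add, eval_mul, eval_C]
    have h3 : F (shear P (R0 + C m * node (fun v => (idx v : ℝ)))
      (seg n idx par v u (1 / ((n : ℝ) + 1)))) = 0 := hm
    rw [h1] at h3
    exact h3

end QP
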