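import Pool.Agent.H6.QP.B3

/-! # Module B4: drawing one star forest generically -/

set_option autoImplicit false

namespace QP
open Polynomial

theorem b4_eval_node {V : Type} [Fintype V] (a : V → ℝ) (P : ℝ[X]) (l : ℝ) (v : V) :
    (P + C l * node a).eval (a v) = P.eval (a v) := by
  rw [eval_add, eval_mul, eval_C, (node_eval_eq_zero a (a v)).2 ⟨v, rfl⟩, mul_zero, add_zero]

theorem b4_exists {S : Set ℝ} (hS : S.Finite) : ∃ x, x ∉ S := by
  obtain ⟨x, hx⟩ := (Set.infinite_univ (α := ℝ)).exists_notMem_finite hS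
  exact ⟨x, hx.2⟩

/-- the parameters of the shears -/
theorem b4_params {V : Type} [Fintype V] (n : ℕ) (idx : V → ℕ) (hidx : Function.Injective idx)
    (hn : ∀ v, idx v < n) (par : V → Option V)
    (hstar : ∀ v u, par v = some u → par u = none) (Z : Set (ℝ × ℝ)) (hZ : Z.Finite)
    (hZ0 : ∀ z ∈ Z, ∀ v, z ≠ (0, (idx v : ℝ))) (Fs : Set (ℝ × ℝ → ℝ)) (hFs : Fs.Finite)
    (hgood : ∀ F ∈ Fs, GoodF F) (hcard : 2 ≤ Fintype.card V) :
    ∃ P R : ℝ[X], 2 ≤ P.natDegree ∧ (∀ v, P.eval (lx n idx par v) = idx v - ly par v) ∧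
      (∀ v, R.eval (idx v : ℝ) = - lx n idx par v) ∧
      (∀ v u, par v = some u → ∀ t ∈ Set.Ioo (0 : ℝ) 1, shear P R (seg n idx par v u t) ∉ Z) ∧
      (∀ v u, par v = some u → ∀ F ∈ Fs,
        F (shear P R (seg n idx par v u (1 / ((n : ℝ) + 1)))) ≠ 0) := by
  have hlx : Function.Injective (lx n idx par) := lx_injective n idx hidx hn par
  have hidx' : Function.Injective (fun v => (idx v : ℝ)) := fun v w h => hidx (Nat.cast_injective h)
  obtain ⟨P0, hP0, hP0'⟩ := exists_interp (lx n idx par) (fun v => (idx v : ℝ) - ly par v) hlx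
  obtain ⟨R0, hR0, hR0'⟩ := exists_interp (fun v => (idx v : ℝ)) (fun v => - lx n idx par v) hidx'
  -- the bad values of `l`
  let T1 : (ℝ × ℝ) → V → V → V → Set ℝ := fun z w v u =>
    {l : ℝ | (z.2 = idx w ∧ z ≠ (0, (idx w : ℝ)) ∧ par v = some u) ∧
      ∃ t ∈ Set.Ioo (0 : ℝ) 1, ∃ m : ℝ,
      shear (P0 + C l * node (lx n idx par)) (R0 + C m * node (fun v => (idx v : ℝ)))
        (seg n idx par v u t) = z}
  have hT1 : ∀ z w v u, (T1 z w v u).Finite := by
    intro z w v u
    by_cases hc : z.2 = idx w ∧ z ≠ (0, (idx w : ℝ)) ∧ par v = some u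
    · exact (bad_l_point n idx hidx hn par hstar P0 R0 hP0' hR0' z w hc.1 hc.2.1 v u
        hc.2.2).subset fun l hl => hl.2
    · exact Set.finite_empty.subset fun l hl => hc hl.1
  let T2 : V → V → Set ℝ := fun v u =>
    {l : ℝ | par v = some u ∧ ∃ w : V, (1 / ((n : ℝ) + 1)) +
      (P0 + C l * node (lx n idx par)).eval (seg n idx par v u (1 / ((n : ℝ) + 1))).1 = idx w}
  have hT2 : ∀ v u, (T2 v u).Finite := by
    intro v u
    by_cases hc : par v = some u
    · exact (bad_l_curve n idx hidx hn par hstar P0 v u hc).subset fun l hl => hl.2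
    · exact Set.finite_empty.subset fun l hl => hc hl.1
  have hbl : (({0} : Set ℝ) ∪ ((⋃ z ∈ Z, ⋃ w, ⋃ v, ⋃ u, T1 z w v u) ∪
      (⋃ v, ⋃ u, T2 v u))).Finite := by
    refine (Set.finite_singleton 0).union (Set.Finite.union ?_ ?_)
    · exact hZ.biUnion fun z _ => Set.finite_iUnion fun w => Set.finite_iUnion fun v =>
        Set.finite_iUnion fun u => hT1 z w v u
    · exact Set.finite_iUnion fun v => Set.finite_iUnion fun u => hT2 v u
  obtain ⟨l, hl⟩ := b4_exists hbl
  simp only [Set.mem_union, Set.mem_singleton_iff, Set.mem_iUnion, not_or, not_exists] at hl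
  obtain ⟨hl0, hl1, hl2⟩ := hl
  let P : ℝ[X] := P0 + C l * node (lx n idx par)
  have hPdeg : 2 ≤ P.natDegree := by
    rw [natDegree_interp (lx n idx par) P0 hP0 l hl0]
    exact hcard
  -- the bad values of `m`
  let T3 : (ℝ × ℝ) → V → V → Set ℝ := fun z v u =>
    {m : ℝ | ((∀ w, z.2 ≠ idx w) ∧ par v = some u) ∧ ∃ t ∈ Set.Ioo (0 : ℝ) 1,
      shear P (R0 + C m * node (fun v => (idx v : ℝ))) (seg n idx par v u t) = z}
  have hT3 : ∀ z v u, (T3 z v u).Finite := by
    intro z v u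
    by_cases hc : (∀ w, z.2 ≠ idx w) ∧ par v = some u
    · exact (bad_m_point n idx hidx hn par hstar P R0 hPdeg z hc.1 v u hc.2).subset
        fun m hm => hm.2
    · exact Set.finite_empty.subset fun m hm => hc hm.1
  let T4 : (ℝ × ℝ → ℝ) → V → V → Set ℝ := fun F v u =>
    {m : ℝ | par v = some u ∧ F (shear P (R0 + C m * node (fun v => (idx v : ℝ)))
      (seg n idx par v u (1 / ((n : ℝ) + 1)))) = 0}
  have hT4 : ∀ F ∈ Fs, ∀ v u, (T4 F v u).Finite := by
    intro F hF v u
    by_cases hc : par v = some u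
    · refine (bad_m_curve n idx hidx par P R0 v u F (hgood F hF) ?_).subset fun m hm => hm.2
      intro w hw
      exact hl2 v u ⟨hc, w, hw⟩
    · exact Set.finite_empty.subset fun m hm => hc hm.1
  have hbm : ((⋃ z ∈ Z, ⋃ v, ⋃ u, T3 z v u) ∪ (⋃ F ∈ Fs, ⋃ v, ⋃ u, T4 F v u)).Finite := by
    refine Set.Finite.union ?_ ?_
    · exact hZ.biUnion fun z _ => Set.finite_iUnion fun v => Set.finite_iUnion fun u => hT3 z v u
    · exact hFs.biUnion fun F hF => Set.finite_iUnion fun v => Set.finite_iUnion fun u =>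
        hT4 F hF v u
  obtain ⟨m, hm⟩ := b4_exists hbm
  simp only [Set.mem_union, Set.mem_iUnion, not_or, not_exists] at hm
  obtain ⟨hm1, hm2⟩ := hm
  refine ⟨P, R0 + C m * node (fun v => (idx v : ℝ)), hPdeg, ?_, ?_, ?_, ?_⟩
  · intro v
    exact (b4_eval_node (lx n idx par) P0 l v).trans (hP0' v)
  · intro v
    exact (b4_eval_node (fun v => (idx v : ℝ)) R0 m v).trans (hR0' v)
  · intro v u h t ht hz
    by_cases hc : ∃ w, (shear P (R0 + C m * node (fun v => (idx v : ℝ)))
        (seg n idx par v u t)).2 = idx w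
    · obtain ⟨w, hw⟩ := hc
      exact hl1 _ hz w v u ⟨⟨hw, hZ0 _ hz w, h⟩, t, ht, m, rfl⟩
    · push Not at hc
      exact hm1 _ hz v u ⟨⟨hc, h⟩, t, ht, rfl⟩
  · intro v u h F hF h0
    exact hm2 F hF v u ⟨h, h0⟩

/-- Choose `P0`, `R0` by `exists_interp`, then `l ≠ 0` outside the finite sets of `bad_l_point` (for all
`z ∈ Z` with `z.2 = idx w`) and `bad_l_curve`, then `m` outside the finite sets of `bad_m_point` and
`bad_m_curve`.  `γ v t = shear P R (seg v u t)` for `par v = some u`.  If there is a leaf then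
`card V ≥ 2`, so `P.natDegree ≥ 2`. -/
theorem ext_class {V : Type} [Finite V] (n : ℕ) (idx : V → ℕ) (hidx : Function.Injective idx)
    (hn : ∀ v, idx v < n) (par : V → Option V)
    (hstar : ∀ v u, par v = some u → par u = none) (Z : Set (ℝ × ℝ)) (hZ : Z.Finite)
    (hZ0 : ∀ z ∈ Z, ∀ v, z ≠ (0, (idx v : ℝ))) (Fs : Set (ℝ × ℝ → ℝ)) (hFs : Fs.Finite)
    (hgood : ∀ F ∈ Fs, GoodF F) :
    ∃ γ : V → ℝ → ℝ × ℝ, ∀ v u, par v = some u →
      Continuous (γ v) ∧ Function.Injective (γ v) ∧ γ v 0 = (0, (idx u : ℝ)) ∧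
      γ v 1 = (0, (idx v : ℝ)) ∧ (∀ t ∈ Set.Ioo (0 : ℝ) 1, ∀ w, γ v t ≠ (0, (idx w : ℝ))) ∧
      (∀ v' u', par v' = some u' → v ≠ v' → ∀ t ∈ Set.Ioo (0 : ℝ) 1, ∀ t' ∈ Set.Icc (0 : ℝ) 1,
        γ v t ≠ γ v' t') ∧
      (∀ t ∈ Set.Ioo (0 : ℝ) 1, γ v t ∉ Z) ∧
      (∀ F ∈ Fs, {t : ℝ | F (γ v t) = 0}.Finite) ∧
      ∃ F, GoodF F ∧ ∀ t, F (γ v t) = 0 := by
  classical
  have : Fintype V := Fintype.ofFinite V
  by_cases hleaf : ∃ v u, par v = some u
  swap
  · push Not at hleaf
    exact ⟨fun _ _ => (0, 0), fun v u h => absurd h (hleaf v u)⟩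
  have hcard : 2 ≤ Fintype.card V := by
    obtain ⟨v, u, h⟩ := hleaf
    have hne : v ≠ u := by
      rintro rfl
      rw [hstar v v h] at h
      exact absurd h (by simp)
    exact Fintype.one_lt_card_iff.2 ⟨v, u, hne⟩
  obtain ⟨P, R, hdeg, hP, hR, hZZ, hFF⟩ := b4_params n idx hidx hn par hstar Z hZ hZ0 Fs hFs
    hgood hcard
  let γ : V → ℝ → ℝ × ℝ := fun v t =>
    match par v with
    | some u => shear P R (seg n idx par v u t)
    | none => (0, 0)
  have hγ : ∀ v u, par v = some u → ∀ t, γ v t = shear P R (seg n idx par v u t) := by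
    intro v u h t
    show (match par v with
      | some u => shear P R (seg n idx par v u t)
      | none => (0, 0)) = _
    rw [h]
  have hver : ∀ w, shear P R (lx n idx par w, ly par w) = (0, (idx w : ℝ)) := fun w =>
    shear_vertex n idx par P R w (hP w) (hR w)
  refine ⟨γ, fun v u h => ⟨?_, ?_, ?_, ?_, ?_, ?_, ?_, ?_, ?_⟩⟩
  · have h1 : γ v = fun t => shear P R (seg n idx par v u t) := funext (hγ v u h)
    rw [h1]
    refine (continuous_shear P R).comp ?_
    unfold seg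
    fun_prop
  · intro t t' htt
    rw [hγ v u h, hγ v u h] at htt
    exact congrArg Prod.snd (shear_injective P R htt)
  · rw [hγ v u h, seg_zero n idx par v u (hstar v u h), hver]
  · rw [hγ v u h, seg_one n idx par v u h, hver]
  · intro t ht w hw
    rw [hγ v u h, ← hver w] at hw
    exact seg_ne_vertex n idx par v u w t ht (shear_injective P R hw)
  · intro v' u' h' hne t ht t' ht' heq
    rw [hγ v u h, hγ v' u' h'] at heq
    exact seg_ne_seg n idx hidx hn par hstar v u v' u' h h' hne t t' ht ht'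
      (shear_injective P R heq)
  · intro t ht
    rw [hγ v u h]
    exact hZZ v u h t ht
  · intro F hF
    have h1 := (hgood F hF).finite_zeros P R (lx n idx par u)
      (lx n idx par v - lx n idx par u) (1 / ((n : ℝ) + 1)) (hFF v u h F hF)
    refine h1.subset fun t ht => ?_
    have h2 : F (γ v t) = 0 := ht
    rw [hγ v u h] at h2
    exact h2
  · have hD : lx n idx par v - lx n idx par u ≠ 0 := by
      rw [lx_sub n idx par v u h (hstar v u h)]
      positivity
    obtain ⟨F, hF, hF'⟩ := goodF_line P R hdeg (lx n idx par u)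
      (lx n idx par v - lx n idx par u) hD
    refine ⟨F, hF, fun t => ?_⟩
    rw [hγ v u h]
    exact hF' t

end QP
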