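import Pool.Agent.H6.QP.B4

/-! # Module B5: drawing all star forests -/

set_option autoImplicit false

namespace QP

/-- The common points, other than vertices, of the curves of two different classes before `N`. -/
def B5_Z {V : Type} (idx : V → ℕ) (par : ℕ → V → Option V) (N : ℕ)
    (γ : ℕ → V → ℝ → ℝ × ℝ) : Set (ℝ × ℝ) :=
  {z | (∀ w, z ≠ (0, (idx w : ℝ))) ∧ ∃ c c' v u v' u', c < c' ∧ c' < N ∧ par c v = some u ∧
    par c' v' = some u' ∧ z ∈ γ c v '' Set.Icc 0 1 ∩ γ c' v' '' Set.Icc 0 1}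

lemma B5_Z_finite {V : Type} [Finite V] (idx : V → ℕ) (par : ℕ → V → Option V) (N : ℕ)
    (γ : ℕ → V → ℝ → ℝ × ℝ)
    (h2 : ∀ c c', c < c' → c' < N → ∀ v u v' u', par c v = some u → par c' v' = some u' →
        (γ c v '' Set.Icc 0 1 ∩ γ c' v' '' Set.Icc 0 1).Finite) :
    (B5_Z idx par N γ).Finite := by
  have hsub : B5_Z idx par N γ ⊆ ⋃ p ∈ {p : (ℕ × ℕ) × (V × V) | (p.1.1 < N ∧ p.1.2 < N) ∧
      (γ p.1.1 p.2.1 '' Set.Icc 0 1 ∩ γ p.1.2 p.2.2 '' Set.Icc 0 1).Finite},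
      (γ p.1.1 p.2.1 '' Set.Icc 0 1 ∩ γ p.1.2 p.2.2 '' Set.Icc 0 1) := by
    rintro z ⟨-, c, c', v, u, v', u', hc, hc', hv, hv', hz⟩
    refine Set.mem_biUnion (x := ((c, c'), (v, v'))) ?_ hz
    exact ⟨⟨lt_trans hc hc', hc'⟩, h2 c c' hc hc' v u v' u' hv hv'⟩
  refine Set.Finite.subset (Set.Finite.biUnion ?_ ?_) hsub
  · have hfin : (((Set.Iio N ×ˢ Set.Iio N) ×ˢ (Set.univ : Set (V × V))) :
        Set ((ℕ × ℕ) × (V × V))).Finite :=
      ((Set.finite_Iio N).prod (Set.finite_Iio N)).prod Set.finite_univ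
    refine hfin.subset ?_
    rintro ⟨⟨c, c'⟩, ⟨v, v'⟩⟩ ⟨⟨h1, h3⟩, -⟩
    exact ⟨⟨h1, h3⟩, trivial⟩
  · rintro p ⟨-, hp⟩
    exact hp

/-- Induction on `N`; in the step apply `ext_class` to the class `N` with `Z` the set of the common
points, other than vertices, of the curves of two different earlier classes, and `Fs` one good function for
every earlier curve. -/
theorem all_classes {V : Type} [Finite V] (n : ℕ) (idx : V → ℕ) (hidx : Function.Injective idx)
    (hn : ∀ v, idx v < n) (par : ℕ → V → Option V)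
    (hstar : ∀ c v u, par c v = some u → par c u = none) (N : ℕ) :
    ∃ γ : ℕ → V → ℝ → ℝ × ℝ,
      (∀ c, c < N → ∀ v u, par c v = some u →
        Continuous (γ c v) ∧ Function.Injective (γ c v) ∧ γ c v 0 = (0, (idx u : ℝ)) ∧
        γ c v 1 = (0, (idx v : ℝ)) ∧
        (∀ t ∈ Set.Ioo (0 : ℝ) 1, ∀ w, γ c v t ≠ (0, (idx w : ℝ))) ∧
        (∀ v' u', par c v' = some u' → v ≠ v' → ∀ t ∈ Set.Ioo (0 : ℝ) 1,
          ∀ t' ∈ Set.Icc (0 : ℝ) 1, γ c v t ≠ γ c v' t') ∧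
        ∃ F, GoodF F ∧ ∀ t, F (γ c v t) = 0) ∧
      (∀ c c', c < c' → c' < N → ∀ v u v' u', par c v = some u → par c' v' = some u' →
        (γ c v '' Set.Icc 0 1 ∩ γ c' v' '' Set.Icc 0 1).Finite) ∧
      (∀ c c' c'', c < c' → c' < c'' → c'' < N → ∀ v u v' u' v'' u'', par c v = some u →
        par c' v' = some u' → par c'' v'' = some u'' →
        γ c v '' Set.Ioo 0 1 ∩ γ c' v' '' Set.Ioo 0 1 ∩ γ c'' v'' '' Set.Ioo 0 1 = ∅) := by
  induction N with
  | zero =>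
    refine ⟨fun _ _ _ => 0, ?_, ?_, ?_⟩
    · intro c hc; exact absurd hc (Nat.not_lt_zero c)
    · intro c c' _ hc; exact absurd hc (Nat.not_lt_zero c')
    · intro c c' c'' _ _ hc; exact absurd hc (Nat.not_lt_zero c'')
  | succ N ih =>
    obtain ⟨γ, h1, h2, h3⟩ := ih
    have hF : ∀ c v, ∃ F : ℝ × ℝ → ℝ, c < N → ∀ u, par c v = some u →
        GoodF F ∧ ∀ t, F (γ c v t) = 0 := by
      intro c v
      by_cases hcv : c < N ∧ ∃ u, par c v = some u
      · obtain ⟨hc, u, hu⟩ := hcv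
        obtain ⟨-, -, -, -, -, -, F, hG, hz⟩ := h1 c hc v u hu
        exact ⟨F, fun _ _ _ => ⟨hG, hz⟩⟩
      · refine ⟨fun _ => 0, fun hc u hu => absurd ⟨hc, u, hu⟩ hcv⟩
    choose F hF using hF
    let Fs : Set (ℝ × ℝ → ℝ) := {G | ∃ c v u, c < N ∧ par c v = some u ∧ G = F c v}
    have hFsfin : Fs.Finite := by
      have hfin : (((Set.Iio N) ×ˢ (Set.univ : Set V)) : Set (ℕ × V)).Finite :=
        (Set.finite_Iio N).prod Set.finite_univ
      refine (hfin.image (fun p : ℕ × V => F p.1 p.2)).subset ?_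
      rintro G ⟨c, v, u, hc, hu, rfl⟩
      exact ⟨(c, v), ⟨hc, trivial⟩, rfl⟩
    have hFsgood : ∀ G ∈ Fs, GoodF G := by
      rintro G ⟨c, v, u, hc, hu, rfl⟩
      exact (hF c v hc u hu).1
    obtain ⟨δ, hδ⟩ := ext_class n idx hidx hn (par N) (hstar N) (B5_Z idx par N γ)
      (B5_Z_finite idx par N γ h2) (fun z hz v => hz.1 v) Fs hFsfin hFsgood
    refine ⟨fun c v => if c < N then γ c v else δ v, ?_, ?_, ?_⟩
    · intro c hc v u hu
      rcases Nat.lt_succ_iff_lt_or_eq.mp hc with hc | rfl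
      · have := h1 c hc v u hu
        simpa only [hc, if_true] using this
      · obtain ⟨a1, a2, a3, a4, a5, a6, -, -, a9⟩ := hδ v u hu
        simp only [lt_irrefl, if_false]
        exact ⟨a1, a2, a3, a4, a5, a6, a9⟩
    · intro c c' hcc hc' v u v' u' hu hu'
      rcases Nat.lt_succ_iff_lt_or_eq.mp hc' with hc' | rfl
      · have := h2 c c' hcc hc' v u v' u' hu hu'
        simpa only [hc', lt_trans hcc hc', if_true] using this
      · simp only [lt_irrefl, if_false, hcc, if_true]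
        obtain ⟨-, -, -, -, -, -, -, a8, -⟩ := hδ v' u' hu'
        have hfin := a8 (F c v) ⟨c, v, u, hcc, hu, rfl⟩
        refine (hfin.image (δ v')).subset ?_
        rintro z ⟨⟨s, -, hs⟩, ⟨t, -, ht⟩⟩
        refine ⟨t, ?_, ht⟩
        change F c v (δ v' t) = 0
        have ht' : δ v' t = z := ht
        have hs' : γ c v s = z := hs
        rw [ht', ← hs']
        exact (hF c v hcc u hu).2 s
    · intro c c' c'' hcc hcc' hc'' v u v' u' v'' u'' hu hu' hu''
      rcases Nat.lt_succ_iff_lt_or_eq.mp hc'' with hc'' | rfl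
      · have := h3 c c' c'' hcc hcc' hc'' v u v' u' v'' u'' hu hu' hu''
        have e1 : c' < N := lt_trans hcc' hc''
        simpa only [hc'', e1, lt_trans hcc e1, if_true] using this
      · simp only [lt_irrefl, if_false, hcc', lt_trans hcc hcc', if_true]
        obtain ⟨-, -, -, -, a5, -, a7, -, -⟩ := hδ v'' u'' hu''
        rw [Set.eq_empty_iff_forall_notMem]
        rintro z ⟨⟨⟨s, hs, hsz⟩, ⟨t, ht, htz⟩⟩, ⟨r, hr, hrz⟩⟩
        have hrz' : δ v'' r = z := hrz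
        refine a7 r hr ?_
        rw [hrz']
        refine ⟨fun w hw => a5 r hr w (hrz.trans hw), c, c', v, u, v', u', hcc, hcc', hu, hu', ?_⟩
        exact ⟨⟨s, Set.Ioo_subset_Icc_self hs, hsz⟩, ⟨t, Set.Ioo_subset_Icc_self ht, htz⟩⟩

end QP
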