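import Pool.Agent.H6.QP.Defs
import Pool.Agent.H6.QP.B5

/-! # Module B6: the drawing -/

set_option autoImplicit false

namespace QP

/-- `pos v = (0, idx v)`, the curve of the edge `s(v,u)` with `par c v = some u` is `γ c v` reversed or not. -/
theorem exists_drawing {V : Type} [Finite V] (G : SimpleGraph V) (N : ℕ)
    (par : Fin N → V → Option V)
    (h1 : ∀ c v u, par c v = some u → par c u = none ∧ G.Adj v u)
    (h2 : ∀ v u, G.Adj v u → ∃ c, par c v = some u ∨ par c u = some v)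
    (h3 : ∀ c v u c' v' u', par c v = some u → par c' v' = some u' → s(v, u) = s(v', u') →
        c = c' ∧ v = v') :
    ∃ D : Drawing G, ∀ c v u v' u', par c v = some u → par c v' = some u' →
      ¬ D.Cross s(v, u) s(v', u') := by
  classical
  let ε := Finite.equivFin V
  let idx : V → ℕ := fun v => (ε v : ℕ)
  have hidx : Function.Injective idx := fun v w h => ε.injective (Fin.ext h)
  have hn : ∀ v, idx v < Nat.card V := fun v => (ε v).2
  let par' : ℕ → V → Option V := fun c v => if h : c < N then par ⟨c, h⟩ v else none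
  have hpar : ∀ (c : Fin N) v, par' c v = par c v := fun c v => dif_pos c.2
  have hstar : ∀ c v u, par' c v = some u → par' c u = none := by
    intro c v u h
    by_cases hc : c < N
    · simp only [par', dif_pos hc] at h ⊢
      exact (h1 _ _ _ h).1
    · simp only [par', dif_neg hc] at h
      exact absurd h (by simp)
  obtain ⟨γ, g1, g2, g3⟩ := all_classes (Nat.card V) idx hidx hn par' hstar N
  have g1' : ∀ (c : Fin N) v u, par c v = some u →
        Continuous (γ c v) ∧ Function.Injective (γ c v) ∧ γ c v 0 = (0, (idx u : ℝ)) ∧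
        γ c v 1 = (0, (idx v : ℝ)) ∧
        (∀ t ∈ Set.Ioo (0 : ℝ) 1, ∀ w, γ c v t ≠ (0, (idx w : ℝ))) ∧
        (∀ v' u', par c v' = some u' → v ≠ v' → ∀ t ∈ Set.Ioo (0 : ℝ) 1,
          ∀ t' ∈ Set.Icc (0 : ℝ) 1, γ c v t ≠ γ c v' t') := by
    intro c v u h
    obtain ⟨a1, a2, a3, a4, a5, a6, -⟩ := g1 c c.2 v u (by rw [hpar]; exact h)
    exact ⟨a1, a2, a3, a4, a5, fun v' u' h' => a6 v' u' (by rw [hpar]; exact h')⟩
  have g2' : ∀ (c c' : Fin N), (c : ℕ) < c' → ∀ v u v' u', par c v = some u → par c' v' = some u' →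
      (γ c v '' Set.Icc 0 1 ∩ γ c' v' '' Set.Icc 0 1).Finite := fun c c' hcc v u v' u' h h' =>
    g2 c c' hcc c'.2 v u v' u' (by rw [hpar]; exact h) (by rw [hpar]; exact h')
  have g3' : ∀ (c c' c'' : Fin N), (c : ℕ) < c' → (c' : ℕ) < c'' → ∀ v u v' u' v'' u'',
      par c v = some u → par c' v' = some u' → par c'' v'' = some u'' → ∀ x,
      x ∈ γ c v '' Set.Ioo 0 1 → x ∈ γ c' v' '' Set.Ioo 0 1 → x ∈ γ c'' v'' '' Set.Ioo 0 1 →
      False := by
    intro c c' c'' hcc hcc' v u v' u' v'' u'' h h' h'' x m1 m2 m3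
    have h4 := g3 c c' c'' hcc hcc' c''.2 v u v' u' v'' u'' (by rw [hpar]; exact h)
      (by rw [hpar]; exact h') (by rw [hpar]; exact h'')
    have h5 : x ∈ γ c v '' Set.Ioo 0 1 ∩ γ c' v' '' Set.Ioo 0 1 ∩ γ c'' v'' '' Set.Ioo 0 1 :=
      ⟨⟨m1, m2⟩, m3⟩
    rw [h4] at h5
    exact h5
  -- curves of the same class do not meet
  have g4 : ∀ (c : Fin N) v u v' u', par c v = some u → par c v' = some u' →
      s(v, u) ≠ s(v', u') → ∀ x, x ∈ γ c v '' Set.Ioo 0 1 → x ∈ γ c v' '' Set.Icc 0 1 → False := by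
    intro c v u v' u' h h' hne x m1 m2
    obtain ⟨t, ht, rfl⟩ := m1
    obtain ⟨t', ht', he⟩ := m2
    have hv : v ≠ v' := by
      rintro rfl
      rw [h] at h'
      exact hne (by rw [Option.some.inj h'])
    exact (g1' c v u h).2.2.2.2.2 v' u' h' hv t ht t' ht' he.symm
  -- the curve of an edge
  let P : Sym2 V → (Fin N × V × V) → Prop := fun e p => par p.1 p.2.1 = some p.2.2 ∧
    e = s(p.2.1, p.2.2)
  let curve : Sym2 V → ℝ → ℝ × ℝ := fun e =>
    if h : ∃ p, P e p then γ h.choose.1 h.choose.2.1 else fun _ => 0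
  have hcurve : ∀ c v u, par c v = some u → curve s(v, u) = γ c v := by
    intro c v u h
    have hex : ∃ p, P s(v, u) p := ⟨(c, v, u), h, rfl⟩
    obtain ⟨q1, q2⟩ := hex.choose_spec
    obtain ⟨e1, e2⟩ := h3 _ _ _ c v u q1 h q2.symm
    simp only [curve, dif_pos hex]
    rw [e1, e2]
  have hrep : ∀ e ∈ G.edgeSet, ∃ c v u, par c v = some u ∧ e = s(v, u) ∧ curve e = γ c v := by
    intro e he
    induction e using Sym2.ind with
    | _ a b =>
      rw [SimpleGraph.mem_edgeSet] at he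
      obtain ⟨c, hc | hc⟩ := h2 a b he
      · exact ⟨c, a, b, hc, rfl, hcurve c a b hc⟩
      · exact ⟨c, b, a, hc, Sym2.eq_swap, by rw [Sym2.eq_swap]; exact hcurve c b a hc⟩
  refine ⟨{ pos := fun v => (0, (idx v : ℝ))
            pos_inj := ?_
            curve := curve
            cont := ?_
            inj := ?_
            ends := ?_
            avoid := ?_
            fin := ?_
            triple := ?_ }, ?_⟩
  · intro v w h
    have h4 : (idx v : ℝ) = idx w := (Prod.ext_iff.1 h).2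
    exact hidx (Nat.cast_injective h4)
  · intro e he
    obtain ⟨c, v, u, h, -, hc⟩ := hrep e he
    rw [hc]
    exact (g1' c v u h).1.continuousOn
  · intro e he
    obtain ⟨c, v, u, h, -, hc⟩ := hrep e he
    rw [hc]
    exact (g1' c v u h).2.1.injOn
  · intro e he
    obtain ⟨c, v, u, h, hs, hc⟩ := hrep e he
    rw [hc]
    exact ⟨u, v, by rw [hs]; exact Sym2.eq_swap, (g1' c v u h).2.2.1, (g1' c v u h).2.2.2.1⟩
  · intro e he
    obtain ⟨c, v, u, h, hs, hc⟩ := hrep e he
    rw [hc]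
    exact (g1' c v u h).2.2.2.2.1
  · intro e he f hf hef
    obtain ⟨c, v, u, h, hs, hc⟩ := hrep e he
    obtain ⟨c', v', u', h', hs', hc'⟩ := hrep f hf
    rw [hc, hc']
    rcases lt_trichotomy (c : ℕ) (c' : ℕ) with hlt | heq | hgt
    · exact g2' c c' hlt v u v' u' h h'
    · have hcc : c = c' := Fin.ext heq
      subst hcc
      have hne : s(v, u) ≠ s(v', u') := by rw [← hs, ← hs']; exact hef
      refine Set.Finite.subset (s := {γ c v 0, γ c v 1}) (by simp) ?_
      rintro x ⟨⟨t, ht, rfl⟩, m2⟩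
      by_cases ht0 : t = 0
      · rw [ht0]; exact Or.inl rfl
      by_cases ht1 : t = 1
      · rw [ht1]; exact Or.inr rfl
      have ht' : t ∈ Set.Ioo (0 : ℝ) 1 :=
        ⟨lt_of_le_of_ne ht.1 (Ne.symm ht0), lt_of_le_of_ne ht.2 ht1⟩
      exact absurd (g4 c v u v' u' h h' hne _ ⟨t, ht', rfl⟩ m2) id
    · rw [Set.inter_comm]
      exact g2' c' c hgt v' u' v u h' h
  · intro e he f hf g hg hef heg hfg
    obtain ⟨c, v, u, h, hs, hc⟩ := hrep e he
    obtain ⟨c', v', u', h', hs', hc'⟩ := hrep f hf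
    obtain ⟨c'', v'', u'', h'', hs'', hc''⟩ := hrep g hg
    rw [hc, hc', hc'']
    rw [hs, hs'] at hef
    rw [hs, hs''] at heg
    rw [hs', hs''] at hfg
    rw [Set.eq_empty_iff_forall_notMem]
    rintro x ⟨⟨m1, m2⟩, m3⟩
    have hIcc : ∀ (a : ℕ) (b : V), x ∈ γ a b '' Set.Ioo 0 1 → x ∈ γ a b '' Set.Icc 0 1 :=
      fun a b hx => Set.image_mono Set.Ioo_subset_Icc_self hx
    rcases lt_trichotomy (c : ℕ) (c' : ℕ) with l1 | l1 | l1
    · rcases lt_trichotomy (c' : ℕ) (c'' : ℕ) with l2 | l2 | l2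
      · exact g3' c c' c'' l1 l2 v u v' u' v'' u'' h h' h'' x m1 m2 m3
      · have e1 : c' = c'' := Fin.ext l2
        subst e1
        exact g4 c' v' u' v'' u'' h' h'' hfg x m2 (hIcc _ _ m3)
      · rcases lt_trichotomy (c : ℕ) (c'' : ℕ) with l3 | l3 | l3
        · exact g3' c c'' c' l3 l2 v u v'' u'' v' u' h h'' h' x m1 m3 m2
        · have e1 : c = c'' := Fin.ext l3
          subst e1
          exact g4 c v u v'' u'' h h'' heg x m1 (hIcc _ _ m3)
        · exact g3' c'' c c' l3 l1 v'' u'' v u v' u' h'' h h' x m3 m1 m2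
    · have e1 : c = c' := Fin.ext l1
      subst e1
      exact g4 c v u v' u' h h' hef x m1 (hIcc _ _ m2)
    · rcases lt_trichotomy (c : ℕ) (c'' : ℕ) with l2 | l2 | l2
      · exact g3' c' c c'' l1 l2 v' u' v u v'' u'' h' h h'' x m2 m1 m3
      · have e1 : c = c'' := Fin.ext l2
        subst e1
        exact g4 c v u v'' u'' h h'' heg x m1 (hIcc _ _ m3)
      · rcases lt_trichotomy (c' : ℕ) (c'' : ℕ) with l3 | l3 | l3
        · exact g3' c' c'' c l3 l2 v' u' v'' u'' v u h' h'' h x m2 m3 m1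
        · have e1 : c' = c'' := Fin.ext l3
          subst e1
          exact g4 c' v' u' v'' u'' h' h'' hfg x m2 (hIcc _ _ m3)
        · exact g3' c'' c' c l3 l1 v'' u'' v' u' v u h'' h' h x m3 m2 m1
  · rintro c v u v' u' h h' ⟨hne, x, m1, m2⟩
    simp only at m1 m2
    rw [hcurve c v u h] at m1
    rw [hcurve c v' u' h'] at m2
    exact g4 c v u v' u' h h' hne x m1 (Set.image_mono Set.Ioo_subset_Icc_self m2)

end QP
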