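import Pool.Agent.H6.QP.C1

/-! # Module C2: contraction of an edge -/

set_option autoImplicit false

namespace QP

/-- the contraction map -/
noncomputable def C2rho {W : Type} {x y : W} (hxy : x ≠ y) (a : W) : {w : W // w ≠ y} :=
  open Classical in
  if h : a = y then ⟨x, hxy⟩ else ⟨a, h⟩

theorem C2rho_y {W : Type} {x y : W} (hxy : x ≠ y) : C2rho hxy y = ⟨x, hxy⟩ := by
  unfold C2rho
  rw [dif_pos rfl]

theorem C2rho_of_ne {W : Type} {x y : W} (hxy : x ≠ y) {a : W} (h : a ≠ y) :
    C2rho hxy a = ⟨a, h⟩ := by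
  unfold C2rho
  rw [dif_neg h]

theorem C2rho_eq {W : Type} {x y : W} (hxy : x ≠ y) {a c : W} (h : C2rho hxy a = C2rho hxy c) :
    a = c ∨ (a = x ∧ c = y) ∨ (a = y ∧ c = x) := by
  by_cases ha : a = y
  · by_cases hc : c = y
    · exact Or.inl (ha.trans hc.symm)
    · rw [ha, C2rho_y, C2rho_of_ne hxy hc] at h
      exact Or.inr (Or.inr ⟨ha, (congrArg Subtype.val h).symm⟩)
  · by_cases hc : c = y
    · rw [hc, C2rho_y, C2rho_of_ne hxy ha] at h
      exact Or.inr (Or.inl ⟨congrArg Subtype.val h, hc⟩)
    · rw [C2rho_of_ne hxy ha, C2rho_of_ne hxy hc] at h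
      exact Or.inl (congrArg Subtype.val h)

/-- the contracted graph -/
def C2graph {W : Type} (H : SimpleGraph W) {x y : W} (hxy : x ≠ y) :
    SimpleGraph {w : W // w ≠ y} where
  Adj u v := u ≠ v ∧ ∃ a b, H.Adj a b ∧ C2rho hxy a = u ∧ C2rho hxy b = v
  symm := ⟨fun _ _ ⟨h1, a, b, h2, h3, h4⟩ => ⟨h1.symm, b, a, h2.symm, h4, h3⟩⟩
  loopless := ⟨fun _ h => h.1 rfl⟩

/-- Contract the edge `xy` to `x`: `H'` on `{w // w ≠ y}`, `u ~ v` iff `u ~_H v`, or `u = x`,
`y ~_H v`, or `v = x`, `y ~_H u`.  Bags: `{x, y}` for `x`, `{w}` for the other ones.  An edge of `H`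
not of the form `xy` and not of the form `yw` with `w` a common neighbour goes injectively to an
edge of `H'` (`yw ↦ xw`, other edges are kept). -/
theorem exists_contract {W : Type} [Finite W] (H : SimpleGraph W) {x y : W} (h : H.Adj x y) :
    ∃ (H' : SimpleGraph {w : W // w ≠ y}) (B : {w : W // w ≠ y} → Set W), IsModel H' H B ∧
      H.edgeSet.ncard ≤ H'.edgeSet.ncard + 1 + Set.ncard {w | H.Adj x w ∧ H.Adj y w} := by
  classical
  have hxy : x ≠ y := h.ne
  refine ⟨C2graph H hxy, fun w => {a | C2rho hxy a = w}, ⟨?_, ?_, ?_, ?_⟩, ?_⟩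
  · intro w
    exact ⟨w.1, C2rho_of_ne hxy w.2⟩
  · intro w w' hw
    rw [Set.disjoint_left]
    intro a ha ha'
    exact hw (ha.symm.trans ha')
  · intro w u hu v hv
    have hu' : C2rho hxy u = w := hu
    have hv' : C2rho hxy v = w := hv
    rcases C2rho_eq hxy (hu'.trans hv'.symm) with h1 | ⟨h1, h2⟩ | ⟨h1, h2⟩
    · rw [h1]
      exact Relation.ReflTransGen.refl
    · refine Relation.ReflTransGen.single ⟨?_, hu, hv⟩
      rw [h1, h2]
      exact h
    · refine Relation.ReflTransGen.single ⟨?_, hu, hv⟩
      rw [h1, h2]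
      exact h.symm
  · rintro w w' ⟨-, a, b, h1, h2, h3⟩
    exact ⟨a, h2, b, h3, h1⟩
  · let C : Set W := {w | H.Adj x w ∧ H.Adj y w}
    let T : Set (Sym2 W) := H.edgeSet \ ({s(x, y)} ∪ (fun w => s(y, w)) '' C)
    have h1 : H.edgeSet ⊆ T ∪ ({s(x, y)} ∪ (fun w => s(y, w)) '' C) := by
      intro e he
      by_cases h2 : e ∈ ({s(x, y)} ∪ (fun w => s(y, w)) '' C : Set (Sym2 W))
      · exact Or.inr h2
      · exact Or.inl ⟨he, h2⟩
    have h2 : T.ncard ≤ (C2graph H hxy).edgeSet.ncard := by
      refine Set.ncard_le_ncard_of_injOn (Sym2.map (C2rho hxy)) ?_ ?_ (Set.toFinite _)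
      · intro e he
        induction e using Sym2.ind with
        | _ a b =>
          have hab : H.Adj a b := he.1
          rw [Sym2.map_mk]
          show (C2graph H hxy).Adj (C2rho hxy a) (C2rho hxy b)
          refine ⟨fun heq => ?_, a, b, hab, rfl, rfl⟩
          rcases C2rho_eq hxy heq with h3 | ⟨h3, h4⟩ | ⟨h3, h4⟩
          · exact hab.ne h3
          · refine he.2 (Or.inl ?_)
            rw [h3, h4]
            rfl
          · refine he.2 (Or.inl ?_)
            rw [h3, h4]
            exact Sym2.eq_swap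
      · have key : ∀ a b c d : W, s(a, b) ∈ T → s(c, d) ∈ T → C2rho hxy a = C2rho hxy c →
            C2rho hxy b = C2rho hxy d → s(a, b) = s(c, d) := by
          intro a b c d he he' hac hbd
          have hab : H.Adj a b := he.1
          have hcd : H.Adj c d := he'.1
          rcases C2rho_eq hxy hac with h3 | ⟨h3, h4⟩ | ⟨h3, h4⟩
          · rcases C2rho_eq hxy hbd with h5 | ⟨h5, h6⟩ | ⟨h5, h6⟩
            · rw [h3, h5]
            · exfalso
              refine he'.2 (Or.inr ⟨c, ⟨?_, ?_⟩, ?_⟩)
              · rw [← h5, ← h3]; exact hab.symm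
              · rw [← h6]; exact hcd.symm
              · show s(y, c) = s(c, d)
                rw [h6]; exact Sym2.eq_swap
            · exfalso
              refine he.2 (Or.inr ⟨a, ⟨?_, ?_⟩, ?_⟩)
              · rw [← h6, h3]; exact hcd.symm
              · rw [← h5]; exact hab.symm
              · show s(y, a) = s(a, b)
                rw [h5]; exact Sym2.eq_swap
          · rcases C2rho_eq hxy hbd with h5 | ⟨h5, h6⟩ | ⟨h5, h6⟩
            · exfalso
              refine he'.2 (Or.inr ⟨d, ⟨?_, ?_⟩, ?_⟩)
              · rw [← h3, ← h5]; exact hab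
              · rw [← h4]; exact hcd
              · show s(y, d) = s(c, d)
                rw [h4]
            · exfalso
              exact hab.ne (h3.trans h5.symm)
            · exfalso
              refine he.2 (Or.inl ?_)
              rw [h3, h5]
              rfl
          · rcases C2rho_eq hxy hbd with h5 | ⟨h5, h6⟩ | ⟨h5, h6⟩
            · exfalso
              refine he.2 (Or.inr ⟨b, ⟨?_, ?_⟩, ?_⟩)
              · rw [← h4, h5]; exact hcd
              · rw [← h3]; exact hab
              · show s(y, b) = s(a, b)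
                rw [h3]
            · exfalso
              refine he.2 (Or.inl ?_)
              rw [h3, h5]
              exact Sym2.eq_swap
            · exfalso
              exact hab.ne (h3.trans h5.symm)
        intro e he e' he' heq
        induction e using Sym2.ind with
        | _ a b =>
          induction e' using Sym2.ind with
          | _ c d =>
            rw [Sym2.map_mk, Sym2.map_mk] at heq
            rcases Sym2.eq_iff.1 heq with ⟨h3, h4⟩ | ⟨h3, h4⟩
            · exact key a b c d he he' h3 h4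
            · rw [key a b d c he (by rwa [Sym2.eq_swap]) h3 h4]
              exact Sym2.eq_swap
    have h3 : ({s(x, y)} ∪ (fun w => s(y, w)) '' C : Set (Sym2 W)).ncard ≤ 1 + C.ncard := by
      refine (Set.ncard_union_le _ _).trans ?_
      rw [Set.ncard_singleton]
      exact Nat.add_le_add_left (Set.ncard_image_le (Set.toFinite _)) 1
    have h4 := (Set.ncard_le_ncard h1 (Set.toFinite _)).trans (Set.ncard_union_le _ _)
    show H.edgeSet.ncard ≤ (C2graph H hxy).edgeSet.ncard + 1 + C.ncard
    omega

end QP
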