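import Pool.Agent.H6.QP.C1

/-! # Module C3: neighbourhood graphs -/

set_option autoImplicit false

namespace QP

theorem c3_reach_map {W : Type} (H : SimpleGraph W) (N : Set W) (B : Set N) (u v : N)
    (h : Reach (H.induce N) B u v) : Reach H (Subtype.val '' B) u.1 v.1 := by
  induction h with
  | refl => exact Relation.ReflTransGen.refl
  | tail _ hbc ih =>
    refine ih.tail ⟨?_, ⟨_, hbc.2.1, rfl⟩, ⟨_, hbc.2.2, rfl⟩⟩
    simpa using hbc.1

theorem c3_cone {W : Type} (H : SimpleGraph W) (x : W) (r : ℕ) (N : Set W)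
    (hN : ∀ y : N, H.Adj x y.1) (h : KMinor r (H.induce N)) : KMinor (r + 1) H := by
  obtain ⟨B, hne, hdis, hconn, hadj⟩ := h
  have hxN : ∀ y : N, y.1 ≠ x := by
    intro y hy
    have := hN y
    rw [hy] at this
    exact this.ne rfl
  let B' : Fin (r + 1) → Set W := Fin.cons {x} fun i => Subtype.val '' B i
  have h0 : B' 0 = {x} := rfl
  have hs : ∀ i : Fin r, B' i.succ = Subtype.val '' B i := fun i => rfl
  refine ⟨B', ?_, ?_, ?_, ?_⟩
  · intro w
    refine Fin.cases ?_ (fun i => ?_) w
    · rw [h0]; exact Set.singleton_nonempty _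
    · rw [hs]; exact (hne i).image _
  · intro w w'
    refine Fin.cases ?_ (fun i => ?_) w
    · refine Fin.cases ?_ (fun j => ?_) w'
      · intro hne'; exact absurd rfl hne'
      · intro _
        rw [h0, hs, Set.disjoint_singleton_left]
        rintro ⟨y, _, hy⟩
        exact hxN y hy
    · refine Fin.cases ?_ (fun j => ?_) w'
      · intro _
        rw [h0, hs, Set.disjoint_singleton_right]
        rintro ⟨y, _, hy⟩
        exact hxN y hy
      · intro hij
        rw [hs, hs]
        have hij' : i ≠ j := fun e => hij (by rw [e])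
        exact (Set.disjoint_image_iff Subtype.val_injective).2 (hdis i j hij')
  · intro w
    refine Fin.cases ?_ (fun i => ?_) w
    · rw [h0]
      rintro u hu v hv
      rw [Set.mem_singleton_iff] at hu hv
      subst hu; subst hv
      exact Relation.ReflTransGen.refl
    · rw [hs]
      rintro _ ⟨u, hu, rfl⟩ _ ⟨v, hv, rfl⟩
      exact c3_reach_map H N (B i) u v (hconn i u hu v hv)
  · intro w w'
    refine Fin.cases ?_ (fun i => ?_) w
    · refine Fin.cases ?_ (fun j => ?_) w'
      · intro hh; exact absurd hh (by simp)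
      · intro _
        rw [h0, hs]
        obtain ⟨y, hy⟩ := hne j
        exact ⟨x, rfl, y.1, ⟨y, hy, rfl⟩, hN y⟩
    · refine Fin.cases ?_ (fun j => ?_) w'
      · intro _
        rw [h0, hs]
        obtain ⟨y, hy⟩ := hne i
        exact ⟨y.1, ⟨y, hy, rfl⟩, x, rfl, (hN y).symm⟩
      · intro hij
        rw [hs, hs]
        have hij' : (⊤ : SimpleGraph (Fin r)).Adj i j := by
          simp only [SimpleGraph.top_adj] at hij ⊢
          exact fun e => hij (by rw [e])
        obtain ⟨u, hu, v, hv, huv⟩ := hadj i j hij'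
        exact ⟨u.1, ⟨u, hu, rfl⟩, v.1, ⟨v, hv, rfl⟩, by simpa using huv⟩

/-- Add the vertex `x` to a model of `K_r` in the graph on its neighbourhood (`Fin.cons` or
`Fin.lastCases`; the new bag is `{x}`). -/
theorem KMinor.cone {W : Type} (H : SimpleGraph W) (x : W) (r : ℕ)
    (h : KMinor r (H.induce {w | H.Adj x w})) : KMinor (r + 1) H :=
  c3_cone H x r _ (fun y => y.2) h

/-- If every edge `xw` at `x` has at least `c` common neighbours then the graph on the neighbourhood
of `x` has minimum degree at least `c`, so at least `c |N(x)| / 2` edges. -/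
theorem nbh_edges {W : Type} [Finite W] (H : SimpleGraph W) (x : W) (c : ℕ)
    (h : ∀ w, H.Adj x w → c ≤ Set.ncard {z | H.Adj x z ∧ H.Adj w z}) :
    c * Set.ncard {w | H.Adj x w} ≤ 2 * (H.induce {w | H.Adj x w}).edgeSet.ncard := by
  classical
  have := Fintype.ofFinite W
  set N : Set W := {w | H.Adj x w} with hN
  set K := H.induce N with hK
  have h1 : K.edgeSet.ncard = K.edgeFinset.card := by
    rw [← SimpleGraph.coe_edgeFinset, Set.ncard_coe_finset]
  rw [h1, ← SimpleGraph.sum_degrees_eq_twice_card_edges]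
  have h2 : N.ncard = (Finset.univ : Finset N).card := by
    rw [Finset.card_univ, ← Nat.card_coe_set_eq, Nat.card_eq_fintype_card]
  rw [h2, mul_comm, ← smul_eq_mul, ← Finset.sum_const]
  refine Finset.sum_le_sum fun w _ => ?_
  refine (h w.1 w.2).trans ?_
  rw [← SimpleGraph.card_neighborFinset_eq_degree, ← Set.ncard_coe_finset,
    SimpleGraph.coe_neighborFinset]
  rw [← Set.ncard_image_of_injective (K.neighborSet w) Subtype.val_injective]
  refine Set.ncard_le_ncard ?_ (Set.toFinite _)
  rintro z ⟨hz1, hz2⟩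
  exact ⟨⟨z, hz1⟩, by simpa [hK] using hz2, rfl⟩

end QP
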