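import Pool.Agent.H6.QP.C2
import Pool.Agent.H6.QP.C3

/-! # Module C4: dense graphs have complete minors (Mader) -/

set_option autoImplicit false

namespace QP

theorem C4_two {W : Type} (H : SimpleGraph W) (h : 0 < H.edgeSet.ncard) : KMinor 2 H := by
  obtain ⟨e, he⟩ := Set.nonempty_of_ncard_ne_zero h.ne'
  induction e using Sym2.ind with
  | _ x y =>
    rw [SimpleGraph.mem_edgeSet] at he
    have hne : x ≠ y := he.ne
    refine ⟨fun i => if i = 0 then {x} else {y}, ?_, ?_, ?_, ?_⟩
    · intro w
      by_cases hw : w = 0 <;> simp [hw]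
    · intro w w' hww
      by_cases hw : w = 0
      · have hw' : w' ≠ 0 := fun h => hww (hw.trans h.symm)
        simp [hw, hw', hne]
      · have hw' : w' = 0 := by
          fin_cases w <;> fin_cases w' <;> simp_all
        simp [hw, hw', hne.symm]
    · intro w u hu v hv
      by_cases hw : w = 0
      · simp only [hw, if_true, Set.mem_singleton_iff] at hu hv
        subst hu
        subst hv
        exact Relation.ReflTransGen.refl
      · simp only [hw, if_false, Set.mem_singleton_iff] at hu hv
        subst hu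
        subst hv
        exact Relation.ReflTransGen.refl
    · intro w w' hww
      have hne' : w ≠ w' := hww.ne
      by_cases hw : w = 0
      · have hw' : w' ≠ 0 := fun h => hne' (hw.trans h.symm)
        exact ⟨x, by simp [hw], y, by simp [hw'], he⟩
      · have hw' : w' = 0 := by
          fin_cases w <;> fin_cases w' <;> simp_all
        exact ⟨y, by simp [hw], x, by simp [hw'], he.symm⟩

/-- A minimal minor with many edges. -/
theorem C4_min (c : ℕ) (W : Type) [Finite W] [Nonempty W] (H : SimpleGraph W)
    (h : c * Nat.card W ≤ H.edgeSet.ncard) :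
    ∃ (W' : Type) (_ : Finite W') (_ : Nonempty W') (H' : SimpleGraph W') (B : W' → Set W),
      IsModel H' H B ∧ c * Nat.card W' ≤ H'.edgeSet.ncard ∧
      ∀ x y, H'.Adj x y → c ≤ Set.ncard {z | H'.Adj x z ∧ H'.Adj y z} := by
  classical
  let P : ℕ → Prop := fun m => ∃ (W' : Type) (_ : Finite W') (_ : Nonempty W')
    (H' : SimpleGraph W') (B : W' → Set W), IsModel H' H B ∧
      c * Nat.card W' ≤ H'.edgeSet.ncard ∧ Nat.card W' = m
  have hP : ∃ m, P m := ⟨Nat.card W, W, inferInstance, inferInstance, H, _, isModel_id H, h, rfl⟩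
  obtain ⟨W', hf, hne, H', B, hB, hedge, hcard⟩ := Nat.find_spec hP
  have hmin : ∀ m, m < Nat.find hP → ¬ P m := fun m hm => Nat.find_min hP hm
  refine ⟨W', hf, hne, H', B, hB, hedge, ?_⟩
  intro x y hxy
  by_contra hlt
  push Not at hlt
  obtain ⟨H'', B', hB', hle⟩ := exists_contract H' hxy
  have hc : Nat.card {w : W' // w ≠ y} + 1 = Nat.card W' := by
    have h1 : Nat.card {w : W' // w ≠ y} = Set.ncard ({y}ᶜ : Set W') := by
      rw [← Nat.card_coe_set_eq]
      rfl
    have h2 := Set.ncard_add_ncard_compl ({y} : Set W')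
    rw [Set.ncard_singleton] at h2
    omega
  refine hmin (Nat.card {w : W' // w ≠ y}) (by omega) ⟨{w : W' // w ≠ y}, inferInstance,
    ⟨⟨x, hxy.ne⟩⟩, H'', _, hB'.trans hB, ?_, rfl⟩
  have h3 : c * Nat.card W' = c * Nat.card {w : W' // w ≠ y} + c := by
    rw [← hc]
    ring
  omega

/-- Induction on `r`.  `r = 2`: there is an edge (`Nat.card W > 0`).  Step `r → r+1`, `c = 2^(r-2)`
(so `8 c = 2^(r+1)`): among all finite types `W'` (in `Type`) with a graph `H'`, a model of `H'` in
`H`, `W'` nonempty and `c * card W' ≤ edges` choose one with minimal `card W'`.  For every edge `xy` of `H'` the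
contraction (`exists_contract`) has fewer vertices, so `edges(H'/xy) < c (card W' - 1)` (here
`card W' ≥ 2`, so the contraction is nonempty) and `xy` has at least `c` common neighbours.  There is an edge `xy`.
`nbh_edges`: the graph on `N(x)` satisfies the hypothesis for `r` (`8 * edges ≥ 4 c |N(x)| = 2^r |N(x)|`), `KMinor.cone`,
`KMinor.of_model`. -/
theorem mader (r : ℕ) (hr : 2 ≤ r) : ∀ (W : Type) [Finite W] [Nonempty W] (H : SimpleGraph W),
    2 ^ r * Nat.card W ≤ 8 * H.edgeSet.ncard → KMinor r H := by
  induction r, hr using Nat.le_induction with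
  | base =>
    intro W _ _ H h
    refine C4_two H ?_
    have := Nat.card_pos (α := W)
    omega
  | succ r hr ih =>
    intro W _ _ H h
    obtain ⟨k, rfl⟩ : ∃ k, r = k + 2 := ⟨r - 2, by omega⟩
    have hc : 2 ^ k * Nat.card W ≤ H.edgeSet.ncard := by
      have h1 : 2 ^ (k + 2 + 1) * Nat.card W = 8 * (2 ^ k * Nat.card W) := by ring
      omega
    obtain ⟨W', hf, hne, H', B, hB, hedge, hcom⟩ := C4_min (2 ^ k) W H hc
    have hpos : 0 < H'.edgeSet.ncard := by
      have h1 := Nat.card_pos (α := W')
      have h2 : 0 < 2 ^ k * Nat.card W' := by positivity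
      omega
    obtain ⟨e, he⟩ := Set.nonempty_of_ncard_ne_zero hpos.ne'
    induction e using Sym2.ind with
    | _ x y =>
      rw [SimpleGraph.mem_edgeSet] at he
      have h1 := nbh_edges H' x (2 ^ k) (fun w hw => hcom x w hw)
      have hne' : Nonempty ↑{w | H'.Adj x w} := ⟨⟨y, he⟩⟩
      have h2 : KMinor (k + 2) (H'.induce {w | H'.Adj x w}) := by
        refine ih _ _ ?_
        rw [Nat.card_coe_set_eq]
        have h3 : 2 ^ (k + 2) * Set.ncard {w | H'.Adj x w} =
          4 * (2 ^ k * Set.ncard {w | H'.Adj x w}) := by ring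
        omega
      exact (KMinor.cone H' x (k + 2) h2).of_model hB

/-- The version for graphs with all edges inside `U`. -/
theorem mader_U {V : Type} (H : SimpleGraph V) (U : Finset V) (hU : U.Nonempty)
    (hsup : ∀ u v, H.Adj u v → u ∈ U ∧ v ∈ U) (h : 4 * U.card ≤ H.edgeSet.ncard) :
    KMinor 5 H := by
  have hne : Nonempty ↑(U : Set V) := by
    obtain ⟨u, hu⟩ := hU
    exact ⟨⟨u, hu⟩⟩
  have hE : (H.induce (U : Set V)).edgeSet.ncard = H.edgeSet.ncard := by
    have h1 : H.edgeSet = (Sym2.map Subtype.val) '' (H.induce (U : Set V)).edgeSet := by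
      ext e
      constructor
      · intro he
        induction e using Sym2.ind with
        | _ x y =>
          rw [SimpleGraph.mem_edgeSet] at he
          obtain ⟨hx, hy⟩ := hsup x y he
          exact ⟨s(⟨x, hx⟩, ⟨y, hy⟩), he, rfl⟩
      · rintro ⟨f, hf, rfl⟩
        induction f using Sym2.ind with
        | _ x y => exact hf
    rw [h1, Set.ncard_image_of_injective _ (Sym2.map.injective Subtype.val_injective)]
  have h2 : KMinor 5 (H.induce (U : Set V)) := by
    refine mader 5 (by norm_num) _ _ ?_
    rw [hE, Nat.card_coe_set_eq, Set.ncard_coe_finset]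
    omega
  exact h2.of_model (isModel_induce H _)

end QP
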