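import Pool.Agent.H6.QP.Defs

/-! # Module C5: small sets covering all disjoint crossing edges -/

set_option autoImplicit false

namespace QP

theorem c5_card_le {V : Type} [Fintype V] [DecidableEq V] (f : Sym2 V) :
    (Finset.univ.filter (fun v => v ∈ f)).card ≤ 2 := by
  induction f using Sym2.ind with
  | _ a b =>
    have : (Finset.univ.filter (fun v => v ∈ s(a, b))) ⊆ {a, b} := by
      intro v hv
      simpa using hv
    exact (Finset.card_le_card this).trans Finset.card_le_two

/-- The vertex set of a maximal set `M` of pairwise vertex-disjoint edges which are disjoint from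
`e` and in the relation `cr e`. -/
theorem exists_cover {V : Type} [Finite V] (G : SimpleGraph V) (cr : Sym2 V → Sym2 V → Prop)
    (k : ℕ) (e : Sym2 V)
    (hk : ∀ M : Finset (Sym2 V), (∀ f ∈ M, f ∈ G.edgeSet ∧ cr e f) →
      (∀ f ∈ M, ∀ g ∈ M, f ≠ g → VDisj f g) → M.card ≤ k) :
    ∃ C : Finset V, C.card ≤ 2 * k ∧ (∀ v ∈ C, v ∉ e) ∧
      ∀ f ∈ G.edgeSet, cr e f → VDisj e f → ∃ v ∈ C, v ∈ f := by
  classical
  have := Fintype.ofFinite V
  let good : Finset (Finset (Sym2 V)) := Finset.univ.filter (fun M =>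
    (∀ f ∈ M, f ∈ G.edgeSet ∧ cr e f ∧ VDisj e f) ∧ ∀ f ∈ M, ∀ g ∈ M, f ≠ g → VDisj f g)
  have hne : good.Nonempty := ⟨∅, by simp [good]⟩
  obtain ⟨M, hM, hmax⟩ := Finset.exists_max_image good Finset.card hne
  obtain ⟨hM1, hM2⟩ := (Finset.mem_filter.mp hM).2
  refine ⟨M.biUnion (fun f => Finset.univ.filter (fun v => v ∈ f)), ?_, ?_, ?_⟩
  · calc (M.biUnion (fun f => Finset.univ.filter (fun v => v ∈ f))).card
        ≤ ∑ f ∈ M, (Finset.univ.filter (fun v => v ∈ f)).card := Finset.card_biUnion_le
      _ ≤ ∑ _f ∈ M, 2 := Finset.sum_le_sum fun f _ => c5_card_le f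
      _ = 2 * M.card := by rw [Finset.sum_const, smul_eq_mul, mul_comm]
      _ ≤ 2 * k := Nat.mul_le_mul_left 2 (hk M (fun f hf => ⟨(hM1 f hf).1, (hM1 f hf).2.1⟩) hM2)
  · intro v hv hve
    obtain ⟨f, hf, hvf⟩ := Finset.mem_biUnion.mp hv
    exact (hM1 f hf).2.2 v ⟨hve, (Finset.mem_filter.mp hvf).2⟩
  · intro f hf hcr hdis
    by_contra hcon
    push Not at hcon
    have hno : ∀ g ∈ M, ∀ v, ¬ (v ∈ f ∧ v ∈ g) := by
      intro g hg v hv
      exact hcon v (Finset.mem_biUnion.mpr ⟨g, hg, by simp [hv.2]⟩) hv.1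
    have hfM : f ∉ M := by
      intro hfM
      have : ∃ v, v ∈ f := by
        induction f using Sym2.ind with
        | _ a b => exact ⟨a, by simp⟩
      obtain ⟨v, hv⟩ := this
      exact hno f hfM v ⟨hv, hv⟩
    have hins : insert f M ∈ good := by
      refine Finset.mem_filter.mpr ⟨Finset.mem_univ _, ?_, ?_⟩
      · intro g hg
        rcases Finset.mem_insert.mp hg with rfl | hg
        · exact ⟨hf, hcr, hdis⟩
        · exact hM1 g hg
      · intro g hg g' hg' hgg
        rcases Finset.mem_insert.mp hg with h1 | h1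
        · rcases Finset.mem_insert.mp hg' with h2 | h2
          · exact absurd (h1.trans h2.symm) hgg
          · rw [h1]
            exact hno g' h2
        · rcases Finset.mem_insert.mp hg' with h2 | h2
          · intro v hv
            rw [h2] at hv
            exact hno g h1 v ⟨hv.2, hv.1⟩
          · exact hM2 g h1 g' h2 hgg
    have := hmax _ hins
    rw [Finset.card_insert_of_notMem hfM] at this
    omega

end QP
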