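import Mathlib

/-! # Module C6: averaging over all subsets `S` of `U` -/

set_option autoImplicit false

namespace QP

open Finset in
theorem c6_fiber {V : Type} [DecidableEq V] (U A B : Finset V) (hA : A ⊆ U) (hAB : Disjoint B A)
    (k : ℕ) (hB : B.card ≤ 2 * k) (hA2 : A.card ≤ 2) :
    2 ^ U.card ≤ 4 ^ (k + 1) * (U.powerset.filter fun S => A ⊆ S ∧ Disjoint B S).card := by
  rw [← Finset.card_powerset]
  refine Finset.card_le_mul_card_image_of_maps_to (f := fun S => (S \ B) ∪ A) ?_ _ ?_
  · intro S hS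
    rw [Finset.mem_powerset] at hS
    rw [Finset.mem_filter, Finset.mem_powerset]
    refine ⟨Finset.union_subset (Finset.sdiff_subset.trans hS) hA, Finset.subset_union_right, ?_⟩
    rw [Finset.disjoint_union_right]
    exact ⟨Finset.disjoint_sdiff, hAB⟩
  · intro b _
    calc (U.powerset.filter fun S => (S \ B) ∪ A = b).card
        ≤ ((B ∪ A).powerset).card := by
          refine Finset.card_le_card_of_injOn (fun S => S ∩ (B ∪ A)) ?_ ?_
          · intro S _
            exact Finset.mem_coe.2 (Finset.mem_powerset.2 Finset.inter_subset_right)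
          · intro S hS S' hS' h
            have h1 := (Finset.mem_filter.1 hS).2
            have h2 := (Finset.mem_filter.1 hS').2
            have h3 : S ∩ (B ∪ A) = S' ∩ (B ∪ A) := h
            ext x
            by_cases hx : x ∈ B ∪ A
            · constructor
              · intro hxS
                have : x ∈ S' ∩ (B ∪ A) := h3 ▸ Finset.mem_inter.2 ⟨hxS, hx⟩
                exact (Finset.mem_inter.1 this).1
              · intro hxS
                have : x ∈ S ∩ (B ∪ A) := h3.symm ▸ Finset.mem_inter.2 ⟨hxS, hx⟩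
                exact (Finset.mem_inter.1 this).1
            · have hxB : x ∉ B := fun h => hx (Finset.mem_union_left _ h)
              have hxA : x ∉ A := fun h => hx (Finset.mem_union_right _ h)
              have e1 : x ∈ S ↔ x ∈ b := by
                rw [← h1, Finset.mem_union, Finset.mem_sdiff]
                tauto
              have e2 : x ∈ S' ↔ x ∈ b := by
                rw [← h2, Finset.mem_union, Finset.mem_sdiff]
                tauto
              rw [e1, e2]
      _ = 2 ^ (B ∪ A).card := Finset.card_powerset _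
      _ ≤ 2 ^ (2 * (k + 1)) := by
          refine Nat.pow_le_pow_right (by norm_num) ?_
          have := Finset.card_union_le B A
          omega
      _ = 4 ^ (k + 1) := by rw [pow_mul]; norm_num

theorem c6_count {α β : Type} (EU : Finset α) (W : Finset β) (R : α → β → Prop)
    [∀ a b, Decidable (R a b)] (c m : ℕ)
    (h1 : ∀ e ∈ EU, W.card ≤ c * (W.filter (fun S => R e S)).card)
    (h2 : ∀ S ∈ W, (EU.filter fun e => R e S).card ≤ m) (hW : 0 < W.card) :
    EU.card ≤ c * m := by
  have h3 : EU.card * W.card ≤ c * ∑ e ∈ EU, (W.filter fun S => R e S).card := by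
    rw [Finset.mul_sum, ← smul_eq_mul, ← Finset.sum_const]
    exact Finset.sum_le_sum h1
  have h4 : ∑ e ∈ EU, (W.filter fun S => R e S).card =
      ∑ S ∈ W, (EU.filter fun e => R e S).card :=
    Finset.sum_card_bipartiteAbove_eq_sum_card_bipartiteBelow R
  have h5 : ∑ S ∈ W, (EU.filter fun e => R e S).card ≤ W.card * m := by
    rw [← smul_eq_mul, ← Finset.sum_const]
    exact Finset.sum_le_sum h2
  have h6 : EU.card * W.card ≤ (c * m) * W.card := by
    calc _ ≤ _ := h3
      _ = _ := by rw [h4]
      _ ≤ c * (W.card * m) := Nat.mul_le_mul_left _ h5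
      _ = _ := by ring
  exact Nat.le_of_mul_le_mul_right h6 hW

/-- Double counting of the pairs `(S, e)`, `S ⊆ U`, `e ⊆ S`, `C e ∩ S = ∅`: for every edge `e ⊆ U`
there are at least `2^(|U| - 2 - 2k)` such `S` (all sets `e ∪ S'`, `S' ⊆ U \ (e ∪ C e)`). -/
theorem sample {V : Type} [Finite V] (G : SimpleGraph V) (U : Finset V) (k m : ℕ)
    (C : Sym2 V → Finset V) (hC1 : ∀ e ∈ G.edgeSet, (C e).card ≤ 2 * k)
    (hC2 : ∀ e ∈ G.edgeSet, ∀ v ∈ C e, v ∉ e)
    (hsub : ∀ S ⊆ U, Set.ncard {e ∈ G.edgeSet | (∀ v ∈ e, v ∈ S) ∧ ∀ v ∈ C e, v ∉ S} ≤ m) :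
    Set.ncard {e ∈ G.edgeSet | ∀ v ∈ e, v ∈ U} ≤ 4 ^ (k + 1) * m := by
  classical
  have hfin : Finite (Sym2 V) := inferInstance
  set EU : Finset (Sym2 V) :=
    (Set.toFinite {e ∈ G.edgeSet | ∀ v ∈ e, v ∈ U}).toFinset with hEU
  have hcard : Set.ncard {e ∈ G.edgeSet | ∀ v ∈ e, v ∈ U} = EU.card :=
    Set.ncard_eq_toFinset_card _ _
  rw [hcard]
  have hmem : ∀ e, e ∈ EU ↔ e ∈ G.edgeSet ∧ ∀ v ∈ e, v ∈ U := by
    intro e
    rw [hEU, Set.Finite.mem_toFinset]
    rfl
  refine c6_count EU U.powerset (fun e S => (∀ v ∈ e, v ∈ S) ∧ ∀ v ∈ C e, v ∉ S)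
    (4 ^ (k + 1)) m ?_ ?_ (Finset.card_pos.2 ⟨∅, Finset.empty_mem_powerset U⟩)
  · intro e he
    obtain ⟨heG, heU⟩ := (hmem e).1 he
    have hA : (U.filter fun v => v ∈ e).card ≤ 2 := by
      clear he heG heU
      induction e using Sym2.inductionOn with
      | hf a b =>
        refine (Finset.card_le_card (t := {a, b}) ?_).trans Finset.card_le_two
        intro x hx
        have := (Finset.mem_filter.1 hx).2
        rw [Sym2.mem_iff] at this
        simpa using this
    have h2 := c6_fiber U (U.filter fun v => v ∈ e) (C e) (Finset.filter_subset _ _) ?_ k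
      (hC1 e heG) hA
    · rw [Finset.card_powerset]
      refine h2.trans (Nat.mul_le_mul_left _ (Finset.card_le_card ?_))
      intro S hS
      rw [Finset.mem_filter] at hS ⊢
      refine ⟨hS.1, fun v hv => hS.2.1 (Finset.mem_filter.2 ⟨heU v hv, hv⟩), fun v hv hvS => ?_⟩
      exact Finset.disjoint_left.1 hS.2.2 hv hvS
    · rw [Finset.disjoint_left]
      intro v hv hv'
      exact hC2 e heG v hv (Finset.mem_filter.1 hv').2
  · intro S hS
    rw [Finset.mem_powerset] at hS
    refine le_trans ?_ (hsub S hS)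
    rw [← Set.ncard_coe_finset]
    refine Set.ncard_le_ncard ?_ (Set.toFinite _)
    intro e he
    have := Finset.mem_filter.1 (Finset.mem_coe.1 he)
    exact ⟨((hmem e).1 this.1).1, this.2⟩

end QP
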