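import Pool.Agent.H6.QP.C4
import Pool.Agent.H6.QP.C5
import Pool.Agent.H6.QP.C6

/-! # Module C7: linear density -/

set_option autoImplicit false

namespace QP

/-- `exists_cover` for every edge, `sample` with `m = 4 |U|`: for `S ⊆ U` the graph with the edge set
`{e | e ⊆ S, C e ∩ S = ∅}` has no two vertex-disjoint edges in the relation `cr`, so by `hT` no
`K_5` minor and by `mader_U` (with `S`; `S = ∅` is trivial) at most `4 |S|` edges. -/
theorem density {V : Type} [Finite V] (G : SimpleGraph V) (cr : Sym2 V → Sym2 V → Prop) (k : ℕ)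
    (hk : ∀ e ∈ G.edgeSet, ∀ M : Finset (Sym2 V), (∀ f ∈ M, f ∈ G.edgeSet ∧ cr e f) →
      (∀ f ∈ M, ∀ g ∈ M, f ≠ g → VDisj f g) → M.card ≤ k)
    (hT : ∀ H ≤ G, KMinor 5 H → ∃ e ∈ H.edgeSet, ∃ f ∈ H.edgeSet, VDisj e f ∧ cr e f)
    (U : Finset V) :
    Set.ncard {e ∈ G.edgeSet | ∀ v ∈ e, v ∈ U} ≤ 4 ^ (k + 2) * U.card := by
  classical
  have hcov := fun e (he : e ∈ G.edgeSet) => exists_cover G cr k e (hk e he)
  choose! C hC1 hC2 hC3 using hcov
  have hs := sample G U k (4 * U.card) C hC1 hC2 (by
    intro S hS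
    rcases S.eq_empty_or_nonempty with rfl | hne
    · have : {e ∈ G.edgeSet | (∀ v ∈ e, v ∈ (∅ : Finset V)) ∧ ∀ v ∈ C e, v ∉ (∅ : Finset V)} = ∅ := by
        ext e
        simp only [Set.mem_ofPred_eq, Set.mem_empty_iff_false, iff_false]
        rintro ⟨_, h, _⟩
        induction e using Sym2.ind with
        | _ a b => exact absurd (h a (by simp)) (by simp)
      rw [this, Set.ncard_empty]
      exact Nat.zero_le _
    · -- the graph of the surviving edges
      let T : Set (Sym2 V) := {e ∈ G.edgeSet | (∀ v ∈ e, v ∈ S) ∧ ∀ v ∈ C e, v ∉ S}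
      let H : SimpleGraph V := SimpleGraph.fromEdgeSet T
      have hTs : T ⊆ G.edgeSet := fun e he => he.1
      have hHe : H.edgeSet = T := by
        change (SimpleGraph.fromEdgeSet T).edgeSet = T
        rw [SimpleGraph.edgeSet_fromEdgeSet]
        ext e
        constructor
        · exact fun h => h.1
        · intro h
          exact ⟨h, fun hd => G.not_isDiag_of_mem_edgeSet (hTs h) hd⟩
      have hHG : H ≤ G := by
        rw [← SimpleGraph.edgeSet_subset_edgeSet, hHe]
        exact hTs
      change T.ncard ≤ _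
      by_contra hcon
      have hcon := not_le.mp hcon
      have hcard : 4 * S.card ≤ H.edgeSet.ncard := by
        rw [hHe]
        have := Finset.card_le_card hS
        omega
      have hK := mader_U H S hne (by
        intro u v huv
        have : s(u, v) ∈ T := by
          rw [← hHe]
          exact huv
        exact ⟨this.2.1 u (by simp), this.2.1 v (by simp)⟩) hcard
      obtain ⟨e, he, f, hf, hdis, hcr⟩ := hT H hHG hK
      rw [hHe] at he hf
      obtain ⟨v, hv, hvf⟩ := hC3 e he.1 f hf.1 hcr hdis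
      exact he.2.2 v hv (hf.2.1 v hvf))
  refine hs.trans (le_of_eq ?_)
  ring

end QP
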