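import Mathlib

/-! # Module C8: sparse graphs decompose into star forests -/

set_option autoImplicit false

namespace QP

/-- Handshake lemma inside `U`. -/
theorem exists_min_degree {V : Type} [Finite V] (G : SimpleGraph V) (D : ℕ)
    (h : ∀ U : Finset V, Set.ncard {e ∈ G.edgeSet | ∀ v ∈ e, v ∈ U} ≤ D * U.card)
    (U : Finset V) (hU : U.Nonempty) : ∃ v ∈ U, Set.ncard {w | w ∈ U ∧ G.Adj v w} ≤ 2 * D := by
  classical
  have := Fintype.ofFinite V
  let H : SimpleGraph V :=
    { Adj := fun a b => G.Adj a b ∧ a ∈ U ∧ b ∈ U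
      symm := ⟨fun a b hab => ⟨hab.1.symm, hab.2.2, hab.2.1⟩⟩
      loopless := ⟨fun a ha => G.loopless.irrefl a ha.1⟩ }
  have h1 := H.sum_degrees_eq_twice_card_edges
  have h2 : (H.edgeFinset.card : ℕ) = Set.ncard {e ∈ G.edgeSet | ∀ v ∈ e, v ∈ U} := by
    have h3 : {e ∈ G.edgeSet | ∀ v ∈ e, v ∈ U} = (H.edgeFinset : Set (Sym2 V)) := by
      ext e
      rw [SimpleGraph.coe_edgeFinset]
      induction e using Sym2.ind with
      | _ a b =>
        simp only [Set.mem_ofPred_eq, SimpleGraph.mem_edgeSet, Sym2.mem_iff, forall_eq_or_imp,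
          forall_eq]
        exact Iff.rfl
    rw [h3, Set.ncard_coe_finset]
  have h4 : ∀ v ∈ U, H.degree v = Set.ncard {w | w ∈ U ∧ G.Adj v w} := by
    intro v hv
    have h5 : {w | w ∈ U ∧ G.Adj v w} = (H.neighborFinset v : Set V) := by
      ext w
      rw [SimpleGraph.coe_neighborFinset]
      constructor
      · rintro ⟨hw, ha⟩
        exact ⟨ha, hv, hw⟩
      · rintro ⟨ha, -, hw⟩
        exact ⟨hw, ha⟩
    rw [h5, Set.ncard_coe_finset]
    rfl
  have h6 : ∑ v ∈ U, Set.ncard {w | w ∈ U ∧ G.Adj v w} ≤ ∑ v ∈ U, 2 * D := by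
    calc ∑ v ∈ U, Set.ncard {w | w ∈ U ∧ G.Adj v w} = ∑ v ∈ U, H.degree v :=
          Finset.sum_congr rfl fun v hv => (h4 v hv).symm
      _ ≤ ∑ v, H.degree v := Finset.sum_le_sum_of_subset (Finset.subset_univ U)
      _ = 2 * H.edgeFinset.card := h1
      _ ≤ 2 * (D * U.card) := by
          rw [h2]
          exact Nat.mul_le_mul_left 2 (h U)
      _ = ∑ v ∈ U, 2 * D := by
          rw [Finset.sum_const, smul_eq_mul]
          ring
  obtain ⟨v, hv, hle⟩ := Finset.exists_le_of_sum_le hU h6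
  exact ⟨v, hv, hle⟩

/-- The statement proved by induction. -/
def c8P {V : Type} (G : SimpleGraph V) (d : ℕ) (U : Finset V)
    (par : Fin d × Bool → V → Option V) : Prop :=
  (∀ c v u, par c v = some u → v ∈ U ∧ u ∈ U ∧ par c u = none ∧ G.Adj v u) ∧
  (∀ v ∈ U, ∀ u ∈ U, G.Adj v u → ∃ c, par c v = some u ∨ par c u = some v) ∧
  (∀ c v u c' v' u', par c v = some u → par c' v' = some u' → s(v, u) = s(v', u') →
    c = c' ∧ v = v') ∧
  (∀ i v, par (i, false) v = none ∨ par (i, true) v = none)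

theorem c8_step {V : Type} [Finite V] [DecidableEq V] (G : SimpleGraph V) (d : ℕ) (U : Finset V)
    (v : V) (hv : v ∈ U) (hd : Set.ncard {w | w ∈ U ∧ G.Adj v w} ≤ d)
    (par : Fin d × Bool → V → Option V) (hp : c8P G d (U.erase v) par) :
    ∃ par', c8P G d U par' := by
  classical
  have := Fintype.ofFinite V
  obtain ⟨p1, p2, p3, p4⟩ := hp
  let N : Set V := {w | w ∈ U ∧ G.Adj v w}
  have hN : Fintype.card N ≤ Fintype.card (Fin d) := by
    rw [Fintype.card_fin, ← Nat.card_eq_fintype_card, Nat.card_coe_set_eq]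
    exact hd
  obtain ⟨ι⟩ := Function.Embedding.nonempty_of_card_le hN
  have hb : ∀ w : N, ∃ b : Bool, par (ι w, b) w = none := by
    intro w
    rcases p4 (ι w) w with h | h
    · exact ⟨false, h⟩
    · exact ⟨true, h⟩
  choose b hb using hb
  let sel : Fin d × Bool → Option V := fun c =>
    if h : ∃ w : N, ι w = c.1 ∧ b w = c.2 then some (h.choose : V) else none
  have hsel : ∀ c u, sel c = some u ↔ ∃ hu : u ∈ N, ι ⟨u, hu⟩ = c.1 ∧ b ⟨u, hu⟩ = c.2 := by
    intro c u
    constructor
    · intro h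
      by_cases hex : ∃ w : N, ι w = c.1 ∧ b w = c.2
      · simp only [sel, dif_pos hex] at h
        have h1 : (hex.choose : V) = u := Option.some.inj h
        have h2 := hex.choose_spec
        refine ⟨h1 ▸ hex.choose.2, ?_⟩
        have h3 : (⟨u, h1 ▸ hex.choose.2⟩ : N) = hex.choose := Subtype.ext h1.symm
        rw [h3]
        exact h2
      · simp only [sel, dif_neg hex] at h
        exact absurd h (by simp)
    · rintro ⟨hu, h1, h2⟩
      have hex : ∃ w : N, ι w = c.1 ∧ b w = c.2 := ⟨⟨u, hu⟩, h1, h2⟩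
      simp only [sel, dif_pos hex]
      have h3 : hex.choose = ⟨u, hu⟩ := ι.injective (hex.choose_spec.1.trans h1.symm)
      rw [h3]
  let par' : Fin d × Bool → V → Option V := fun c x => if x = v then sel c else par c x
  have hv' : ∀ c, par' c v = sel c := fun c => if_pos rfl
  have hx' : ∀ c x, x ≠ v → par' c x = par c x := fun c x hx => if_neg hx
  have hNv : ∀ u ∈ N, u ≠ v := by
    rintro u ⟨-, hu⟩ rfl
    exact G.loopless.irrefl _ hu
  refine ⟨par', ?_, ?_, ?_, ?_⟩
  · intro c x u hxu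
    by_cases hx : x = v
    · subst hx
      rw [hv', hsel] at hxu
      obtain ⟨hu, h1, h2⟩ := hxu
      refine ⟨hv, hu.1, ?_, hu.2⟩
      rw [hx' c u (hNv u hu)]
      have h3 := hb ⟨u, hu⟩
      rw [h1, h2] at h3
      exact h3
    · rw [hx' c x hx] at hxu
      obtain ⟨h1, h2, h3, h4⟩ := p1 c x u hxu
      refine ⟨Finset.mem_of_mem_erase h1, Finset.mem_of_mem_erase h2, ?_, h4⟩
      rw [hx' c u (Finset.ne_of_mem_erase h2)]
      exact h3
  · intro x hx u hu hxu
    by_cases hxv : x = v
    · subst hxv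
      have hun : u ∈ N := ⟨hu, hxu⟩
      exact ⟨(ι ⟨u, hun⟩, b ⟨u, hun⟩), Or.inl (by rw [hv', hsel]; exact ⟨hun, rfl, rfl⟩)⟩
    · by_cases huv : u = v
      · subst huv
        have hxn : x ∈ N := ⟨hx, hxu.symm⟩
        exact ⟨(ι ⟨x, hxn⟩, b ⟨x, hxn⟩), Or.inr (by rw [hv', hsel]; exact ⟨hxn, rfl, rfl⟩)⟩
      · obtain ⟨c, hc⟩ := p2 x (Finset.mem_erase.2 ⟨hxv, hx⟩) u (Finset.mem_erase.2 ⟨huv, hu⟩) hxu
        refine ⟨c, ?_⟩
        rw [hx' c x hxv, hx' c u huv]
        exact hc
  · intro c x u c' x' u' h1 h2 h3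
    by_cases hx : x = v
    · subst hx
      rw [hv', hsel] at h1
      obtain ⟨hu, h4, h5⟩ := h1
      by_cases hxx : x' = x
      · subst hxx
        rw [hv', hsel] at h2
        obtain ⟨hu', h4', h5'⟩ := h2
        have huu : u = u' := by
          rcases Sym2.eq_iff.1 h3 with ⟨-, h⟩ | ⟨h, h'⟩
          · exact h
          · exact h'.trans h
        subst huu
        exact ⟨Prod.ext (h4.symm.trans h4') (h5.symm.trans h5'), rfl⟩
      · rw [hx' c' x' hxx] at h2
        obtain ⟨-, h7, -, -⟩ := p1 c' x' u' h2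
        rcases Sym2.eq_iff.1 h3 with ⟨h, -⟩ | ⟨h, -⟩
        · exact absurd h.symm hxx
        · exact absurd h.symm (Finset.ne_of_mem_erase h7)
    · rw [hx' c x hx] at h1
      by_cases hxx : x' = v
      · subst hxx
        obtain ⟨-, h7, -, -⟩ := p1 c x u h1
        rcases Sym2.eq_iff.1 h3 with ⟨h, -⟩ | ⟨-, h⟩
        · exact absurd h hx
        · exact absurd h (Finset.ne_of_mem_erase h7)
      · rw [hx' c' x' hxx] at h2
        exact p3 c x u c' x' u' h1 h2 h3
  · intro i x
    by_cases hx : x = v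
    · subst hx
      rw [hv', hv']
      by_contra hcon
      push Not at hcon
      obtain ⟨h1, h2⟩ := hcon
      obtain ⟨u, hu⟩ := Option.ne_none_iff_exists'.1 h1
      obtain ⟨u', hu'⟩ := Option.ne_none_iff_exists'.1 h2
      rw [hsel] at hu hu'
      obtain ⟨m1, e1, e2⟩ := hu
      obtain ⟨m2, e3, e4⟩ := hu'
      simp only at e1 e2 e3 e4
      have h5 : (⟨u, m1⟩ : N) = ⟨u', m2⟩ := ι.injective (e1.trans e3.symm)
      rw [h5, e4] at e2
      exact absurd e2 (by simp)
    · rw [hx' _ x hx, hx' _ x hx]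
      exact p4 i x

/-- Star forests with classes `Fin d × Bool`; by induction on `|U|` prove the statement for the graph inside `U`
(`par c v = some u` only for `v, u ∈ U`), together with: for all `i` and `v`, `par (i,false) v = none` or
`par (i,true) v = none`.  Remove a vertex `v` of degree at most `d` in `U`; its neighbours are
`u_1, ..., u_m`, `m ≤ d`: put `par (i, b_i) v = some u_i` where `b_i` is such that
`par (i, b_i) u_i = none`. -/
theorem star_forests_aux {V : Type} [Finite V] (G : SimpleGraph V) (d : ℕ)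
    (h : ∀ U : Finset V, U.Nonempty → ∃ v ∈ U, Set.ncard {w | w ∈ U ∧ G.Adj v w} ≤ d) :
    ∃ par : Fin d × Bool → V → Option V,
      (∀ c v u, par c v = some u → par c u = none ∧ G.Adj v u) ∧
      (∀ v u, G.Adj v u → ∃ c, par c v = some u ∨ par c u = some v) ∧
      (∀ c v u c' v' u', par c v = some u → par c' v' = some u' → s(v, u) = s(v', u') →
        c = c' ∧ v = v') := by
  classical
  have := Fintype.ofFinite V
  have key : ∀ (m : ℕ) (U : Finset V), U.card = m → ∃ par, c8P G d U par := by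
    intro m
    induction m with
    | zero =>
      intro U hU
      rw [Finset.card_eq_zero] at hU
      subst hU
      refine ⟨fun _ _ => none, ?_, ?_, ?_, ?_⟩
      · intro c v u h
        exact absurd h (by simp)
      · intro v hv
        exact absurd hv (Finset.notMem_empty v)
      · intro c v u c' v' u' h
        exact absurd h (by simp)
      · intro i v
        exact Or.inl rfl
    | succ m ih =>
      intro U hU
      have hne : U.Nonempty := by
        rw [← Finset.card_pos]; omega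
      obtain ⟨v, hv, hdeg⟩ := h U hne
      obtain ⟨par, hp⟩ := ih (U.erase v) (by rw [Finset.card_erase_of_mem hv]; omega)
      exact c8_step G d U v hv hdeg par hp
  obtain ⟨par, p1, p2, p3, -⟩ := key _ (Finset.univ : Finset V) rfl
  refine ⟨par, fun c v u hu => (p1 c v u hu).2.2, fun v u hvu =>
    p2 v (Finset.mem_univ v) u (Finset.mem_univ u) hvu, p3⟩

/-- Same with classes numbered by `Fin (2 * d)`. -/
theorem star_forests {V : Type} [Finite V] (G : SimpleGraph V) (d : ℕ)
    (h : ∀ U : Finset V, U.Nonempty → ∃ v ∈ U, Set.ncard {w | w ∈ U ∧ G.Adj v w} ≤ d) :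
    ∃ par : Fin (2 * d) → V → Option V,
      (∀ c v u, par c v = some u → par c u = none ∧ G.Adj v u) ∧
      (∀ v u, G.Adj v u → ∃ c, par c v = some u ∨ par c u = some v) ∧
      (∀ c v u c' v' u', par c v = some u → par c' v' = some u' → s(v, u) = s(v', u') →
        c = c' ∧ v = v') := by
  obtain ⟨par, p1, p2, p3⟩ := star_forests_aux G d h
  have e : Fin (2 * d) ≃ Fin d × Bool := Fintype.equivOfCardEq (by
    rw [Fintype.card_fin, Fintype.card_prod, Fintype.card_fin, Fintype.card_bool, mul_comm])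
  refine ⟨fun c => par (e c), fun c v u hu => p1 (e c) v u hu, ?_, ?_⟩
  · intro v u hvu
    obtain ⟨c, hc⟩ := p2 v u hvu
    refine ⟨e.symm c, ?_⟩
    simp only [Equiv.apply_symm_apply]
    exact hc
  · intro c v u c' v' u' h1 h2 h3
    obtain ⟨h4, h5⟩ := p3 _ v u _ v' u' h1 h2 h3
    exact ⟨e.injective h4, h5⟩

end QP
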