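import Mathlib

/-! # MP_09efc9_co: topological graphs, `k`-matching-planar and `m`-quasi-planar graphs -/

set_option autoImplicit false

namespace QP

/-- A drawing of `G` in the plane as a topological graph.  `curve e`, restricted to `[0,1]`, is the
curve of the edge `e`.  Two edges may meet more than once. -/
structure Drawing {V : Type} (G : SimpleGraph V) where
  /-- positions of the vertices -/
  pos : V → ℝ × ℝ
  pos_inj : Function.Injective pos
  /-- the curves of the edges -/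
  curve : Sym2 V → ℝ → ℝ × ℝ
  /-- the curves are continuous -/
  cont : ∀ e ∈ G.edgeSet, ContinuousOn (curve e) (Set.Icc 0 1)
  /-- the curves are simple -/
  inj : ∀ e ∈ G.edgeSet, Set.InjOn (curve e) (Set.Icc 0 1)
  /-- the curve of an edge joins its two endpoints -/
  ends : ∀ e ∈ G.edgeSet, ∃ u v, e = s(u, v) ∧ curve e 0 = pos u ∧ curve e 1 = pos v
  /-- no vertex is an interior point of an edge -/
  avoid : ∀ e ∈ G.edgeSet, ∀ t ∈ Set.Ioo (0 : ℝ) 1, ∀ w, curve e t ≠ pos w
  /-- two edges meet in finitely many points -/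
  fin : ∀ e ∈ G.edgeSet, ∀ f ∈ G.edgeSet, e ≠ f →
    (curve e '' Set.Icc 0 1 ∩ curve f '' Set.Icc 0 1).Finite
  /-- no three edges share an interior point -/
  triple : ∀ e ∈ G.edgeSet, ∀ f ∈ G.edgeSet, ∀ g ∈ G.edgeSet, e ≠ f → e ≠ g → f ≠ g →
    curve e '' Set.Ioo 0 1 ∩ curve f '' Set.Ioo 0 1 ∩ curve g '' Set.Ioo 0 1 = ∅

variable {V : Type} {G : SimpleGraph V}

/-- Two distinct edges cross: they have a common interior point. -/
def Drawing.Cross (D : Drawing G) (e f : Sym2 V) : Prop :=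
  e ≠ f ∧ (D.curve e '' Set.Ioo 0 1 ∩ D.curve f '' Set.Ioo 0 1).Nonempty

/-- Two edges without common endpoint. -/
def VDisj {V : Type} (e f : Sym2 V) : Prop := ∀ v, ¬ (v ∈ e ∧ v ∈ f)

/-- No edge is crossed by `k + 1` pairwise vertex-disjoint edges. -/
def Drawing.MatchingPlanar (D : Drawing G) (k : ℕ) : Prop :=
  ∀ e ∈ G.edgeSet, ∀ M : Finset (Sym2 V), (∀ f ∈ M, f ∈ G.edgeSet ∧ D.Cross e f) →
    (∀ f ∈ M, ∀ g ∈ M, f ≠ g → VDisj f g) → M.card ≤ k

/-- There are no `m` edges that pairwise cross. -/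
def Drawing.QuasiPlanar (D : Drawing G) (m : ℕ) : Prop :=
  ¬ ∃ M : Finset (Sym2 V), M.card = m ∧ (∀ f ∈ M, f ∈ G.edgeSet) ∧
    ∀ f ∈ M, ∀ g ∈ M, f ≠ g → D.Cross f g

/-- `G` has a drawing as a topological `k`-matching-planar graph. -/
def MatchingPlanar {V : Type} (G : SimpleGraph V) (k : ℕ) : Prop :=
  ∃ D : Drawing G, D.MatchingPlanar k

/-- `G` has a drawing as a topological `m`-quasi-planar graph. -/
def QuasiPlanar {V : Type} (G : SimpleGraph V) (m : ℕ) : Prop :=
  ∃ D : Drawing G, D.QuasiPlanar m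

end QP
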