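import Pool.Agent.H6.QP.A6
import Pool.Agent.H6.QP.B6
import Pool.Agent.H6.QP.C7
import Pool.Agent.H6.QP.C8

/-! # Module FIN: assembly -/

set_option autoImplicit false

namespace QP

theorem matchingPlanar_quasiPlanar (k : ℕ) (V : Type) [Finite V] (G : SimpleGraph V)
    (h : MatchingPlanar G k) : QuasiPlanar G (4 ^ (k + 3) + 1) := by
  classical
  obtain ⟨D, hD⟩ := h
  have hdens := density G D.Cross k hD (fun H hH hK => D.cross_of_KMinor H hH hK)
  obtain ⟨par, p1, p2, p3⟩ := star_forests G (2 * 4 ^ (k + 2))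
    (fun U hU => exists_min_degree G (4 ^ (k + 2)) hdens U hU)
  obtain ⟨D', hD'⟩ := exists_drawing G _ par p1 p2 p3
  refine ⟨D', ?_⟩
  rintro ⟨M, hM, hM1, hM2⟩
  have hcl : ∀ e ∈ G.edgeSet, ∃ c v u, par c v = some u ∧ e = s(v, u) := by
    intro e
    refine Sym2.ind (fun v u => ?_) e
    intro he
    obtain ⟨c, hc⟩ := p2 v u he
    rcases hc with hc | hc
    · exact ⟨c, v, u, hc, rfl⟩
    · exact ⟨c, u, v, hc, Sym2.eq_swap⟩
  have hMne : M.Nonempty := Finset.card_pos.mp (by rw [hM]; positivity)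
  obtain ⟨e0, he0⟩ := hMne
  obtain ⟨c0, v0, u0, _, _⟩ := hcl e0 (hM1 e0 he0)
  haveI : Nonempty V := ⟨v0⟩
  haveI : Nonempty (Fin (2 * (2 * 4 ^ (k + 2)))) := ⟨c0⟩
  choose! cl a b hab he using hcl
  have hcard : (Finset.univ : Finset (Fin (2 * (2 * 4 ^ (k + 2))))).card < M.card := by
    rw [hM, Finset.card_univ, Fintype.card_fin]
    ring_nf
    omega
  obtain ⟨e, heM, f, hfM, hef, hcl⟩ := Finset.exists_ne_map_eq_of_card_lt_of_maps_to hcard
    (fun e _ => Finset.mem_coe.2 (Finset.mem_univ (cl e)))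
  have hcr := hM2 e heM f hfM hef
  have h1 := hab e (hM1 e heM)
  have h2 := hab f (hM1 f hfM)
  rw [← hcl] at h2
  apply hD' (cl e) (a e) (b e) (a f) (b f) h1 h2
  rw [← he e (hM1 e heM), ← he f (hM1 f hfM)]
  exact hcr

end QP
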