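import Mathlib

/-! # Layout of a star forest, shears, good functions -/

set_option autoImplicit false

namespace QP
open Polynomial

variable {V : Type}

/-- Abscissas of the layout of a star forest: the centers and isolated vertices at multiples of
`n + 1`, the leaves of the center `u` in the `n` integers after the one of `u`. -/
noncomputable def lx (n : ℕ) (idx : V → ℕ) (par : V → Option V) (v : V) : ℝ :=
  match par v with
  | none => ((n + 1) * idx v : ℕ)
  | some u => ((n + 1) * idx u + idx v + 1 : ℕ)

/-- Ordinates of the layout: `1` for leaves, `0` otherwise. -/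
noncomputable def ly (par : V → Option V) (v : V) : ℝ :=
  match par v with
  | none => 0
  | some _ => 1

/-- The point with the parameter `t` of the segment from the center `u` to the leaf `v`. -/
noncomputable def seg (n : ℕ) (idx : V → ℕ) (par : V → Option V) (v u : V) (t : ℝ) : ℝ × ℝ :=
  (lx n idx par u + t * (lx n idx par v - lx n idx par u), t)

/-- The composition of the shears `(x,y) ↦ (x, y + P x)` and `(x,y) ↦ (x + R y, y)`. -/
noncomputable def shear (P R : ℝ[X]) (z : ℝ × ℝ) : ℝ × ℝ :=
  (z.1 + R.eval (z.2 + P.eval z.1), z.2 + P.eval z.1)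

/-- `F` is polynomial along polynomial curves, and has finitely many zeros on every horizontal
line. -/
def GoodF (F : ℝ × ℝ → ℝ) : Prop :=
  (∀ A B : ℝ[X], ∃ Q : ℝ[X], ∀ t : ℝ, F (A.eval t, B.eval t) = Q.eval t) ∧
    ∀ y : ℝ, {x : ℝ | F (x, y) = 0}.Finite

/-- The polynomial with simple zeros at the `a v`. -/
noncomputable def node [Fintype V] (a : V → ℝ) : ℝ[X] := ∏ v, (X - C (a v))

end QP
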