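import Mathlib

/-! # Minor models -/

set_option autoImplicit false

namespace QP

/-- `v` can be reached from `u` by edges of `G` inside `B`. -/
def Reach {V : Type} (G : SimpleGraph V) (B : Set V) (u v : V) : Prop :=
  Relation.ReflTransGen (fun a b => G.Adj a b ∧ a ∈ B ∧ b ∈ B) u v

/-- `B` is a model of the minor `H` in `G`: disjoint connected bags, an edge between two bags for
every edge of `H`. -/
def IsModel {W V : Type} (H : SimpleGraph W) (G : SimpleGraph V) (B : W → Set V) : Prop :=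
  (∀ w, (B w).Nonempty) ∧ (∀ w w', w ≠ w' → Disjoint (B w) (B w')) ∧
    (∀ w, ∀ u ∈ B w, ∀ v ∈ B w, Reach G (B w) u v) ∧
    ∀ w w', H.Adj w w' → ∃ u ∈ B w, ∃ v ∈ B w', G.Adj u v

/-- `K_r` is a minor of `G`. -/
def KMinor {V : Type} (r : ℕ) (G : SimpleGraph V) : Prop :=
  ∃ B : Fin r → Set V, IsModel (⊤ : SimpleGraph (Fin r)) G B

end QP
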