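import Mathlib

/-! # Crossing parities of polygonal paths: definitions

`xx a a' c c'` is the parity of the number of crossings of the segments `a a'` and `c c'` (points in
general position, distinct abscissas), computed by vertical comparison at the endpoints. -/

set_option autoImplicit false

namespace QP

/-- The abscissa of `a` lies strictly between those of `c` and `d`. -/
def Btw (a c d : ℝ × ℝ) : Prop := (c.1 < a.1 ∧ a.1 < d.1) ∨ (d.1 < a.1 ∧ a.1 < c.1)

/-- The height at the abscissa `x` of the line through `c` and `d`. -/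
noncomputable def ht (c d : ℝ × ℝ) (x : ℝ) : ℝ := c.2 + (x - c.1) * ((d.2 - c.2) / (d.1 - c.1))

open Classical in
/-- `1` if `a` is strictly below the segment `c d`. -/
noncomputable def uu (a c d : ℝ × ℝ) : ZMod 2 := if Btw a c d ∧ a.2 < ht c d a.1 then 1 else 0

open Classical in
/-- `1` if `a` is strictly above the segment `c d`. -/
noncomputable def ll (a c d : ℝ × ℝ) : ZMod 2 := if Btw a c d ∧ ht c d a.1 < a.2 then 1 else 0

/-- Crossing parity of the segments `a a'` and `c c'`. -/
noncomputable def xx (a a' c c' : ℝ × ℝ) : ZMod 2 := uu a c c' + uu a' c c' + ll c a a' + ll c' a a'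

/-- Crossing parity of two polygonal paths with `n` segments. -/
noncomputable def px (n : ℕ) (a b : ℕ → ℝ × ℝ) : ZMod 2 :=
  ∑ m ∈ Finset.range n, ∑ m' ∈ Finset.range n, xx (a m) (a (m + 1)) (b m') (b (m' + 1))

/-- Number mod 2 of the segments of the path `b` above `p`. -/
noncomputable def usum (n : ℕ) (p : ℝ × ℝ) (b : ℕ → ℝ × ℝ) : ZMod 2 :=
  ∑ m ∈ Finset.range n, uu p (b m) (b (m + 1))

/-- Number mod 2 of the segments of the path `b` below `p`. -/
noncomputable def lsum (n : ℕ) (p : ℝ × ℝ) (b : ℕ → ℝ × ℝ) : ZMod 2 :=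
  ∑ m ∈ Finset.range n, ll p (b m) (b (m + 1))

end QP
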